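import Pool.Agent.LibH11.SlicedNoether

/-!
# State sums on sliced diagrams

A model consists of matrices for minima, maxima and crossings over a commutative ring, satisfying
the relations of `Sliced.Move`. The state sum of a diagram from one strand to one strand is a knot
invariant. If the two crossings are congruent modulo `h`, its coefficients are of finite type.
-/

namespace Pool.Agent.TwoBr

open Pool.Agent.LibH11.Sliced

variable {R : Type*} [CommRing R] {ι : Type*} [Fintype ι]

/-- The matrices of a state model; `X e x y c d` is the entry of the crossing of type `e` from the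
labels `x y` below to the labels `c d` above. -/
structure Mats (R : Type*) (ι : Type*) where
  cup : ι → ι → R
  cap : ι → ι → R
  X : Bool → ι → ι → ι → ι → R

/-- The relations. -/
structure Mats.Ok [DecidableEq ι] (M : Mats R ι) : Prop where
  zigzag : ∀ x a, ∑ b, M.cup a b * M.cap b x = if a = x then 1 else 0
  zagzig : ∀ x b, ∑ a, M.cup a b * M.cap x a = if b = x then 1 else 0
  slideCap : ∀ e x y z t, ∑ c, M.X e y z c t * M.cap x c = ∑ d, M.X (!e) x y t d * M.cap d z
  slideCup : ∀ e x p q r, ∑ b, M.cup p b * M.X e b x q r = ∑ a, M.cup a r * M.X (!e) x a p q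
  r1Cap : ∀ e x y, ∑ c, ∑ d, M.X e x y c d * M.cap c d = M.cap x y
  r1Cup : ∀ e c d, ∑ a, ∑ b, M.cup a b * M.X e a b c d = M.cup c d
  r2 : ∀ e x y p q, ∑ c, ∑ d, M.X e x y c d * M.X (!e) c d p q =
    if p = x ∧ q = y then 1 else 0
  r3 : ∀ x y z p q r, ∑ a, ∑ b, ∑ c, M.X true x y a b * M.X true b z c r * M.X true a c p q =
    ∑ a, ∑ b, ∑ c, M.X true y z a b * M.X true x a p c * M.X true c b q r

/-- The action of a slice at the left end on functions of the labels above it. -/
def Mats.loc (M : Mats R ι) : Kind → (List ι → R) → List ι → R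
  | .cup, F, l => ∑ a, ∑ b, M.cup a b * F (a :: b :: l)
  | .cap, F, x :: y :: l => M.cap x y * F l
  | .crs e, F, x :: y :: l => ∑ c, ∑ d, M.X e x y c d * F (c :: d :: l)
  | .cap, _, _ => 0
  | .crs _, _, _ => 0

/-- The action of a slice. -/
def Mats.act (M : Mats R ι) (k : Kind) : ℕ → (List ι → R) → List ι → R
  | 0, F, l => M.loc k F l
  | _ + 1, _, [] => 0
  | i + 1, F, x :: l => M.act k i (fun l' => F (x :: l')) l

/-- The action of a diagram. -/
def Mats.val (M : Mats R ι) : Diag → (List ι → R) → List ι → R
  | [], F => F
  | (k, i) :: w, F => M.act k i (M.val w F)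

theorem Mats.val_append (M : Mats R ι) (u w : Diag) (F : List ι → R) :
    M.val (u ++ w) F = M.val u (M.val w F) := by
  induction u with
  | nil => rfl
  | cons p u ih => obtain ⟨k, i⟩ := p; simp only [List.cons_append, Mats.val, ih]

/-- Two functions agree on lists of length `n`. -/
def EqOn (n : ℕ) (F G : List ι → R) : Prop := ∀ l : List ι, l.length = n → F l = G l

theorem Mats.loc_congr (M : Mats R ι) (k : Kind) {n : ℕ} {F G : List ι → R}
    (h : EqOn (n + k.outs) F G) : EqOn (n + k.ins) (M.loc k F) (M.loc k G) := by
  intro l hl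
  cases k with
  | cup =>
    simp only [Mats.loc]
    refine Finset.sum_congr rfl fun a _ => Finset.sum_congr rfl fun b _ => ?_
    rw [h]
    simp only [Kind.ins, Kind.outs, List.length_cons] at hl ⊢
    omega
  | cap =>
    match l, hl with
    | [], hl => simp [Kind.ins] at hl
    | [_], hl => simp [Kind.ins] at hl
    | x :: y :: l, hl =>
      simp only [Mats.loc]
      rw [h]
      simp only [Kind.ins, Kind.outs, List.length_cons] at hl ⊢
      omega
  | crs e =>
    match l, hl with
    | [], hl => simp [Kind.ins] at hl
    | [_], hl => simp [Kind.ins] at hl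
    | x :: y :: l, hl =>
      simp only [Mats.loc]
      refine Finset.sum_congr rfl fun a _ => Finset.sum_congr rfl fun b _ => ?_
      rw [h]
      simp only [Kind.ins, Kind.outs, List.length_cons] at hl ⊢
      omega

theorem Mats.act_congr (M : Mats R ι) (k : Kind) : ∀ (i : ℕ) {n : ℕ} {F G : List ι → R},
    EqOn (i + n + k.outs) F G → EqOn (i + n + k.ins) (M.act k i F) (M.act k i G) := by
  intro i
  induction i with
  | zero =>
    intro n F G h l hl
    simp only [Mats.act]
    exact M.loc_congr k (n := n) (fun l' hl' => h l' (by omega)) l (by omega)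
  | succ i ih =>
    intro n F G h l hl
    match l with
    | [] => rfl
    | x :: l =>
      simp only [Mats.act]
      refine ih (n := n) (fun l' hl' => h _ ?_) l ?_
      · simp only [List.length_cons]; omega
      · simp only [List.length_cons] at hl; omega

theorem Mats.val_congr (M : Mats R ι) : ∀ (u : Diag) {n m : ℕ} {F G : List ι → R},
    cnt n u = some m → EqOn m F G → EqOn n (M.val u F) (M.val u G) := by
  intro u
  induction u with
  | nil =>
    intro n m F G h hF
    simp only [cnt, Option.some.injEq] at h
    subst h
    exact hF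
  | cons p u ih =>
    obtain ⟨k, i⟩ := p
    intro n m F G h hF
    simp only [cnt] at h
    split_ifs at h with h1
    have h2 := ih h hF
    simp only [Mats.val]
    obtain ⟨j, hj⟩ := Nat.exists_eq_add_of_le h1
    have h3 := M.act_congr k i (n := j) (F := M.val u F) (G := M.val u G)
      (fun l hl => h2 l (by omega))
    intro l hl
    exact h3 l (by omega)

/-- Two diagrams act in the same way on the functions of lists of length `n`. -/
def Same (M : Mats R ι) (n : ℕ) (a b : Diag) : Prop := ∀ F : List ι → R, EqOn n (M.val a F) (M.val b F)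

/-- Shifting a diagram to the right. -/
def shD (a : Diag) : Diag := a.map fun p => (p.1, p.2 + 1)

theorem Mats.val_sh (M : Mats R ι) (a : Diag) : ∀ (F : List ι → R) (x : ι) (l : List ι),
    M.val (shD a) F (x :: l) = M.val a (fun l' => F (x :: l')) l := by
  induction a with
  | nil => intro F x l; rfl
  | cons p a ih =>
    obtain ⟨k, i⟩ := p
    intro F x l
    simp only [shD, List.map_cons, Mats.val, Mats.act]
    have : (fun l' => M.val (shD a) F (x :: l')) = M.val a (fun l' => F (x :: l')) := by
      funext l'; exact ih F x l'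
    simp only [shD] at this
    rw [this]

theorem Same.sh {M : Mats R ι} {n : ℕ} {a b : Diag} (h : Same M n a b) :
    Same M (n + 1) (shD a) (shD b) := by
  intro F l hl
  match l, hl with
  | x :: l, hl =>
    rw [M.val_sh, M.val_sh]
    exact h _ l (by simpa using hl)

/-! ### Linearity -/

theorem Mats.loc_add (M : Mats R ι) (k : Kind) (F G : List ι → R) (l : List ι) :
    M.loc k (F + G) l = M.loc k F l + M.loc k G l := by
  cases k with
  | cup => simp only [Mats.loc, Pi.add_apply, mul_add, Finset.sum_add_distrib]
  | cap =>
    match l with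
    | [] => simp [Mats.loc]
    | [_] => simp [Mats.loc]
    | x :: y :: l => simp only [Mats.loc, Pi.add_apply, mul_add]
  | crs e =>
    match l with
    | [] => simp [Mats.loc]
    | [_] => simp [Mats.loc]
    | x :: y :: l => simp only [Mats.loc, Pi.add_apply, mul_add, Finset.sum_add_distrib]

theorem Mats.loc_smul (M : Mats R ι) (k : Kind) (r : R) (F : List ι → R) (l : List ι) :
    M.loc k (r • F) l = r * M.loc k F l := by
  cases k with
  | cup => simp only [Mats.loc, Pi.smul_apply, smul_eq_mul, mul_left_comm _ r, Finset.mul_sum]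
  | cap =>
    match l with
    | [] => simp [Mats.loc]
    | [_] => simp [Mats.loc]
    | x :: y :: l => simp only [Mats.loc, Pi.smul_apply, smul_eq_mul, mul_left_comm _ r]
  | crs e =>
    match l with
    | [] => simp [Mats.loc]
    | [_] => simp [Mats.loc]
    | x :: y :: l =>
      simp only [Mats.loc, Pi.smul_apply, smul_eq_mul, mul_left_comm _ r, Finset.mul_sum]

theorem Mats.act_add (M : Mats R ι) (k : Kind) : ∀ (i : ℕ) (F G : List ι → R) (l : List ι),
    M.act k i (F + G) l = M.act k i F l + M.act k i G l := by
  intro i
  induction i with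
  | zero => intro F G l; exact M.loc_add k F G l
  | succ i ih =>
    intro F G l
    match l with
    | [] => simp [Mats.act]
    | x :: l =>
      simp only [Mats.act]
      exact ih (fun l' => F (x :: l')) (fun l' => G (x :: l')) l

theorem Mats.act_smul (M : Mats R ι) (k : Kind) : ∀ (i : ℕ) (r : R) (F : List ι → R) (l : List ι),
    M.act k i (r • F) l = r * M.act k i F l := by
  intro i
  induction i with
  | zero => intro r F l; exact M.loc_smul k r F l
  | succ i ih =>
    intro r F l
    match l with
    | [] => simp [Mats.act]
    | x :: l =>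
      simp only [Mats.act]
      exact ih r (fun l' => F (x :: l')) l

/-- The action of a slice as a linear map. -/
def Mats.actHom (M : Mats R ι) (k : Kind) (i : ℕ) : (List ι → R) →ₗ[R] (List ι → R) where
  toFun := M.act k i
  map_add' F G := by funext l; exact M.act_add k i F G l
  map_smul' r F := by funext l; simpa using M.act_smul k i r F l

/-- The action of a diagram as a linear map. -/
def Mats.valHom (M : Mats R ι) : Diag → (List ι → R) →ₗ[R] (List ι → R)
  | [] => LinearMap.id
  | (k, i) :: w => (M.actHom k i).comp (M.valHom w)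

theorem Mats.valHom_apply (M : Mats R ι) (w : Diag) (F : List ι → R) :
    M.valHom w F = M.val w F := by
  induction w with
  | nil => rfl
  | cons p w ih =>
    obtain ⟨k, i⟩ := p
    simp only [Mats.valHom, LinearMap.comp_apply, Mats.val, ih]
    rfl

theorem Mats.act_sum2 (M : Mats R ι) (k : Kind) (i : ℕ) (c : ι → ι → R)
    (F : ι → ι → List ι → R) (l : List ι) :
    M.act k i (fun l' => ∑ a, ∑ b, c a b * F a b l') l = ∑ a, ∑ b, c a b * M.act k i (F a b) l := by
  have h : (fun l' => ∑ a, ∑ b, c a b * F a b l') = ∑ a, ∑ b, c a b • F a b := by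
    funext l'
    simp [Finset.sum_apply]
  have h2 : M.act k i (fun l' => ∑ a, ∑ b, c a b * F a b l') =
      ∑ a, ∑ b, c a b • M.act k i (F a b) := by
    rw [h]
    have h3 : (M.actHom k i) (∑ a, ∑ b, c a b • F a b) =
        ∑ a, ∑ b, c a b • (M.actHom k i) (F a b) := by
      simp only [map_sum, map_smul]
    exact h3
  rw [h2]
  simp [Finset.sum_apply]

theorem Mats.act_mul (M : Mats R ι) (k : Kind) (i : ℕ) (r : R) (F : List ι → R) (l : List ι) :
    M.act k i (fun l' => r * F l') l = r * M.act k i F l := M.act_smul k i r F l

/-! ### The moves -/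

theorem same_far0 (M : Mats R ι) (p q : Kind) (k n : ℕ) :
    Same M (p.ins + k + q.ins + n) [(p, 0), (q, p.outs + k)] [(q, p.ins + k), (p, 0)] := by
  intro F l hl
  simp only [Mats.val, Mats.act]
  cases p with
  | cup =>
    simp only [Kind.ins, Kind.outs] at hl ⊢
    rw [show 0 + k = k by omega, show 2 + k = k + 1 + 1 by omega]
    simp only [Mats.loc, Mats.act]
    rw [M.act_sum2]
  | cap =>
    match l, hl with
    | [], hl => simp only [Kind.ins, List.length_nil] at hl; omega
    | [_], hl => simp only [Kind.ins, List.length_cons, List.length_nil] at hl; omega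
    | x :: y :: l, hl =>
      simp only [Kind.ins, Kind.outs] at hl ⊢
      rw [show 0 + k = k by omega, show 2 + k = k + 1 + 1 by omega]
      simp only [Mats.loc, Mats.act]
      rw [M.act_mul]
  | crs e =>
    match l, hl with
    | [], hl => simp only [Kind.ins, List.length_nil] at hl; omega
    | [_], hl => simp only [Kind.ins, List.length_cons, List.length_nil] at hl; omega
    | x :: y :: l, hl =>
      simp only [Kind.ins, Kind.outs] at hl ⊢
      rw [show 2 + k = k + 1 + 1 by omega]
      simp only [Mats.loc, Mats.act]
      rw [M.act_sum2]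

variable [DecidableEq ι]

theorem same_zigzag {M : Mats R ι} (hM : M.Ok) (n : ℕ) :
    Same M (n + 1) [(.cup, 0), (.cap, 1)] [] := by
  intro F l hl
  match l, hl with
  | x :: l, hl =>
    simp only [Mats.val, Mats.act, Mats.loc]
    have : ∀ a, ∑ b, M.cup a b * (M.cap b x * F (a :: l)) = if a = x then F (x :: l) else 0 := by
      intro a
      simp only [← mul_assoc]
      rw [← Finset.sum_mul, hM.zigzag]
      split_ifs with h
      · rw [h, one_mul]
      · rw [zero_mul]
    simp only [this]
    simp

theorem same_zagzig {M : Mats R ι} (hM : M.Ok) (n : ℕ) :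
    Same M (n + 1) [(.cup, 1), (.cap, 0)] [] := by
  intro F l hl
  match l, hl with
  | x :: l, hl =>
    simp only [Mats.val, Mats.act, Mats.loc]
    rw [Finset.sum_comm]
    have : ∀ b, ∑ a, M.cup a b * (M.cap x a * F (b :: l)) = if b = x then F (x :: l) else 0 := by
      intro b
      simp only [← mul_assoc]
      rw [← Finset.sum_mul, hM.zagzig]
      split_ifs with h
      · rw [h, one_mul]
      · rw [zero_mul]
    simp only [this]
    simp

theorem same_slideCap {M : Mats R ι} (hM : M.Ok) (n : ℕ) (e : Bool) :
    Same M (n + 3) [(.crs e, 1), (.cap, 0)] [(.crs (!e), 0), (.cap, 1)] := by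
  intro F l hl
  match l, hl with
  | x :: y :: z :: l, hl =>
    simp only [Mats.val, Mats.act, Mats.loc]
    rw [Finset.sum_comm]
    refine Finset.sum_congr rfl fun t _ => ?_
    have := hM.slideCap e x y z t
    calc _ = (∑ c, M.X e y z c t * M.cap x c) * F (t :: l) := by
          rw [Finset.sum_mul]; exact Finset.sum_congr rfl fun c _ => by ring
      _ = _ := by
          rw [this, Finset.sum_mul]; exact Finset.sum_congr rfl fun c _ => by ring

theorem same_slideCup {M : Mats R ι} (hM : M.Ok) (n : ℕ) (e : Bool) :
    Same M (n + 1) [(.cup, 0), (.crs e, 1)] [(.cup, 1), (.crs (!e), 0)] := by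
  intro F l hl
  match l, hl with
  | x :: l, hl =>
    simp only [Mats.val, Mats.act, Mats.loc, Finset.mul_sum]
    have h1 : ∑ a, ∑ b, ∑ c, ∑ d, M.cup a b * (M.X e b x c d * F (a :: c :: d :: l)) =
        ∑ a, ∑ c, ∑ d, (∑ b, M.cup a b * M.X e b x c d) * F (a :: c :: d :: l) := by
      refine Finset.sum_congr rfl fun a _ => ?_
      rw [Finset.sum_comm]
      refine Finset.sum_congr rfl fun c _ => ?_
      rw [Finset.sum_comm]
      refine Finset.sum_congr rfl fun d _ => ?_
      rw [Finset.sum_mul]
      exact Finset.sum_congr rfl fun b _ => by ring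
    have h2 : ∑ a, ∑ b, ∑ c, ∑ d, M.cup a b * (M.X (!e) x a c d * F (c :: d :: b :: l)) =
        ∑ c, ∑ d, ∑ b, (∑ a, M.cup a b * M.X (!e) x a c d) * F (c :: d :: b :: l) := by
      calc _ = ∑ b, ∑ a, ∑ c, ∑ d, M.cup a b * (M.X (!e) x a c d * F (c :: d :: b :: l)) :=
            Finset.sum_comm
        _ = ∑ b, ∑ c, ∑ d, (∑ a, M.cup a b * M.X (!e) x a c d) * F (c :: d :: b :: l) := by
            refine Finset.sum_congr rfl fun b _ => ?_
            rw [Finset.sum_comm]
            refine Finset.sum_congr rfl fun c _ => ?_
            rw [Finset.sum_comm]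
            refine Finset.sum_congr rfl fun d _ => ?_
            rw [Finset.sum_mul]
            exact Finset.sum_congr rfl fun b _ => by ring
        _ = _ := by
            rw [Finset.sum_comm]
            exact Finset.sum_congr rfl fun c _ => Finset.sum_comm
    rw [h1, h2]
    refine Finset.sum_congr rfl fun a _ => Finset.sum_congr rfl fun c _ =>
      Finset.sum_congr rfl fun d _ => ?_
    rw [hM.slideCup]

theorem same_r1Cap {M : Mats R ι} (hM : M.Ok) (n : ℕ) (e : Bool) :
    Same M (n + 2) [(.crs e, 0), (.cap, 0)] [(.cap, 0)] := by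
  intro F l hl
  match l, hl with
  | x :: y :: l, hl =>
    simp only [Mats.val, Mats.act, Mats.loc]
    rw [← hM.r1Cap e x y, Finset.sum_mul]
    refine Finset.sum_congr rfl fun a _ => ?_
    rw [Finset.sum_mul]
    exact Finset.sum_congr rfl fun b _ => by ring

theorem same_r1Cup {M : Mats R ι} (hM : M.Ok) (n : ℕ) (e : Bool) :
    Same M n [(.cup, 0), (.crs e, 0)] [(.cup, 0)] := by
  intro F l hl
  simp only [Mats.val, Mats.act, Mats.loc, Finset.mul_sum]
  calc _ = ∑ c, ∑ d, (∑ a, ∑ b, M.cup a b * M.X e a b c d) * F (c :: d :: l) := by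
        have : ∀ a b c d, M.cup a b * (M.X e a b c d * F (c :: d :: l)) =
            M.cup a b * M.X e a b c d * F (c :: d :: l) := fun a b c d => by ring
        simp only [this, Finset.sum_mul]
        rw [Finset.sum_congr rfl fun a _ => Finset.sum_comm]
        rw [Finset.sum_comm]
        refine Finset.sum_congr rfl fun c _ => ?_
        rw [Finset.sum_congr rfl fun a _ => Finset.sum_comm]
        rw [Finset.sum_comm]
    _ = _ := by
        refine Finset.sum_congr rfl fun c _ => Finset.sum_congr rfl fun d _ => ?_
        rw [hM.r1Cup]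

theorem same_r2 {M : Mats R ι} (hM : M.Ok) (n : ℕ) (e : Bool) :
    Same M (n + 2) [(.crs e, 0), (.crs (!e), 0)] [] := by
  intro F l hl
  match l, hl with
  | x :: y :: l, hl =>
    simp only [Mats.val, Mats.act, Mats.loc, Finset.mul_sum]
    calc _ = ∑ p, ∑ q, (∑ c, ∑ d, M.X e x y c d * M.X (!e) c d p q) * F (p :: q :: l) := by
          have : ∀ a b c d, M.X e x y a b * (M.X (!e) a b c d * F (c :: d :: l)) =
              M.X e x y a b * M.X (!e) a b c d * F (c :: d :: l) := fun a b c d => by ring
          simp only [this, Finset.sum_mul]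
          rw [Finset.sum_congr rfl fun a _ => Finset.sum_comm]
          rw [Finset.sum_comm]
          refine Finset.sum_congr rfl fun c _ => ?_
          rw [Finset.sum_congr rfl fun a _ => Finset.sum_comm]
          rw [Finset.sum_comm]
      _ = ∑ p, ∑ q, (if p = x ∧ q = y then 1 else 0) * F (p :: q :: l) := by
          refine Finset.sum_congr rfl fun c _ => Finset.sum_congr rfl fun d _ => ?_
          rw [hM.r2]
      _ = F (x :: y :: l) := by
          rw [Finset.sum_eq_single x, Finset.sum_eq_single y]
          · simp
          · intro b _ hb; simp [hb]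
          · simp
          · intro b _ hb
            refine Finset.sum_eq_zero fun q _ => by simp [hb]
          · simp

omit [DecidableEq ι] in
theorem comm33 (f : ι → ι → ι → ι → ι → ι → R) :
    ∑ a, ∑ b, ∑ c, ∑ p, ∑ q, ∑ r, f a b c p q r = ∑ p, ∑ q, ∑ r, ∑ a, ∑ b, ∑ c, f a b c p q r := by
  have h1 : ∑ a, ∑ b, ∑ c, ∑ p, ∑ q, ∑ r, f a b c p q r =
      ∑ t : ι × ι × ι, ∑ s : ι × ι × ι, f t.1 t.2.1 t.2.2 s.1 s.2.1 s.2.2 := by
    simp [Fintype.sum_prod_type]
  have h2 : ∑ p, ∑ q, ∑ r, ∑ a, ∑ b, ∑ c, f a b c p q r =
      ∑ s : ι × ι × ι, ∑ t : ι × ι × ι, f t.1 t.2.1 t.2.2 s.1 s.2.1 s.2.2 := by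
    simp [Fintype.sum_prod_type]
  rw [h1, h2, Finset.sum_comm]

theorem same_r3 {M : Mats R ι} (hM : M.Ok) (n : ℕ) :
    Same M (n + 3) [(.crs true, 0), (.crs true, 1), (.crs true, 0)]
      [(.crs true, 1), (.crs true, 0), (.crs true, 1)] := by
  intro F l hl
  match l, hl with
  | x :: y :: z :: l, hl =>
    simp only [Mats.val, Mats.act, Mats.loc]
    have h1 : (∑ a, ∑ b, M.X true x y a b * ∑ c, ∑ r, M.X true b z c r *
        ∑ p, ∑ q, M.X true a c p q * F (p :: q :: r :: l)) =
        ∑ p, ∑ q, ∑ r, (∑ a, ∑ b, ∑ c, M.X true x y a b * M.X true b z c r * M.X true a c p q) *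
          F (p :: q :: r :: l) := by
      refine Eq.trans ?_ ((comm33 (fun a b c p q r => M.X true x y a b * M.X true b z c r *
        M.X true a c p q * F (p :: q :: r :: l))).trans (by simp only [Finset.sum_mul]))
      simp only [Finset.mul_sum]
      refine Finset.sum_congr rfl fun a _ => Finset.sum_congr rfl fun b _ =>
        Finset.sum_congr rfl fun c _ => ?_
      rw [Finset.sum_comm]
      refine Finset.sum_congr rfl fun p _ => ?_
      rw [Finset.sum_comm]
      refine Finset.sum_congr rfl fun q _ => Finset.sum_congr rfl fun r _ => by ring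
    have h2 : (∑ a, ∑ b, M.X true y z a b * ∑ p, ∑ c, M.X true x a p c *
        ∑ q, ∑ r, M.X true c b q r * F (p :: q :: r :: l)) =
        ∑ p, ∑ q, ∑ r, (∑ a, ∑ b, ∑ c, M.X true y z a b * M.X true x a p c * M.X true c b q r) *
          F (p :: q :: r :: l) := by
      refine Eq.trans ?_ ((comm33 (fun a b c p q r => M.X true y z a b * M.X true x a p c *
        M.X true c b q r * F (p :: q :: r :: l))).trans (by simp only [Finset.sum_mul]))
      simp only [Finset.mul_sum]
      refine Finset.sum_congr rfl fun a _ => Finset.sum_congr rfl fun b _ => ?_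
      rw [Finset.sum_comm]
      refine Finset.sum_congr rfl fun c _ => Finset.sum_congr rfl fun p _ =>
        Finset.sum_congr rfl fun q _ => Finset.sum_congr rfl fun r _ => by ring
    rw [h1, h2]
    refine Finset.sum_congr rfl fun p _ => Finset.sum_congr rfl fun q _ =>
      Finset.sum_congr rfl fun r _ => ?_
    rw [hM.r3]

/-- The moves at any place. -/
theorem same_of_move {M : Mats R ι} (hM : M.Ok) {a b : Diag} (h : Move a b) {n m m' : ℕ}
    (ha : cnt n a = some m) (hb : cnt n b = some m') : Same M n a b := by
  have hsh : ∀ (a b : Diag) (n₀ : ℕ), (∀ n, Same M (n + n₀) a b) →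
      ∀ i n, Same M (n + n₀ + i) (a.map fun p => (p.1, p.2 + i)) (b.map fun p => (p.1, p.2 + i)) := by
    intro a b n₀ h0 i
    induction i with
    | zero => intro n; simpa using h0 n
    | succ i ih =>
      intro n
      have := (ih n).sh
      simp only [shD, List.map_map, Function.comp_def] at this
      exact this
  have key : ∀ (a b : Diag) (n₀ i N : ℕ), (∀ n, Same M (n + n₀) a b) → n₀ + i ≤ N →
      Same M N (a.map fun p => (p.1, p.2 + i)) (b.map fun p => (p.1, p.2 + i)) := by
    intro a b n₀ i N h0 hN
    have := hsh a b n₀ h0 i (N - n₀ - i)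
    rwa [show N - n₀ - i + n₀ + i = N by omega] at this
  cases h with
  | far p q i k =>
    have hn : i + (p.ins + k + q.ins) ≤ n := by
      simp only [cnt] at hb
      split_ifs at hb with h1
      omega
    have := key _ _ (p.ins + k + q.ins) i n
      (fun n => by rw [Nat.add_comm]; exact same_far0 M p q k n) (by omega)
    simp only [List.map_cons, List.map_nil] at this
    rw [show 0 + i = i by omega, show p.outs + k + i = i + p.outs + k by omega,
      show p.ins + k + i = i + p.ins + k by omega] at this
    exact this
  | zigzag i =>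
    have hn : i + 1 ≤ n := by
      simp only [cnt, Kind.ins, Kind.outs] at ha
      split_ifs at ha with h1 h2
      omega
    have := key _ _ 1 i n (same_zigzag hM) (by omega)
    simp only [List.map_cons, List.map_nil] at this
    rw [show 0 + i = i by omega, show 1 + i = i + 1 by omega] at this
    exact this
  | zagzig i =>
    have hn : i + 1 ≤ n := by
      simp only [cnt, Kind.ins, Kind.outs] at ha
      split_ifs at ha with h1 h2
      omega
    have := key _ _ 1 i n (same_zagzig hM) (by omega)
    simp only [List.map_cons, List.map_nil] at this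
    rw [show 0 + i = i by omega, show 1 + i = i + 1 by omega] at this
    exact this
  | slideCap i e =>
    have hn : i + 3 ≤ n := by
      simp only [cnt, Kind.ins, Kind.outs] at ha
      split_ifs at ha with h1 h2
      omega
    have := key _ _ 3 i n (fun n => same_slideCap hM n e) (by omega)
    simp only [List.map_cons, List.map_nil] at this
    rw [show 0 + i = i by omega, show 1 + i = i + 1 by omega] at this
    exact this
  | slideCup i e =>
    have hn : i + 1 ≤ n := by
      simp only [cnt, Kind.ins, Kind.outs] at ha
      split_ifs at ha with h1 h2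
      omega
    have := key _ _ 1 i n (fun n => same_slideCup hM n e) (by omega)
    simp only [List.map_cons, List.map_nil] at this
    rw [show 0 + i = i by omega, show 1 + i = i + 1 by omega] at this
    exact this
  | r1Cap i e =>
    have hn : i + 2 ≤ n := by
      simp only [cnt, Kind.ins, Kind.outs] at ha
      split_ifs at ha with h1 h2
      omega
    have := key _ _ 2 i n (fun n => same_r1Cap hM n e) (by omega)
    simp only [List.map_cons, List.map_nil] at this
    rw [show 0 + i = i by omega] at this
    exact this
  | r1Cup i e =>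
    have hn : i ≤ n := by
      simp only [cnt, Kind.ins, Kind.outs] at ha
      split_ifs at ha with h1 h2
      omega
    have := key _ _ 0 i n (fun n => same_r1Cup hM n e) (by omega)
    simp only [List.map_cons, List.map_nil] at this
    rw [show 0 + i = i by omega] at this
    exact this
  | r2 i e =>
    have hn : i + 2 ≤ n := by
      simp only [cnt, Kind.ins, Kind.outs] at ha
      split_ifs at ha with h1 h2
      omega
    have := key _ _ 2 i n (fun n => same_r2 hM n e) (by omega)
    simp only [List.map_cons, List.map_nil] at this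
    rw [show 0 + i = i by omega] at this
    exact this
  | r3 i =>
    have hn : i + 3 ≤ n := by
      simp only [cnt, Kind.ins, Kind.outs] at ha
      split_ifs at ha with h1 h2 h3
      omega
    have := key _ _ 3 i n (same_r3 hM) (by omega)
    simp only [List.map_cons, List.map_nil] at this
    rw [show 0 + i = i by omega, show 1 + i = i + 1 by omega] at this
    exact this

/-- The state sum is invariant. -/
theorem Mats.val_moveIn {M : Mats R ι} (hM : M.Ok) {x y : {w : Diag // IsLongKnot w}}
    (h : MoveIn x y) (F : List ι → R) (a : ι) : M.val x.1 F [a] = M.val y.1 F [a] := by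
  obtain ⟨u, c, d, v, hcd, hx, hy⟩ := h
  obtain ⟨labx, cx, hrx⟩ := x.2
  obtain ⟨laby, cy, hry⟩ := y.2
  have h1 := run_cnt _ _ _ hrx
  have h2 := run_cnt _ _ _ hry
  rw [hx] at h1
  rw [hy] at h2
  simp only [List.append_assoc, cnt_append] at h1 h2
  cases hu : cnt 1 u with
  | none => rw [hu] at h1; simp at h1
  | some n =>
    rw [hu] at h1 h2
    simp only [Option.bind_some] at h1 h2
    cases hc : cnt n c with
    | none => rw [hc] at h1; simp at h1
    | some m =>
      cases hd : cnt n d with
      | none => rw [hd] at h2; simp at h2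
      | some m' =>
        rw [hx, hy, List.append_assoc, List.append_assoc, M.val_append u, M.val_append u,
          M.val_append c, M.val_append d]
        exact M.val_congr u hu (same_of_move hM hcd hc hd _) [a] rfl

/-- The knot invariant with values in the ring. -/
noncomputable def Mats.inv (M : Mats R ι) (hM : M.Ok) (F : List ι → R) (a : ι) : Knot → R :=
  Quot.lift (fun x => M.val x.1 F [a]) fun _ _ h => M.val_moveIn hM h F a

theorem Mats.inv_ofDiag (M : Mats R ι) (hM : M.Ok) (F : List ι → R) (a : ι) (w : Diag)
    (h : IsLongKnot w) : M.inv hM F a (ofDiag w h) = M.val w F [a] := rfl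

/-! ### Finite type -/

omit [DecidableEq ι] in
theorem Mats.act_diff (M : Mats R ι) (h : R) (z : ι → ι → ι → ι → R)
    (hz : ∀ x y c d, M.X true x y c d - M.X false x y c d = h * z x y c d) :
    ∀ (i : ℕ) (F : List ι → R) (l : List ι),
      M.act (.crs true) i F l - M.act (.crs false) i F l =
        h * (Mats.mk M.cup M.cap (fun _ => z)).act (.crs true) i F l := by
  intro i
  induction i with
  | zero =>
    intro F l
    match l with
    | [] => simp [Mats.act, Mats.loc]
    | [_] => simp [Mats.act, Mats.loc]
    | x :: y :: l =>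
      simp only [Mats.act, Mats.loc, Finset.mul_sum, ← Finset.sum_sub_distrib, ← sub_mul, hz,
        mul_assoc]
  | succ i ih =>
    intro F l
    match l with
    | [] => simp [Mats.act]
    | x :: l => simp only [Mats.act]; exact ih _ l

omit [DecidableEq ι] in
theorem Mats.dvd_resolve (M : Mats R ι) (h : R)
    (hX : ∀ x y c d, h ∣ M.X true x y c d - M.X false x y c d) (F : List ι → R) :
    ∀ (s : SDiag) (Φ : (List ι → R) →ₗ[R] R),
      h ^ dbl s ∣ resolve (fun w => Φ (M.val w F)) s := by
  choose z hz using hX
  intro s
  induction s with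
  | nil => intro Φ; simp [dbl]
  | cons p s ih =>
    intro Φ
    match p with
    | Sum.inl (k, i) =>
      simp only [dbl, resolve]
      exact ih (Φ.comp (M.actHom k i))
    | Sum.inr i =>
      simp only [dbl, resolve]
      have h1 := resolve_sub s (fun w => Φ (M.val ((.crs true, i) :: w) F))
        (fun w => Φ (M.val ((.crs false, i) :: w) F))
      have h2 : (fun w => Φ (M.val ((.crs true, i) :: w) F) -
          Φ (M.val ((.crs false, i) :: w) F)) = fun w => (AddMonoidHom.mulLeft h)
            ((Φ.comp ((Mats.mk M.cup M.cap (fun _ => z)).actHom (.crs true) i)) (M.val w F)) := by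
        funext w
        rw [← map_sub]
        have h3 : M.val ((.crs true, i) :: w) F - M.val ((.crs false, i) :: w) F =
            h • (Mats.mk M.cup M.cap (fun _ => z)).actHom (.crs true) i (M.val w F) := by
          funext l
          exact M.act_diff h z hz i (M.val w F) l
        rw [h3, map_smul]
        rfl
      rw [h2] at h1
      rw [← h1, resolve_map]
      rw [pow_succ']
      exact mul_dvd_mul_left h (ih _)

/-- Forgetting the type of the crossings. -/
def flat : Diag → Diag
  | [] => []
  | (.crs _, i) :: w => (.crs true, i) :: flat w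
  | (.cup, i) :: w => (.cup, i) :: flat w
  | (.cap, i) :: w => (.cap, i) :: flat w

/-- The underlying diagram of a singular diagram. -/
def sflat : SDiag → Diag
  | [] => []
  | Sum.inl (.crs _, i) :: s => (.crs true, i) :: sflat s
  | Sum.inl (.cup, i) :: s => (.cup, i) :: sflat s
  | Sum.inl (.cap, i) :: s => (.cap, i) :: sflat s
  | Sum.inr i :: s => (.crs true, i) :: sflat s

theorem run_flat (w : Diag) : ∀ s : State, run (flat w) s = run w s := by
  induction w with
  | nil => intro s; rfl
  | cons p w ih =>
    intro s
    obtain ⟨k, i⟩ := p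
    have hstep : ∀ e : Bool, step (.crs true, i) s = step (.crs e, i) s := by
      intro e; obtain ⟨n, lab, c⟩ := s; rfl
    cases k with
    | cup => simp only [flat, run]; cases step (.cup, i) s <;> simp [ih]
    | cap => simp only [flat, run]; cases step (.cap, i) s <;> simp [ih]
    | crs e => simp only [flat, run, hstep e]; cases step (.crs e, i) s <;> simp [ih]

theorem isLongKnot_flat (w : Diag) : IsLongKnot (flat w) ↔ IsLongKnot w := by
  unfold IsLongKnot
  simp only [run_flat]

theorem resolve_congr {A : Type*} [AddCommGroup A] : ∀ (s : SDiag) (f g : Diag → A),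
    (∀ w, flat w = sflat s → f w = g w) → resolve f s = resolve g s := by
  intro s
  induction s with
  | nil => intro f g h; exact h [] rfl
  | cons p s ih =>
    intro f g h
    match p with
    | Sum.inl (k, i) =>
      simp only [resolve]
      refine ih _ _ fun w hw => h _ ?_
      cases k <;> simp [flat, sflat, hw]
    | Sum.inr i =>
      simp only [resolve]
      rw [ih _ (fun w => g ((.crs true, i) :: w)) fun w hw => h _ (by simp [flat, sflat, hw]),
        ih _ (fun w => g ((.crs false, i) :: w)) fun w hw => h _ (by simp [flat, sflat, hw])]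

theorem resolve_zero {A : Type*} [AddCommGroup A] : ∀ (s : SDiag),
    resolve (fun _ : Diag => (0 : A)) s = 0 := by
  intro s
  induction s with
  | nil => rfl
  | cons p s ih =>
    match p with
    | Sum.inl p => exact ih
    | Sum.inr i => simp only [resolve, ih, sub_zero]

/-- If the two crossings are congruent modulo `h` and `φ` kills the multiples of `h ^ (k + 1)`,
the image of the state sum under `φ` is a finite type invariant of order at most `k`. -/
theorem Mats.hasOrderLE (M : Mats R ι) (hM : M.Ok) (h : R)
    (hX : ∀ x y c d, h ∣ M.X true x y c d - M.X false x y c d) (F : List ι → R) (a : ι)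
    {A : Type*} [AddCommGroup A] (φ : R →+ A) (k : ℕ) (hφ : ∀ r, φ (h ^ (k + 1) * r) = 0) :
    HasOrderLE (fun K => φ (M.inv hM F a K)) k := by
  intro s hs
  by_cases hL : IsLongKnot (sflat s)
  · rw [resolve_congr s _ (fun w => φ (M.val w F [a]))]
    · have h1 := M.dvd_resolve h hX F s
        { toFun := fun G => G [a], map_add' := fun _ _ => rfl, map_smul' := fun _ _ => rfl }
      obtain ⟨r, hr⟩ := h1
      have h2 := resolve_map φ s (fun w => M.val w F [a])
      simp only [LinearMap.coe_mk, AddHom.coe_mk] at hr
      rw [h2, hr, hs]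
      exact hφ r
    · intro w hw
      have hw' : IsLongKnot w := by rw [← isLongKnot_flat, hw]; exact hL
      rw [onDiags_of hw']
      rfl
  · rw [resolve_congr s _ (fun _ => (0 : A))]
    · exact resolve_zero s
    · intro w hw
      have hw' : ¬ IsLongKnot w := by rw [← isLongKnot_flat, hw]; exact hL
      rw [onDiags_of_not hw']

end Pool.Agent.TwoBr
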