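import Pool.Agent.TwoBr.OneMin
import Pool.Agent.TB.Stmts2
import Pool.Agent.LibH11.SlicedFinite

/-!
Conclusion: from the words to the knots. Rational finite type invariants separate the 2-bridge
knots, and for every number of twist regions a single one suffices.
-/

namespace Pool.Agent.TwoBr

open Pool.Agent.LibH11.Sliced Pool.Agent.TB

/-- Normal form (module of helper76). -/
def NF_Stmt : Prop :=
  ∀ w : List (Fin 2 × Bool), IsLongKnot (KW w) →
    ∃ x : List ℤ, Even x.length ∧ (∀ a ∈ x, a ≠ 0) ∧ EqD 1 (KW w) (kdiag x)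

/-- Reversal (module of helper76). -/
def RV_Stmt : Prop := ∀ x : List ℤ, Even x.length → EqD 1 (kdiag x) (kdiag x.reverse)

/-- If the rational valued finite type invariants agree, so do the complex valued ones. -/
theorem complex_of_rat {K K' : Knot} (h : ∀ v : Knot → ℚ, IsFiniteType v → v K = v K')
    (v : Knot → ℂ) (hv : IsFiniteType v) : v K = v K' := by
  by_contra hne
  obtain ⟨φ, hφ⟩ := exists_hom_rat (x := v K - v K') (fun m hm => by
    rw [nsmul_eq_mul]
    exact mul_ne_zero (by exact_mod_cast hm.ne') (sub_ne_zero.mpr hne))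
  apply hφ
  rw [map_sub, sub_eq_zero]
  exact h _ (hv.map φ)

/-- The knot has a long diagram with at most one minimum. -/
def TwoBridge (K : Knot) : Prop := ∃ (w : Diag) (h : IsLongKnot w), minima w ≤ 1 ∧ K = ofDiag w h

theorem TwoBridge.exists_word (hnf : NF_Stmt) (hklk : KLK_Stmt) {K : Knot} (h : TwoBridge K) :
    ∃ x : List ℤ, Even x.length ∧ (∀ a ∈ x, a ≠ 0) ∧ K = ofDiag (kdiag x) (hklk x) := by
  obtain ⟨w, hw, hm, rfl⟩ := h
  obtain ⟨u, hu, he⟩ := knot_one_min hw hm
  obtain ⟨x, hx1, hx2, hx3⟩ := hnf u hu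
  exact ⟨x, hx1, hx2, he.trans (hx3.knot hu)⟩

/-- Rational valued finite type invariants separate the 2-bridge knots. -/
theorem separation (hfin : FIN_Stmt) (hklk : KLK_Stmt) (hnf : NF_Stmt) (hrv : RV_Stmt)
    {K K' : Knot} (hK : TwoBridge K) (hK' : TwoBridge K')
    (h : ∀ v : Knot → ℚ, IsFiniteType v → v K = v K') : K = K' := by
  obtain ⟨x, hx1, hx2, rfl⟩ := hK.exists_word hnf hklk
  obtain ⟨y, hy1, hy2, rfl⟩ := hK'.exists_word hnf hklk
  rcases hfin x y (hklk x) (hklk y) hx1 hy1 hx2 hy2 (complex_of_rat h) with rfl | rfl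
  · rfl
  · exact (hrv x hx1).knot (hklk x)

/-- The knots of two words agree iff the words agree up to reversal. -/
theorem classification (hfin : FIN_Stmt) (hklk : KLK_Stmt) (hrv : RV_Stmt) {x y : List ℤ}
    (hx : Even x.length) (hy : Even y.length) (hx0 : ∀ a ∈ x, a ≠ 0) (hy0 : ∀ a ∈ y, a ≠ 0) :
    ofDiag (kdiag x) (hklk x) = ofDiag (kdiag y) (hklk y) ↔ y = x ∨ y = x.reverse := by
  constructor
  · intro h
    exact hfin x y (hklk x) (hklk y) hx hy hx0 hy0 fun v _ => by rw [h]
  · rintro (rfl | rfl)
    · rfl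
    · exact (hrv x hx).knot (hklk x)

/-! ### Blocks -/

/-- The blocks of the twist regions. -/
def tblocks : ℕ → List ℤ → List Block
  | _, [] => []
  | p, a :: l => .pow [(p, true)] (2 * a) :: tblocks (1 - p) l

theorem toDiag_tw (p : ℕ) (a : ℤ) : (Block.pow [(p, true)] (2 * a)).toDiag = tw p a := by
  have hrep : ∀ (m : ℕ) (e : Bool), braidWord (List.replicate m [(p, e)]).flatten =
      List.replicate m (Kind.crs e, p) := by
    intro m e
    induction m with
    | zero => rfl
    | succ m ih =>
      rw [List.replicate_succ, List.flatten_cons, List.replicate_succ]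
      simp only [braidWord, List.cons_append, List.nil_append, List.map_cons] at ih ⊢
      rw [ih]
  rcases lt_trichotomy a 0 with h | h | h
  · obtain ⟨m, hm⟩ : ∃ m : ℕ, 2 * a = Int.negSucc m := by
      refine ⟨2 * a.natAbs - 1, ?_⟩
      rw [Int.negSucc_eq]
      omega
    rw [hm]
    show braidWord (List.replicate (m + 1) (invWord [(p, true)])).flatten = _
    have h1 : invWord [(p, true)] = [(p, false)] := rfl
    rw [h1, hrep]
    unfold tw
    have h2 : m + 1 = 2 * a.natAbs := by
      rw [Int.negSucc_eq] at hm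
      omega
    have h3 : decide (0 < a) = false := by simp only [decide_eq_false_iff_not]; omega
    rw [h2, h3]
  · subst h
    rfl
  · obtain ⟨m, hm⟩ : ∃ m : ℕ, 2 * a = Int.ofNat m := by
      refine ⟨2 * a.natAbs, ?_⟩
      simp only [Int.ofNat_eq_natCast]
      omega
    rw [hm]
    show braidWord (List.replicate m [(p, true)]).flatten = _
    rw [hrep]
    unfold tw
    have h2 : m = 2 * a.natAbs := by
      simp only [Int.ofNat_eq_natCast] at hm
      omega
    have h3 : decide (0 < a) = true := by simp only [decide_eq_true_eq]; exact h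
    rw [h2, h3]

theorem tblocks_diag : ∀ (x : List ℤ) (p : ℕ),
    ((tblocks p x).map Block.toDiag).flatten = twd p x := by
  intro x
  induction x with
  | nil => intro p; rfl
  | cons a x ih =>
    intro p
    simp only [tblocks, List.map_cons, List.flatten_cons, twd, toDiag_tw, ih]

theorem tblocks_length : ∀ (x : List ℤ) (p : ℕ), (tblocks p x).length = x.length := by
  intro x
  induction x with
  | nil => intro p; rfl
  | cons a x ih => intro p; simp [tblocks, ih]

theorem tblocks_size : ∀ (x : List ℤ) (p : ℕ), ∀ b ∈ tblocks p x, b.SizeLE 1 := by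
  intro x
  induction x with
  | nil => intro p b hb; simp [tblocks] at hb
  | cons a x ih =>
    intro p b hb
    simp only [tblocks, List.mem_cons] at hb
    rcases hb with rfl | hb
    · simp [Block.SizeLE]
    · exact ih _ b hb

theorem sizeLE_mono {L L' : ℕ} (h : L ≤ L') {b : Block} (hb : b.SizeLE L) : b.SizeLE L' := by
  cases b with
  | cup _ => trivial
  | cap _ => trivial
  | pow u _ => exact le_trans hb h

theorem builtFrom_kdiag {n : ℕ} (x : List ℤ) (hx : x.length ≤ n) (h : IsLongKnot (kdiag x)) :
    BuiltFrom (n + 2) (ofDiag (kdiag x) h) := by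
  have e : ((Block.cup 1 :: (tblocks 0 x ++ [Block.cap 0])).map Block.toDiag).flatten = kdiag x := by
    simp only [List.map_cons, List.map_append, List.map_nil, List.flatten_cons,
      List.flatten_append, List.flatten_nil, List.append_nil, tblocks_diag, Block.toDiag]
    rfl
  refine ⟨Block.cup 1 :: (tblocks 0 x ++ [Block.cap 0]), by rw [e]; exact h, ?_, ?_, ?_⟩
  · simp only [List.length_cons, List.length_append, tblocks_length, List.length_nil]
    omega
  · intro b hb
    simp only [List.mem_cons, List.mem_append, List.not_mem_nil, or_false] at hb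
    rcases hb with rfl | hb | rfl
    · trivial
    · exact sizeLE_mono (by omega) (tblocks_size x 0 b hb)
    · trivial
  · congr 1
    exact e.symm

/-- For every `n` a single rational valued finite type invariant distinguishes all the knots of
words of length at most `n`. -/
theorem one_invariant (hfin : FIN_Stmt) (hklk : KLK_Stmt) (hrv : RV_Stmt) (n : ℕ) :
    ∃ v : Knot → ℚ, IsFiniteType v ∧ ∀ x y : List ℤ, x.length ≤ n → y.length ≤ n →
      Even x.length → Even y.length → (∀ a ∈ x, a ≠ 0) → (∀ a ∈ y, a ≠ 0) →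
      (v (ofDiag (kdiag x) (hklk x)) = v (ofDiag (kdiag y) (hklk y)) ↔ y = x ∨ y = x.reverse) := by
  obtain ⟨w, hw1, hw2⟩ := finite_determinacy (n + 2)
  refine ⟨w, hw1, fun x y hxn hyn hx hy hx0 hy0 => ?_⟩
  rw [← classification hfin hklk hrv hx hy hx0 hy0]
  constructor
  · intro h
    have h1 := (hw2 _ _ (builtFrom_kdiag x hxn (hklk x)) (builtFrom_kdiag y hyn (hklk y))).1 h
    have h2 : ∀ v : Knot → ℂ, IsFiniteType v →
        v (ofDiag (kdiag x) (hklk x)) = v (ofDiag (kdiag y) (hklk y)) := by
      intro v hv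
      obtain ⟨m, hm, h3⟩ := h1 ℂ v hv
      rw [nsmul_eq_mul, nsmul_eq_mul] at h3
      exact mul_left_cancel₀ (by exact_mod_cast hm.ne') h3
    exact (classification hfin hklk hrv hx hy hx0 hy0).2
      (hfin x y (hklk x) (hklk y) hx hy hx0 hy0 h2)
  · intro h
    rw [h]

end Pool.Agent.TwoBr
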