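import Pool.Agent.TwoBr.BrEq
import Pool.Agent.TB.Defs

/-!
2-bridge knots are invertible: the long diagrams of a word and of the reversed word are equivalent.
-/

namespace Pool.Agent.TwoBr

open Pool.Agent.LibH11 Pool.Agent.LibH11.Sliced

/-- The long 2-bridge diagram of a word in the two crossings of three strands. -/
def KW (w : List (Fin 2 × Bool)) : Diag := (.cup, 1) :: (bw w ++ ([(.cap, 0)] : List (Kind × ℕ)))

/-- The rotated word. -/
def rho (w : List (Fin 2 × Bool)) : List (Fin 2 × Bool) := (w.map fun p => (p.1 + 1, p.2)).reverse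

theorem rho_cons (p : Fin 2 × Bool) (w : List (Fin 2 × Bool)) :
    rho (p :: w) = rho w ++ [(p.1 + 1, p.2)] := by simp [rho]

theorem rho_append (u v : List (Fin 2 × Bool)) : rho (u ++ v) = rho v ++ rho u := by simp [rho]

/-- three nested maxima -/
def R3 : Diag := ([(.cap, 2), (.cap, 1), (.cap, 0)] : List (Kind × ℕ))

theorem rainbow_one (p : Fin 2 × Bool) : EqD 6 (bw [p] ++ R3) (sh 3 (bw [(p.1 + 1, p.2)]) ++ R3) := by
  obtain ⟨i, e⟩ := p
  fin_cases i <;> cases e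
  · exact rb_0m
  · exact rb_0p
  · exact rb_1m
  · exact rb_1p

theorem cnt_bw2 (w : List (Fin 2 × Bool)) (k : ℕ) : cnt (3 + k) (bw w) = some (3 + k) :=
  cnt_widen k _ _ _ (cnt_bw w)

theorem cnt_shbw2 (w : List (Fin 2 × Bool)) (l k : ℕ) :
    cnt (3 + l + k) (sh l (bw w)) = some (3 + l + k) := by
  refine cnt_widen k _ _ _ ?_
  rw [cnt_sh, cnt_bw]
  rfl

/-- crossings slide along nested maxima -/
theorem rainbow (w : List (Fin 2 × Bool)) :
    EqD 6 (bw w ++ R3) (sh 3 (bw (rho w)) ++ R3) := by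
  induction w with
  | nil => exact EqD.refl _
  | cons p w ih =>
    have h1 : EqD 6 (bw [p] ++ (bw w ++ R3)) (bw [p] ++ (sh 3 (bw (rho w)) ++ R3)) :=
      ih.left _ (cnt_bw2 [p] 3)
    have h2 : EqD 6 (bw [p] ++ sh 3 (bw (rho w))) (sh 3 (bw (rho w)) ++ bw [p]) :=
      far_words (bw [p]) (bw (rho w)) 3 3 3 (cnt_bw [p]) (by rw [cnt_bw]; simp)
    have h3 := h2.right R3 (by
      rw [List.append_assoc, cnt_app (cnt_bw2 [p] 3), cnt_app (cnt_shbw2 (rho w) 3 0)]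
      decide)
    have h4 : EqD 6 (sh 3 (bw (rho w)) ++ (bw [p] ++ R3))
        (sh 3 (bw (rho w)) ++ (sh 3 (bw [(p.1 + 1, p.2)]) ++ R3)) :=
      (rainbow_one p).left _ (cnt_shbw2 (rho w) 3 0)
    rw [rho_cons, bw_append, sh_append, List.append_assoc]
    rw [List.append_assoc, List.append_assoc] at h3
    exact (h1.trans h3).trans h4

/-- The arc. -/
def DD (w : List (Fin 2 × Bool)) : Diag := C2 ++ (sh 1 (bw w) ++ ([(.cap, 1)] : List (Kind × ℕ)))

theorem DD_eq (w : List (Fin 2 × Bool)) : DD w = (.cup, 0) :: sh 1 (KW w) := by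
  simp [DD, C2, KW, sh_append]

theorem cnt_DD (w : List (Fin 2 × Bool)) : cnt 0 (DD w) = some 2 := by
  rw [DD, cnt_app cnt_C2, cnt_app (cnt_shbw2 w 1 0)]
  rfl

theorem cnt_KW (w : List (Fin 2 × Bool)) : cnt 1 (KW w) = some 1 := by
  show cnt 3 (bw w ++ ([(.cap, 0)] : List (Kind × ℕ))) = some 1
  rw [cnt_app (cnt_bw w)]
  rfl

/-- Closing the arc on the right gives the rotated diagram. -/
theorem partB (w : List (Fin 2 × Bool)) : EqD 1 (DD w ++ ([(.cap, 1)] : List (Kind × ℕ))) (KW (rho w)) := by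
  -- step 1
  have h1 : EqD 5 ([(.cap, 1), (.cap, 1)] : List (Kind × ℕ)) (([(.cup, 5)] : List (Kind × ℕ)) ++ sh 1 R3) := rb_cap.sh 1
  have c1 : cnt 1 (C2 ++ sh 1 (bw w)) = some 5 := by
    rw [cnt_app (cnt_widen 1 _ _ _ cnt_C2)]
    exact cnt_shbw2 w 1 1
  have s1 := h1.left _ c1
  -- step 2
  have h2 : EqD 5 (sh 1 (bw w) ++ ([(.cup, 5)] : List (Kind × ℕ))) (([(.cup, 5)] : List (Kind × ℕ)) ++ sh 1 (bw w)) := by
    have := (far_words (bw w) ([(.cup, 1)] : List (Kind × ℕ)) 3 3 1 (cnt_bw w) (by decide)).sh 1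
    simpa [sh_append] using this
  have c2 : cnt 1 C2 = some 5 := cnt_widen 1 _ _ _ cnt_C2
  have s2 := h2.ctx C2 (sh 1 R3) c2 (by
    rw [List.append_assoc, cnt_app c2, List.append_assoc, cnt_app (cnt_shbw2 w 1 1)]
    decide)
  -- step 3
  have h3 : EqD 7 (sh 1 (bw w ++ R3)) (sh 1 (sh 3 (bw (rho w)) ++ R3)) := (rainbow w).sh 1
  have c3 : cnt 1 (C2 ++ ([(.cup, 5)] : List (Kind × ℕ))) = some 7 := by decide
  have s3 := h3.left _ c3
  -- step 4
  have c4 : cnt 1 ((.cup, 1) :: bw (rho w)) = some 3 := cnt_bw (rho w)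
  have h4 : EqD 1 (C2 ++ sh 4 ((.cup, 1) :: bw (rho w))) (sh 0 ((.cup, 1) :: bw (rho w)) ++ C2) :=
    far_words C2 _ 0 4 1 cnt_C2 (by rw [c4]; simp)
  rw [sh_zero] at h4
  have s4 := h4.right (sh 1 R3) (by
    have := h4.cnt_eq
    rw [cnt_append, this, cnt_app c4]
    decide)
  -- step 5
  have s5 := rb_end.left _ c4
  have e0 : DD w ++ ([(.cap, 1)] : List (Kind × ℕ)) = C2 ++ sh 1 (bw w) ++ ([(.cap, 1), (.cap, 1)] : List (Kind × ℕ)) := by
    simp [DD]
  have e1 : C2 ++ sh 1 (bw w) ++ (([(.cup, 5)] : List (Kind × ℕ)) ++ sh 1 R3) =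
      C2 ++ (sh 1 (bw w) ++ ([(.cup, 5)] : List (Kind × ℕ))) ++ sh 1 R3 := by simp
  have e2 : C2 ++ (([(.cup, 5)] : List (Kind × ℕ)) ++ sh 1 (bw w)) ++ sh 1 R3 =
      C2 ++ ([(.cup, 5)] : List (Kind × ℕ)) ++ sh 1 (bw w ++ R3) := by simp [sh_append]
  have e3 : C2 ++ ([(.cup, 5)] : List (Kind × ℕ)) ++ sh 1 (sh 3 (bw (rho w)) ++ R3) =
      C2 ++ sh 4 ((.cup, 1) :: bw (rho w)) ++ sh 1 R3 := by
    simp [sh_append, sh_sh]
  have e4 : (.cup, 1) :: bw (rho w) ++ C2 ++ sh 1 R3 =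
      (.cup, 1) :: bw (rho w) ++ ([(.cup, 0), (.cup, 2), (.cap, 3), (.cap, 2), (.cap, 1)] : List (Kind × ℕ)) := by
    simp [C2, R3]
  have e5 : (.cup, 1) :: bw (rho w) ++ ([(.cap, 0)] : List (Kind × ℕ)) = KW (rho w) := by simp [KW]
  rw [e0]
  rw [e1] at s1
  rw [e2] at s2
  rw [e3] at s3
  rw [e4] at s4
  rw [e5] at s5
  exact (((s1.trans s2).trans s3).trans s4).trans s5

/-- the strand passing over all others -/
def X4 : Diag := ([(.crs true, 0), (.crs true, 1), (.crs true, 2), (.crs true, 3)] : List (Kind × ℕ))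

theorem nat_one (p : Fin 2 × Bool) : EqD 5 (sh 2 (bw [p]) ++ X4) (X4 ++ sh 1 (bw [p])) := by
  obtain ⟨i, e⟩ := p
  fin_cases i <;> cases e
  · exact nat_1m
  · exact nat_1p
  · exact nat_2m
  · exact nat_2p

theorem nat_word (w : List (Fin 2 × Bool)) :
    EqD 5 (sh 2 (bw w) ++ X4) (X4 ++ sh 1 (bw w)) := by
  induction w with
  | nil => exact EqD.refl _
  | cons p w ih =>
    have h1 := ih.left (sh 2 (bw [p])) (cnt_shbw2 [p] 2 0)
    have h2 := (nat_one p).right (sh 1 (bw w)) (by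
      rw [List.append_assoc, cnt_app (cnt_shbw2 [p] 2 0), cnt_app (show cnt 5 X4 = some 5 from rfl)]
      rw [show (5 : ℕ) = 3 + 1 + 1 from rfl, cnt_shbw2 w 1 1]
      simp)
    rw [List.append_assoc, List.append_assoc] at h2
    exact h1.trans h2

theorem partN (w : List (Fin 2 × Bool)) :
    EqD 1 (sh 1 (DD w) ++ ([(.crs true, 0), (.crs true, 1)] : List (Kind × ℕ))) (DD w) := by
  have c0 : cnt 1 (sh 1 C2) = some 5 := rfl
  have c1 : cnt 1 (sh 1 C2 ++ sh 2 (bw w)) = some 5 := by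
    rw [cnt_app c0]
    exact cnt_shbw2 w 2 0
  have s1 : EqD 1 (sh 1 C2 ++ sh 2 (bw w) ++ ([(.cap, 2), (.crs true, 0), (.crs true, 1)] : List (Kind × ℕ)))
      (sh 1 C2 ++ sh 2 (bw w) ++ (X4 ++ ([(.cap, 1)] : List (Kind × ℕ)))) := nat_cap.left _ c1
  have s2 : EqD 1 (sh 1 C2 ++ (sh 2 (bw w) ++ X4) ++ ([(.cap, 1)] : List (Kind × ℕ)))
      (sh 1 C2 ++ (X4 ++ sh 1 (bw w)) ++ ([(.cap, 1)] : List (Kind × ℕ))) :=
    (nat_word w).ctx (sh 1 C2) ([(.cap, 1)] : List (Kind × ℕ)) c0 (by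
      rw [List.append_assoc, cnt_app c0, List.append_assoc, cnt_app (cnt_shbw2 w 2 0)]
      decide)
  have s3 : EqD 1 (([(.cup, 1)] : List (Kind × ℕ)) ++ ((.cup, 3) :: X4)) (([(.cup, 1)] : List (Kind × ℕ)) ++
      ([(.crs true, 0), (.crs true, 1), (.cup, 2)] : List (Kind × ℕ))) := nat_cup2.left ([(.cup, 1)] : List (Kind × ℕ)) rfl
  have s4 : EqD 1 (([(.cup, 1), (.crs true, 0), (.crs true, 1)] : List (Kind × ℕ)) ++ ([(.cup, 2)] : List (Kind × ℕ)))
      (([(.cup, 0)] : List (Kind × ℕ)) ++ ([(.cup, 2)] : List (Kind × ℕ))) := nat_cup0.right ([(.cup, 2)] : List (Kind × ℕ)) (by decide)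
  have s5 : EqD 1 (sh 1 C2 ++ X4) C2 := s3.trans s4
  have s6 := s5.right (sh 1 (bw w) ++ ([(.cap, 1)] : List (Kind × ℕ))) (by
    rw [List.append_assoc, cnt_app c0, cnt_app (show cnt 5 X4 = some 5 from rfl),
      cnt_app (show cnt 5 (sh 1 (bw w)) = some 5 from cnt_shbw2 w 1 1)]
    decide)
  have e1 : sh 1 (DD w) ++ ([(.crs true, 0), (.crs true, 1)] : List (Kind × ℕ)) =
      sh 1 C2 ++ sh 2 (bw w) ++ ([(.cap, 2), (.crs true, 0), (.crs true, 1)] : List (Kind × ℕ)) := by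
    simp [DD, sh_append, sh_sh]
  have e2 : sh 1 C2 ++ sh 2 (bw w) ++ (X4 ++ ([(.cap, 1)] : List (Kind × ℕ))) =
      sh 1 C2 ++ (sh 2 (bw w) ++ X4) ++ ([(.cap, 1)] : List (Kind × ℕ)) := by simp
  have e3 : sh 1 C2 ++ (X4 ++ sh 1 (bw w)) ++ ([(.cap, 1)] : List (Kind × ℕ)) =
      sh 1 C2 ++ X4 ++ (sh 1 (bw w) ++ ([(.cap, 1)] : List (Kind × ℕ))) := by simp
  rw [e1]
  rw [e2] at s1
  rw [e3] at s2
  exact (s1.trans s2).trans s6

theorem cnt_sDD (w : List (Fin 2 × Bool)) : cnt 1 (sh 1 (DD w)) = some 3 := by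
  rw [show (1 : ℕ) = 0 + 1 from rfl, cnt_sh, cnt_DD]
  rfl

/-- Passing the strand to the other side. -/
theorem partC (w : List (Fin 2 × Bool)) :
    EqD 1 (DD w ++ ([(.cap, 1)] : List (Kind × ℕ))) (sh 1 (DD w ++ ([(.crs false, 0)] : List (Kind × ℕ))) ++ ([(.cap, 0)] : List (Kind × ℕ))) := by
  have s1 := (partN w).symm.right ([(.cap, 1)] : List (Kind × ℕ)) (by
    rw [cnt_app (cnt_widen 1 _ _ _ (cnt_DD w))]
    decide)
  have h2 : EqD 3 ([(.crs true, 0), (.crs true, 1), (.cap, 1)] : List (Kind × ℕ)) ([(.crs false, 1), (.cap, 0)] : List (Kind × ℕ)) :=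
    EqD.of_chk [(1, false, .a1 1 true), (0, true, .sa 0 false)] rfl
  have s2 := h2.left _ (cnt_sDD w)
  have e1 : sh 1 (DD w) ++ ([(.crs true, 0), (.crs true, 1)] : List (Kind × ℕ)) ++ ([(.cap, 1)] : List (Kind × ℕ)) =
      sh 1 (DD w) ++ ([(.crs true, 0), (.crs true, 1), (.cap, 1)] : List (Kind × ℕ)) := by simp
  have e2 : sh 1 (DD w) ++ ([(.crs false, 1), (.cap, 0)] : List (Kind × ℕ)) =
      sh 1 (DD w ++ ([(.crs false, 0)] : List (Kind × ℕ))) ++ ([(.cap, 0)] : List (Kind × ℕ)) := by simp [sh_append]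
  rw [e1] at s1
  rw [e2] at s2
  exact s1.trans s2

/-! ### The half twist -/

/-- the negative half twist -/
def dl : List (Fin 3 × Bool) := [(0, false), (1, false), (2, false), (0, false), (1, false), (0, false)]

/-- the word on the strands 1, 2, 3 -/
def up (w : List (Fin 2 × Bool)) : List (Fin 3 × Bool) := w.map fun p => (p.1.succ, p.2)

/-- the word on the strands 2, 1, 0 -/
def fl (w : List (Fin 2 × Bool)) : List (Fin 3 × Bool) :=
  w.map fun p => (if p.1 = 0 then 1 else 0, p.2)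

theorem bw_up (w : List (Fin 2 × Bool)) : bw (up w) = sh 1 (bw w) := by
  simp [bw, up, sh]

theorem half_twist {G : Type*} [Group G] {x y z : G} (h1 : x * y * x = y * x * y)
    (h2 : y * z * y = z * y * z) (h3 : x * z = z * x) :
    (x * y * x * z * y * x) * y = y * (x * y * x * z * y * x) ∧
      (x * y * x * z * y * x) * z = x * (x * y * x * z * y * x) := by
  constructor
  · calc (x * y * x * z * y * x) * y = x * y * x * z * (y * x * y) := by group
      _ = x * y * x * z * (x * y * x) := by rw [← h1]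
      _ = x * y * x * (z * x) * y * x := by group
      _ = (x * y * x) * x * z * y * x := by rw [← h3]; group
      _ = (y * x * y) * x * z * y * x := by rw [h1]
      _ = _ := by group
  · calc (x * y * x * z * y * x) * z = x * y * x * z * y * (x * z) := by group
      _ = x * y * x * (z * y * z) * x := by rw [h3]; group
      _ = x * (y * x * y) * z * y * x := by rw [← h2]; group
      _ = _ := by rw [← h1]; group

theorem wd_dl : wd dl = (sg 0 * sg 1 * sg 0 * sg 2 * sg 1 * sg 0 : Br 3)⁻¹ := by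
  simp [dl, wd, mul_assoc]

theorem wd_up_dl (w : List (Fin 2 × Bool)) : wd (up w ++ dl) = wd (dl ++ fl w) := by
  rw [wd_append, wd_append]
  obtain ⟨k1, k2⟩ := half_twist b01 b12 c02
  have h1 : (sg 1 : Br 3) * wd dl = wd dl * sg 1 := by
    rw [wd_dl, eq_inv_mul_iff_mul_eq, ← mul_assoc, k1, mul_inv_cancel_right]
  have h2 : (sg 2 : Br 3) * wd dl = wd dl * sg 0 := by
    rw [wd_dl, eq_inv_mul_iff_mul_eq, ← mul_assoc, k2, mul_inv_cancel_right]
  have h1' : (sg 1 : Br 3)⁻¹ * wd dl = wd dl * (sg 1)⁻¹ := by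
    rw [inv_mul_eq_iff_eq_mul, ← mul_assoc, h1, mul_inv_cancel_right]
  have h2' : (sg 2 : Br 3)⁻¹ * wd dl = wd dl * (sg 0)⁻¹ := by
    rw [inv_mul_eq_iff_eq_mul, ← mul_assoc, h2, mul_inv_cancel_right]
  induction w with
  | nil => simp [up, fl]
  | cons p w ih =>
    obtain ⟨i, e⟩ := p
    have e1 : up ((i, e) :: w) = (i.succ, e) :: up w := rfl
    have e2 : fl ((i, e) :: w) = (if i = 0 then 1 else 0, e) :: fl w := rfl
    rw [e1, e2, wd_cons, wd_cons, mul_assoc, ih, ← mul_assoc, ← mul_assoc]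
    congr 1
    fin_cases i <;> cases e
    · exact h1'
    · exact h1
    · exact h2'
    · exact h2

theorem mk_up_fl (w : List (Fin 2 × Bool)) :
    (QuotientGroup.mk' nrm) (wd (fl w)) = (QuotientGroup.mk' nrm) (wd (up w)) := by
  have h : (QuotientGroup.mk' nrm) (sg 0) = (QuotientGroup.mk' nrm) (sg 2) := by
    have h1 : (QuotientGroup.mk' nrm) ea = 1 := (QuotientGroup.eq_one_iff _).2 ea_nrm
    rw [ea, map_mul, map_inv, mul_inv_eq_one] at h1
    exact h1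
  induction w with
  | nil => rfl
  | cons p w ih =>
    obtain ⟨i, e⟩ := p
    have e1 : up ((i, e) :: w) = (i.succ, e) :: up w := rfl
    have e2 : fl ((i, e) :: w) = (if i = 0 then 1 else 0, e) :: fl w := rfl
    rw [e1, e2, wd_cons, wd_cons, map_mul, map_mul, ih]
    congr 1
    fin_cases i <;> cases e
    · rfl
    · rfl
    · show (QuotientGroup.mk' nrm) (sg 0)⁻¹ = (QuotientGroup.mk' nrm) (sg 2)⁻¹
      rw [map_inv, map_inv, h]
    · exact h

/-- A crossing of the two ends of the arc can be removed. -/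
theorem partD (w : List (Fin 2 × Bool)) : EqD 0 (DD w ++ ([(.crs false, 0)] : List (Kind × ℕ))) (DD w) := by
  have c1 : cnt 0 (C2 ++ sh 1 (bw w)) = some 4 := by
    rw [cnt_app cnt_C2]
    exact cnt_shbw2 w 1 0
  have s1 : EqD 0 (C2 ++ sh 1 (bw w) ++ ([(.cap, 1), (.crs false, 0)] : List (Kind × ℕ)))
      (C2 ++ sh 1 (bw w) ++ (bw dl ++ ([(.cap, 1)] : List (Kind × ℕ)))) := del_cap.left _ c1
  have h2 : EqD 0 (C2 ++ bw (up w ++ dl)) (C2 ++ bw (dl ++ fl w)) :=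
    (bw_eqd (wd_up_dl w)).left C2 cnt_C2
  have h3 : EqD 0 (C2 ++ bw dl ++ bw (fl w)) (C2 ++ bw (fl w)) :=
    EqD.right (x := C2 ++ bw dl) (y := C2) del_cup (bw (fl w)) (by
      rw [List.append_assoc, cnt_app cnt_C2, cnt_app (cnt_bw dl), cnt_bw]
      simp)
  have h4 : EqD 0 (C2 ++ bw (fl w)) (C2 ++ bw (up w)) := C2_eqd (mk_up_fl w)
  rw [bw_append dl, ← List.append_assoc] at h2
  have h5 := ((h2.trans h3).trans h4).right ([(.cap, 1)] : List (Kind × ℕ)) (by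
    rw [List.append_assoc, cnt_app cnt_C2, cnt_app (cnt_bw _)]
    decide)
  have e1 : DD w ++ ([(.crs false, 0)] : List (Kind × ℕ)) = C2 ++ sh 1 (bw w) ++ ([(.cap, 1), (.crs false, 0)] : List (Kind × ℕ)) := by
    simp [DD]
  have e2 : C2 ++ sh 1 (bw w) ++ (bw dl ++ ([(.cap, 1)] : List (Kind × ℕ))) = C2 ++ bw (up w ++ dl) ++ ([(.cap, 1)] : List (Kind × ℕ)) := by
    rw [bw_append, bw_up]
    simp
  have e3 : C2 ++ bw (up w) ++ ([(.cap, 1)] : List (Kind × ℕ)) = DD w := by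
    rw [bw_up]
    simp [DD]
  rw [e1]
  rw [e2] at s1
  rw [e3] at h5
  exact s1.trans h5

/-- Closing the arc on the left. -/
theorem partA (w : List (Fin 2 × Bool)) : EqD 1 (sh 1 (DD w) ++ ([(.cap, 0)] : List (Kind × ℕ))) (KW w) := by
  have h1 : EqD 3 (([(.cap, 0)] : List (Kind × ℕ)) ++ sh 0 (KW w)) (sh 2 (KW w) ++ ([(.cap, 0)] : List (Kind × ℕ))) :=
    far_words ([(.cap, 0)] : List (Kind × ℕ)) (KW w) 2 0 1 rfl (by rw [cnt_KW]; simp)
  rw [sh_zero] at h1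
  have s1 := h1.symm.left ([(.cup, 1)] : List (Kind × ℕ)) (show cnt 1 ([(.cup, 1)] : List (Kind × ℕ)) = some 3 from rfl)
  have h2 : EqD 1 ([(.cup, 1), (.cap, 0)] : List (Kind × ℕ)) [] := EqD.of_chk [(0, false, .zg 0)] rfl
  have s2 := h2.right (KW w) (by
    rw [cnt_app (show cnt 1 ([(.cup, 1), (.cap, 0)] : List (Kind × ℕ)) = some 1 from rfl), cnt_KW]
    simp)
  have e1 : sh 1 (DD w) ++ ([(.cap, 0)] : List (Kind × ℕ)) = ([(.cup, 1)] : List (Kind × ℕ)) ++ (sh 2 (KW w) ++ ([(.cap, 0)] : List (Kind × ℕ))) := by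
    rw [DD_eq]
    simp [sh_sh]
  rw [e1]
  exact s1.trans s2

/-- **2-bridge knots are invertible.** -/
theorem rev_KW (w : List (Fin 2 × Bool)) : EqD 1 (KW w) (KW (rho w)) := by
  have h1 := (partD w).sh 1
  have h2 := h1.right ([(.cap, 0)] : List (Kind × ℕ)) (by
    rw [sh_append, List.append_assoc, cnt_app (cnt_sDD w)]
    decide)
  exact ((((partB w).symm.trans (partC w)).trans h2).trans (partA w)).symm

end Pool.Agent.TwoBr
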