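import Pool.Agent.TwoBr.EqD

/-!
Sliced diagrams: certificates for the equivalence of explicit diagrams.
-/

namespace Pool.Agent.TwoBr

open Pool.Agent.LibH11 Pool.Agent.LibH11.Sliced

instance : DecidableEq Kind
  | .cup, .cup => isTrue rfl
  | .cup, .cap => isFalse (by intro h; cases h)
  | .cup, .crs _ => isFalse (by intro h; cases h)
  | .cap, .cup => isFalse (by intro h; cases h)
  | .cap, .cap => isTrue rfl
  | .cap, .crs _ => isFalse (by intro h; cases h)
  | .crs _, .cup => isFalse (by intro h; cases h)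
  | .crs _, .cap => isFalse (by intro h; cases h)
  | .crs a, .crs b =>
    if h : a = b then isTrue (by rw [h]) else isFalse (by intro h'; cases h'; exact h rfl)

/-- Codes for the moves. -/
inductive MC
  | far (p q : Kind) (i k : ℕ) : MC
  | zz (i : ℕ) : MC
  | zg (i : ℕ) : MC
  | sa (i : ℕ) (e : Bool) : MC
  | su (i : ℕ) (e : Bool) : MC
  | a1 (i : ℕ) (e : Bool) : MC
  | u1 (i : ℕ) (e : Bool) : MC
  | r2 (i : ℕ) (e : Bool) : MC
  | r3 (i : ℕ) : MC

/-- The left hand side. -/
def MC.l : MC → Diag
  | .far p q i k => [(p, i), (q, i + p.outs + k)]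
  | .zz i => [(.cup, i), (.cap, i + 1)]
  | .zg i => [(.cup, i + 1), (.cap, i)]
  | .sa i e => [(.crs e, i + 1), (.cap, i)]
  | .su i e => [(.cup, i), (.crs e, i + 1)]
  | .a1 i e => [(.crs e, i), (.cap, i)]
  | .u1 i e => [(.cup, i), (.crs e, i)]
  | .r2 i e => [(.crs e, i), (.crs (!e), i)]
  | .r3 i => [(.crs true, i), (.crs true, i + 1), (.crs true, i)]

/-- The right hand side. -/
def MC.r : MC → Diag
  | .far p q i k => [(q, i + p.ins + k), (p, i)]
  | .zz _ => []
  | .zg _ => []
  | .sa i e => [(.crs (!e), i), (.cap, i + 1)]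
  | .su i e => [(.cup, i + 1), (.crs (!e), i)]
  | .a1 i _ => [(.cap, i)]
  | .u1 i _ => [(.cup, i)]
  | .r2 _ _ => []
  | .r3 i => [(.crs true, i + 1), (.crs true, i), (.crs true, i + 1)]

theorem MC.move (c : MC) : Move c.l c.r := by
  cases c with
  | far p q i k => exact Move.far p q i k
  | zz i => exact Move.zigzag i
  | zg i => exact Move.zagzig i
  | sa i e => exact Move.slideCap i e
  | su i e => exact Move.slideCup i e
  | a1 i e => exact Move.r1Cap i e
  | u1 i e => exact Move.r1Cup i e
  | r2 i e => exact Move.r2 i e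
  | r3 i => exact Move.r3 i

/-- Replace `a` by `b` at the place `pos`. -/
def repl (a b : Diag) (pos : ℕ) (x : Diag) : Option Diag :=
  if (x.drop pos).take a.length = a then some (x.take pos ++ b ++ x.drop (pos + a.length))
  else none

theorem repl_eq {a b : Diag} {pos : ℕ} {x y : Diag} (h : repl a b pos x = some y) :
    x = x.take pos ++ a ++ x.drop (pos + a.length) ∧
      y = x.take pos ++ b ++ x.drop (pos + a.length) := by
  unfold repl at h
  split_ifs at h with h1
  simp only [Option.some.injEq] at h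
  refine ⟨?_, h.symm⟩
  have h2 : x.drop pos = (x.drop pos).take a.length ++ (x.drop pos).drop a.length :=
    (List.take_append_drop _ _).symm
  rw [h1, List.drop_drop] at h2
  rw [List.append_assoc, ← h2, List.take_append_drop]

/-- The certificate transforms `x` into `y`. -/
def chk (N : ℕ) : List (ℕ × Bool × MC) → Diag → Diag → Bool
  | [], x, y => decide (x = y)
  | (pos, rev, c) :: l, x, y =>
    match repl (if rev then c.r else c.l) (if rev then c.l else c.r) pos x with
    | none => false
    | some z => (cnt N z).isSome && chk N l z y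

theorem eqd_of_chk (N : ℕ) : ∀ (l : List (ℕ × Bool × MC)) (x y : Diag), (cnt N x).isSome = true →
    chk N l x y = true → EqD N x y := by
  intro l
  induction l with
  | nil =>
    intro x y _ h
    simp only [chk, decide_eq_true_eq] at h
    exact EqD.of_eq h
  | cons p l ih =>
    obtain ⟨pos, rev, c⟩ := p
    intro x y hx h
    simp only [chk] at h
    cases hz : repl (if rev then c.r else c.l) (if rev then c.l else c.r) pos x with
    | none => rw [hz] at h; simp at h
    | some z =>
      rw [hz] at h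
      simp only [Bool.and_eq_true] at h
      obtain ⟨h1, h2⟩ := h
      refine EqD.trans ?_ (ih z y h1 h2)
      obtain ⟨e1, e2⟩ := repl_eq hz
      have hx' : cnt N x ≠ none := by
        intro h
        rw [h] at hx
        simp at hx
      have hz' : cnt N z ≠ none := by
        intro h
        rw [h] at h1
        simp at h1
      cases rev with
      | false => exact Relation.EqvGen.rel _ _ ⟨_, _, _, _, c.move, e1, e2, hx', hz'⟩
      | true =>
        exact Relation.EqvGen.symm _ _
          (Relation.EqvGen.rel _ _ ⟨_, _, _, _, c.move, e2, e1, hz', hx'⟩)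

theorem EqD.of_chk {N : ℕ} {x y : Diag} (l : List (ℕ × Bool × MC))
    (h : ((cnt N x).isSome && chk N l x y) = true) : EqD N x y := by
  rw [Bool.and_eq_true] at h
  exact eqd_of_chk N l x y h.1 h.2

/-! ### Crossings -/

theorem r3_ppm : EqD 3 [(.crs true, 0), (.crs true, 1), (.crs false, 0)]
    [(.crs false, 1), (.crs true, 0), (.crs true, 1)] :=
  EqD.of_chk [(0, true, .r2 1 false), (1, true, .r3 0), (3, false, .r2 0 true)] rfl

/-! ### Rainbows -/

theorem rb_cap : EqD 4 [(.cap, 0), (.cap, 0)]
    [(.cup, 4), (.cap, 2), (.cap, 1), (.cap, 0)] :=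
  EqD.of_chk [(0, false, .far .cap .cap 0 0), (1, true, .zg 1), (0, false, .far .cap .cup 2 0)] rfl

theorem rb_end : EqD 3 [(.cup, 0), (.cup, 2), (.cap, 3), (.cap, 2), (.cap, 1)]
    [(.cap, 0)] :=
  EqD.of_chk [(1, false, .zz 2), (0, false, .far .cup .cap 0 0), (1, false, .zz 0)] rfl

theorem rb_1p : EqD 6 [(.crs true, 1), (.cap, 2), (.cap, 1), (.cap, 0)]
    [(.crs true, 3), (.cap, 2), (.cap, 1), (.cap, 0)] :=
  EqD.of_chk [(0, true, .sa 1 false), (1, false, .far .cap .cap 1 0), (0, true, .sa 2 true)] rfl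

theorem rb_0p : EqD 6 [(.crs true, 0), (.cap, 2), (.cap, 1), (.cap, 0)]
    [(.crs true, 4), (.cap, 2), (.cap, 1), (.cap, 0)] :=
  EqD.of_chk [(0, false, .far (.crs true) .cap 0 0), (1, true, .sa 0 false),
    (2, false, .far .cap .cap 0 0), (1, true, .sa 1 true), (0, false, .far .cap (.crs true) 2 0)] rfl

theorem rb_1m : EqD 6 [(.crs false, 1), (.cap, 2), (.cap, 1), (.cap, 0)]
    [(.crs false, 3), (.cap, 2), (.cap, 1), (.cap, 0)] :=
  EqD.of_chk [(0, true, .sa 1 true), (1, false, .far .cap .cap 1 0), (0, true, .sa 2 false)] rfl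

theorem rb_0m : EqD 6 [(.crs false, 0), (.cap, 2), (.cap, 1), (.cap, 0)]
    [(.crs false, 4), (.cap, 2), (.cap, 1), (.cap, 0)] :=
  EqD.of_chk [(0, false, .far (.crs false) .cap 0 0), (1, true, .sa 0 true),
    (2, false, .far .cap .cap 0 0), (1, true, .sa 1 false),
    (0, false, .far .cap (.crs false) 2 0)] rfl

/-! ### A strand passing over a diagram -/

theorem nat_cup0 : EqD 1 [(.cup, 1), (.crs true, 0), (.crs true, 1)]
    [(.cup, 0)] :=
  EqD.of_chk [(0, true, .su 0 false), (1, false, .r2 1 false)] rfl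

theorem nat_cup2 : EqD 3 [(.cup, 3), (.crs true, 0), (.crs true, 1), (.crs true, 2), (.crs true, 3)]
    [(.crs true, 0), (.crs true, 1), (.cup, 2)] :=
  EqD.of_chk [(0, true, .far (.crs true) .cup 0 1), (1, true, .far (.crs true) .cup 1 0),
    (2, true, .su 2 false), (3, false, .r2 3 false)] rfl

theorem nat_1p : EqD 5 [(.crs true, 2), (.crs true, 0), (.crs true, 1), (.crs true, 2),
      (.crs true, 3)]
    [(.crs true, 0), (.crs true, 1), (.crs true, 2), (.crs true, 3), (.crs true, 1)] :=
  EqD.of_chk [(0, true, .far (.crs true) (.crs true) 0 0), (1, true, .r3 1),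
    (3, false, .far (.crs true) (.crs true) 1 0)] rfl

theorem nat_2p : EqD 5 [(.crs true, 3), (.crs true, 0), (.crs true, 1), (.crs true, 2),
      (.crs true, 3)]
    [(.crs true, 0), (.crs true, 1), (.crs true, 2), (.crs true, 3), (.crs true, 2)] :=
  EqD.of_chk [(0, true, .far (.crs true) (.crs true) 0 1),
    (1, true, .far (.crs true) (.crs true) 1 0), (2, true, .r3 2)] rfl

theorem nat_1m : EqD 5 [(.crs false, 2), (.crs true, 0), (.crs true, 1), (.crs true, 2),
      (.crs true, 3)]
    [(.crs true, 0), (.crs true, 1), (.crs true, 2), (.crs true, 3), (.crs false, 1)] :=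
  EqD.of_chk [(0, true, .far (.crs true) (.crs false) 0 0), (4, true, .r2 1 true),
    (2, false, .r3 1), (5, false, .far (.crs false) (.crs true) 1 0), (1, false, .r2 2 false)] rfl

theorem nat_2m : EqD 5 [(.crs false, 3), (.crs true, 0), (.crs true, 1), (.crs true, 2),
      (.crs true, 3)]
    [(.crs true, 0), (.crs true, 1), (.crs true, 2), (.crs true, 3), (.crs false, 2)] :=
  EqD.of_chk [(5, true, .r2 2 true), (3, false, .r3 2),
    (2, false, .far (.crs true) (.crs true) 1 0), (1, false, .far (.crs true) (.crs true) 0 1),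
    (0, false, .r2 3 false)] rfl

theorem nat_cap : EqD 5 [(.cap, 2), (.crs true, 0), (.crs true, 1)]
    [(.crs true, 0), (.crs true, 1), (.crs true, 2), (.crs true, 3), (.cap, 1)] :=
  EqD.of_chk [(0, true, .far (.crs true) .cap 0 0), (1, true, .r2 1 true), (2, true, .sa 1 true),
    (3, false, .far .cap (.crs true) 1 0)] rfl

/-! ### Half twists and flypes -/

theorem del_cap : EqD 4 [(.cap, 1), (.crs false, 0)]
    [(.crs false, 0), (.crs false, 1), (.crs false, 2), (.crs false, 0), (.crs false, 1),
      (.crs false, 0), (.cap, 1)] :=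
  EqD.of_chk [(0, true, .r2 0 false), (1, true, .sa 0 false), (2, false, .far .cap (.crs false) 0 0),
    (3, true, .a1 0 false), (4, true, .r2 1 false), (5, false, .sa 0 true)] rfl

theorem del_cup : EqD 0 [(.cup, 0), (.cup, 2), (.crs false, 0), (.crs false, 1), (.crs false, 2),
      (.crs false, 0), (.crs false, 1), (.crs false, 0)]
    [(.cup, 0), (.cup, 2)] :=
  EqD.of_chk [(1, true, .far (.crs false) .cup 0 0), (0, false, .u1 0 false), (1, true, .su 1 true),
    (2, false, .r2 2 true), (1, true, .su 0 true), (2, false, .r2 1 true), (1, false, .u1 0 false),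
    (0, true, .far .cup .cup 0 0)] rfl

theorem st_a : EqD 0 [(.cup, 0), (.cup, 2), (.crs true, 0), (.crs false, 2)]
    [(.cup, 0), (.cup, 2)] :=
  EqD.of_chk [(1, true, .far (.crs true) .cup 0 0), (0, false, .u1 0 true),
    (1, false, .u1 2 false)] rfl

theorem st_b : EqD 0 [(.cup, 0), (.cup, 2), (.crs true, 1), (.crs true, 0), (.crs false, 2),
      (.crs false, 1)]
    [(.cup, 0), (.cup, 2)] :=
  EqD.of_chk [(0, false, .far .cup .cup 0 0), (1, false, .su 0 true), (2, false, .r2 0 false),
    (1, false, .su 1 false), (2, false, .r2 1 true)] rfl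

end Pool.Agent.TwoBr
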