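import Pool.Agent.LibH11.SlicedCalc

/-!
Sliced diagrams: states up to renaming of the labels, and the effect of the moves on them.
-/

namespace Pool.Agent.TwoBr

open Pool.Agent.LibH11 Pool.Agent.LibH11.Sliced

/-- Two valid states that differ by a renaming of the labels. -/
structure Sim (s t : State) : Prop where
  n : s.1 = t.1
  v1 : ∀ i < s.1, s.2.1 i < s.2.2
  v2 : ∀ i < t.1, t.2.1 i < t.2.2
  e : ∀ i < s.1, ∀ j < s.1, (s.2.1 i = s.2.1 j ↔ t.2.1 i = t.2.1 j)

/-- The same for results. -/
def OSim : Option State → Option State → Prop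
  | none, none => True
  | some s, some t => Sim s t
  | _, _ => False

theorem Sim.symm {s t : State} (h : Sim s t) : Sim t s :=
  ⟨h.n.symm, h.v2, h.v1, fun i hi j hj => (h.e i (h.n ▸ hi) j (h.n ▸ hj)).symm⟩

theorem Sim.trans {s t u : State} (h : Sim s t) (h' : Sim t u) : Sim s u :=
  ⟨h.n.trans h'.n, h.v1, h'.v2, fun i hi j hj =>
    (h.e i hi j hj).trans (h'.e i (h.n ▸ hi) j (h.n ▸ hj))⟩

theorem OSim.symm {s t : Option State} (h : OSim s t) : OSim t s := by
  cases s <;> cases t <;> first | exact Sim.symm h | exact h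

theorem OSim.trans {s t u : Option State} (h : OSim s t) (h' : OSim t u) : OSim s u := by
  cases s <;> cases t <;> cases u <;>
    first | exact Sim.trans h h' | exact h | exact h' | exact h.elim

theorem step_sim (p : Kind × ℕ) {s t : State} (h : Sim s t) : OSim (step p s) (step p t) := by
  obtain ⟨k, i⟩ := p
  obtain ⟨n, lab, c⟩ := s
  obtain ⟨n', lab', c'⟩ := t
  obtain ⟨hn, v1, v2, he⟩ := h
  simp only at hn v1 v2 he
  subst hn
  cases k with
  | cup =>
    simp only [step]
    split_ifs with h1
    · refine ⟨rfl, ?_, ?_, ?_⟩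
      · intro j hj
        simp only at hj ⊢
        grind
      · intro j hj
        simp only at hj ⊢
        grind
      · intro j hj l hl
        simp only at hj hl ⊢
        grind
    · exact trivial
  | cap =>
    simp only [step]
    by_cases h1 : i + 2 ≤ n
    · have h2 := he i (by omega) (i + 1) (by omega)
      by_cases h3 : lab i = lab (i + 1)
      · rw [if_neg (fun h => h.2 h3), if_neg (fun h => h.2 (h2.1 h3))]
        exact trivial
      · rw [if_pos ⟨h1, h3⟩, if_pos ⟨h1, fun h => h3 (h2.2 h)⟩]
        refine ⟨rfl, ?_, ?_, ?_⟩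
        · intro j hj
          simp only at hj ⊢
          grind
        · intro j hj
          simp only at hj ⊢
          grind
        · intro j hj l hl
          simp only at hj hl ⊢
          grind
    · rw [if_neg (fun h => h1 h.1), if_neg (fun h => h1 h.1)]
      exact trivial
  | crs e =>
    simp only [step]
    split_ifs with h1
    · have hs : ∀ j, j < n → Equiv.swap i (i + 1) j < n := by
        intro j hj
        simp only [Equiv.swap_apply_def]
        split_ifs <;> omega
      refine ⟨rfl, ?_, ?_, ?_⟩
      · intro j hj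
        exact v1 _ (hs j hj)
      · intro j hj
        exact v2 _ (hs j hj)
      · intro j hj l hl
        exact he _ (hs j hj) _ (hs l hl)
    · exact trivial



theorem osim_some {s t : State} (h : Sim s t) : OSim (some s) (some t) := h

theorem sim_of_eq {n : ℕ} {lab lab' : ℕ → ℕ} {c : ℕ} (v : ∀ j, j < n → lab j < c)
    (h : ∀ j, j < n → lab j = lab' j) : Sim (n, lab, c) (n, lab', c) := by
  refine ⟨rfl, v, ?_, ?_⟩
  · intro j hj
    have := v j hj
    have h2 := h j hj
    simp only at hj ⊢
    omega
  · intro j hj l hl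
    have h1 := h j hj
    have h2 := h l hl
    simp only at hj hl ⊢
    rw [h1, h2]

theorem move_zigzag (i n : ℕ) (lab : ℕ → ℕ) (c : ℕ) (v : ∀ j, j < n → lab j < c)
    (hi : i + 1 ≤ n) :
    OSim (run [(.cup, i), (.cap, i + 1)] (n, lab, c)) (some (n, lab, c)) := by
  simp only [run, step]
  rw [if_pos (by omega)]
  simp only [Option.bind_some]
  have h0 := v i (by omega)
  rw [if_pos (by constructor; · omega
                 · rw [if_neg (by omega), if_pos (by omega), if_neg (by omega), if_neg (by omega)]
                   have : i + 1 + 1 - 2 = i := by omega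
                   rw [this]
                   omega)]
  refine ⟨by simp, ?_, ?_, ?_⟩
  · intro j hj
    simp only at hj ⊢
    have := v j (by omega)
    grind
  · exact v
  · intro j hj l hl
    simp only at hj hl ⊢
    have := v j (by omega)
    have := v l (by omega)
    grind



theorem move_zagzig (i n : ℕ) (lab : ℕ → ℕ) (c : ℕ) (v : ∀ j, j < n → lab j < c)
    (hi : i + 1 ≤ n) :
    OSim (run [(.cup, i + 1), (.cap, i)] (n, lab, c)) (some (n, lab, c)) := by
  simp only [run, step]
  rw [if_pos (by omega)]
  simp only [Option.bind_some]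
  have h0 := v i (by omega)
  rw [if_pos (by constructor; · omega
                 · rw [if_pos (by omega), if_neg (by omega), if_pos (by omega)]
                   omega)]
  refine ⟨by simp, ?_, ?_, ?_⟩
  · intro j hj
    simp only at hj ⊢
    have := v j (by omega)
    grind (splits := 40)
  · exact v
  · intro j hj l hl
    simp only at hj hl ⊢
    have := v j (by omega)
    have := v l (by omega)
    grind (splits := 40)

theorem move_slideCap (i n : ℕ) (e : Bool) (lab : ℕ → ℕ) (c : ℕ) (v : ∀ j, j < n → lab j < c)
    (hi : i + 3 ≤ n) :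
    OSim (run [(.crs e, i + 1), (.cap, i)] (n, lab, c))
      (run [(.crs (!e), i), (.cap, i + 1)] (n, lab, c)) := by
  simp only [run, step]
  rw [if_pos (by omega), if_pos (by omega)]
  simp only [Option.bind_some]
  have h0 := v i (by omega)
  have e1 : Equiv.swap (i + 1) (i + 1 + 1) i = i := by
    rw [Equiv.swap_apply_of_ne_of_ne] <;> omega
  have e2 : Equiv.swap i (i + 1) (i + 1 + 1) = i + 1 + 1 := by
    rw [Equiv.swap_apply_of_ne_of_ne] <;> omega
  simp only [Equiv.swap_apply_left, Equiv.swap_apply_right, e1, e2]
  by_cases h1 : lab i = lab (i + 1 + 1)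
  · rw [if_neg (fun h => h.2 h1), if_neg (fun h => h.2 h1)]
    exact trivial
  · rw [if_pos ⟨by omega, h1⟩, if_pos ⟨by omega, h1⟩]
    refine ⟨by simp, ?_, ?_, ?_⟩
    · intro j hj
      simp only at hj ⊢
      simp only [Equiv.swap_apply_def]
      grind (splits := 40)
    · intro j hj
      simp only at hj ⊢
      simp only [Equiv.swap_apply_def]
      grind (splits := 40)
    · intro j hj l hl
      simp only at hj hl ⊢
      simp only [Equiv.swap_apply_def]
      grind (splits := 40)

theorem move_slideCup (i n : ℕ) (e : Bool) (lab : ℕ → ℕ) (c : ℕ) (v : ∀ j, j < n → lab j < c)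
    (hi : i + 1 ≤ n) :
    OSim (run [(.cup, i), (.crs e, i + 1)] (n, lab, c))
      (run [(.cup, i + 1), (.crs (!e), i)] (n, lab, c)) := by
  simp only [run, step]
  rw [if_pos (by omega), if_pos (by omega)]
  simp only [Option.bind_some]
  rw [if_pos (by omega), if_pos (by omega)]
  refine ⟨by simp, ?_, ?_, ?_⟩
  · intro j hj
    simp only at hj ⊢
    simp only [Equiv.swap_apply_def]
    grind (splits := 40)
  · intro j hj
    simp only at hj ⊢
    simp only [Equiv.swap_apply_def]
    grind (splits := 40)
  · intro j hj l hl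
    simp only at hj hl ⊢
    simp only [Equiv.swap_apply_def]
    grind (splits := 40)

theorem move_r1Cap (i n : ℕ) (e : Bool) (lab : ℕ → ℕ) (c : ℕ) (v : ∀ j, j < n → lab j < c)
    (hi : i + 2 ≤ n) :
    OSim (run [(.crs e, i), (.cap, i)] (n, lab, c)) (run [(.cap, i)] (n, lab, c)) := by
  simp only [run, step]
  rw [if_pos (by omega)]
  simp only [Option.bind_some, Equiv.swap_apply_left, Equiv.swap_apply_right]
  by_cases h1 : lab i = lab (i + 1)
  · rw [if_neg (fun h => h.2 h1.symm), if_neg (fun h => h.2 h1)]
    exact trivial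
  · rw [if_pos ⟨by omega, fun h => h1 h.symm⟩, if_pos ⟨by omega, h1⟩]
    refine ⟨by simp, ?_, ?_, ?_⟩
    · intro j hj
      simp only at hj ⊢
      simp only [Equiv.swap_apply_def]
      grind (splits := 40)
    · intro j hj
      simp only at hj ⊢
      grind (splits := 40)
    · intro j hj l hl
      simp only at hj hl ⊢
      simp only [Equiv.swap_apply_def]
      grind (splits := 40)

theorem move_r1Cup (i n : ℕ) (e : Bool) (lab : ℕ → ℕ) (c : ℕ) (v : ∀ j, j < n → lab j < c)
    (hi : i ≤ n) :
    OSim (run [(.cup, i), (.crs e, i)] (n, lab, c)) (run [(.cup, i)] (n, lab, c)) := by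
  simp only [run, step]
  rw [if_pos (by omega)]
  simp only [Option.bind_some]
  rw [if_pos (by omega)]
  refine ⟨by simp, ?_, ?_, ?_⟩
  · intro j hj
    simp only at hj ⊢
    simp only [Equiv.swap_apply_def]
    grind (splits := 40)
  · intro j hj
    simp only at hj ⊢
    grind (splits := 40)
  · intro j hj l hl
    simp only at hj hl ⊢
    simp only [Equiv.swap_apply_def]
    grind (splits := 40)

theorem move_r2 (i n : ℕ) (e : Bool) (lab : ℕ → ℕ) (c : ℕ) (v : ∀ j, j < n → lab j < c)
    (hi : i + 2 ≤ n) :
    OSim (run [(.crs e, i), (.crs (!e), i)] (n, lab, c)) (some (n, lab, c)) := by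
  simp only [run, step]
  rw [if_pos (by omega)]
  simp only [Option.bind_some]
  rw [if_pos (by omega)]
  simp only [swap_swap_nat]
  exact sim_of_eq v (fun _ _ => rfl)

theorem move_r3 (i n : ℕ) (lab : ℕ → ℕ) (c : ℕ) (v : ∀ j, j < n → lab j < c)
    (hi : i + 3 ≤ n) :
    OSim (run [(.crs true, i), (.crs true, i + 1), (.crs true, i)] (n, lab, c))
      (run [(.crs true, i + 1), (.crs true, i), (.crs true, i + 1)] (n, lab, c)) := by
  simp only [run, step]
  rw [if_pos (by omega), if_pos (by omega)]
  simp only [Option.bind_some]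
  rw [if_pos (by omega), if_pos (by omega)]
  simp only [Option.bind_some]
  rw [if_pos (by omega), if_pos (by omega)]
  refine ⟨rfl, ?_, ?_, ?_⟩
  · intro j hj
    simp only at hj ⊢
    simp only [Equiv.swap_apply_def]
    grind (splits := 40)
  · intro j hj
    simp only at hj ⊢
    simp only [Equiv.swap_apply_def]
    grind (splits := 40)
  · intro j hj l hl
    simp only at hj hl ⊢
    simp only [Equiv.swap_apply_def]
    grind (splits := 40)



theorem far_cup_cup (i k n : ℕ) (lab : ℕ → ℕ) (c : ℕ) (v : ∀ j, j < n → lab j < c)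
    (hi : i + k ≤ n) :
    OSim (run [(.cup, i), (.cup, i + 2 + k)] (n, lab, c))
      (run [(.cup, i + 0 + k), (.cup, i)] (n, lab, c)) := by
  simp only [run, step]
  rw [if_pos (by omega), if_pos (by omega)]
  simp only [Option.bind_some]
  rw [if_pos (by omega), if_pos (by omega)]
  refine ⟨rfl, ?_, ?_, ?_⟩
  · intro j hj
    simp only at hj ⊢
    grind (splits := 40)
  · intro j hj
    simp only at hj ⊢
    grind (splits := 40)
  · intro j hj l hl
    simp only at hj hl ⊢
    grind (splits := 40)

theorem far_cup_crs (i k n : ℕ) (e : Bool) (lab : ℕ → ℕ) (c : ℕ) (v : ∀ j, j < n → lab j < c)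
    (hi : i + k + 2 ≤ n) :
    OSim (run [(.cup, i), (.crs e, i + 2 + k)] (n, lab, c))
      (run [(.crs e, i + 0 + k), (.cup, i)] (n, lab, c)) := by
  simp only [run, step]
  rw [if_pos (by omega), if_pos (by omega)]
  simp only [Option.bind_some]
  rw [if_pos (by omega), if_pos (by omega)]
  refine ⟨rfl, ?_, ?_, ?_⟩
  · intro j hj
    simp only at hj ⊢
    simp only [Equiv.swap_apply_def]
    grind (splits := 40)
  · intro j hj
    simp only at hj ⊢
    simp only [Equiv.swap_apply_def]
    grind (splits := 40)
  · intro j hj l hl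
    simp only at hj hl ⊢
    simp only [Equiv.swap_apply_def]
    grind (splits := 40)

theorem far_crs_cup (i k n : ℕ) (e : Bool) (lab : ℕ → ℕ) (c : ℕ) (v : ∀ j, j < n → lab j < c)
    (hi : i + k + 2 ≤ n) :
    OSim (run [(.crs e, i), (.cup, i + 2 + k)] (n, lab, c))
      (run [(.cup, i + 2 + k), (.crs e, i)] (n, lab, c)) := by
  simp only [run, step]
  rw [if_pos (by omega), if_pos (by omega)]
  simp only [Option.bind_some]
  rw [if_pos (by omega), if_pos (by omega)]
  refine ⟨rfl, ?_, ?_, ?_⟩
  · intro j hj
    simp only at hj ⊢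
    simp only [Equiv.swap_apply_def]
    grind (splits := 40)
  · intro j hj
    simp only at hj ⊢
    simp only [Equiv.swap_apply_def]
    grind (splits := 40)
  · intro j hj l hl
    simp only at hj hl ⊢
    simp only [Equiv.swap_apply_def]
    grind (splits := 40)

theorem far_crs_crs (i k n : ℕ) (e e' : Bool) (lab : ℕ → ℕ) (c : ℕ) (v : ∀ j, j < n → lab j < c)
    (hi : i + k + 4 ≤ n) :
    OSim (run [(.crs e, i), (.crs e', i + 2 + k)] (n, lab, c))
      (run [(.crs e', i + 2 + k), (.crs e, i)] (n, lab, c)) := by
  simp only [run, step]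
  rw [if_pos (by omega), if_pos (by omega)]
  simp only [Option.bind_some]
  rw [if_pos (by omega), if_pos (by omega)]
  refine ⟨rfl, ?_, ?_, ?_⟩
  · intro j hj
    simp only at hj ⊢
    simp only [Equiv.swap_apply_def]
    grind (splits := 40)
  · intro j hj
    simp only at hj ⊢
    simp only [Equiv.swap_apply_def]
    grind (splits := 40)
  · intro j hj l hl
    simp only at hj hl ⊢
    simp only [Equiv.swap_apply_def]
    grind (splits := 40)

theorem far_cup_cap (i k n : ℕ) (lab : ℕ → ℕ) (c : ℕ) (v : ∀ j, j < n → lab j < c)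
    (hi : i + k + 2 ≤ n) :
    OSim (run [(.cup, i), (.cap, i + 2 + k)] (n, lab, c))
      (run [(.cap, i + 0 + k), (.cup, i)] (n, lab, c)) := by
  simp only [run, step]
  rw [if_pos (by omega)]
  simp only [Option.bind_some]
  have e1 : ¬ i + 2 + k < i := by omega
  have e2 : ¬ i + 2 + k < i + 2 := by omega
  have e3 : ¬ i + 2 + k + 1 < i := by omega
  have e4 : ¬ i + 2 + k + 1 < i + 2 := by omega
  have e5 : i + 2 + k - 2 = i + 0 + k := by omega
  have e6 : i + 2 + k + 1 - 2 = i + 0 + k + 1 := by omega
  simp only [if_neg e1, if_neg e2, if_neg e3, if_neg e4, e5, e6]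
  by_cases h1 : lab (i + 0 + k) = lab (i + 0 + k + 1)
  · rw [if_neg (fun h => h.2 h1), if_neg (fun h => h.2 h1)]
    exact trivial
  · rw [if_pos ⟨by omega, h1⟩, if_pos ⟨by omega, h1⟩]
    simp only [Option.bind_some]
    rw [if_pos (by omega)]
    have v0 := v (i + 0 + k) (by omega)
    have v1 := v (i + 0 + k + 1) (by omega)
    refine ⟨by simp only; omega, ?_, ?_, ?_⟩
    · intro j hj
      simp only at hj ⊢
      grind (splits := 40)
    · intro j hj
      simp only at hj ⊢
      grind (splits := 40)
    · intro j hj l hl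
      simp only at hj hl ⊢
      grind (splits := 40)

theorem far_cap_cup (i k n : ℕ) (lab : ℕ → ℕ) (c : ℕ) (v : ∀ j, j < n → lab j < c)
    (hi : i + k + 2 ≤ n) :
    OSim (run [(.cap, i), (.cup, i + 0 + k)] (n, lab, c))
      (run [(.cup, i + 2 + k), (.cap, i)] (n, lab, c)) := by
  simp only [run, step]
  rw [if_pos (show i + 2 + k ≤ n by omega)]
  simp only [Option.bind_some]
  have e1 : i < i + 2 + k := by omega
  have e2 : i + 1 < i + 2 + k := by omega
  simp only [if_pos e1, if_pos e2]
  by_cases h1 : lab i = lab (i + 1)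
  · rw [if_neg (fun h => h.2 h1), if_neg (fun h => h.2 h1)]
    exact trivial
  · rw [if_pos ⟨by omega, h1⟩, if_pos ⟨by omega, h1⟩]
    simp only [Option.bind_some]
    rw [if_pos (by omega)]
    have v0 := v i (by omega)
    have v1 := v (i + 1) (by omega)
    refine ⟨by simp only; omega, ?_, ?_, ?_⟩
    · intro j hj
      simp only at hj ⊢
      grind (splits := 40)
    · intro j hj
      simp only at hj ⊢
      grind (splits := 40)
    · intro j hj l hl
      simp only at hj hl ⊢
      grind (splits := 40)

theorem far_crs_cap (i k n : ℕ) (e : Bool) (lab : ℕ → ℕ) (c : ℕ) (v : ∀ j, j < n → lab j < c)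
    (hi : i + k + 4 ≤ n) :
    OSim (run [(.crs e, i), (.cap, i + 2 + k)] (n, lab, c))
      (run [(.cap, i + 2 + k), (.crs e, i)] (n, lab, c)) := by
  simp only [run, step]
  rw [if_pos (by omega)]
  simp only [Option.bind_some]
  have e1 : Equiv.swap i (i + 1) (i + 2 + k) = i + 2 + k := by
    rw [Equiv.swap_apply_of_ne_of_ne] <;> omega
  have e2 : Equiv.swap i (i + 1) (i + 2 + k + 1) = i + 2 + k + 1 := by
    rw [Equiv.swap_apply_of_ne_of_ne] <;> omega
  simp only [e1, e2]
  by_cases h1 : lab (i + 2 + k) = lab (i + 2 + k + 1)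
  · rw [if_neg (fun h => h.2 h1), if_neg (fun h => h.2 h1)]
    exact trivial
  · rw [if_pos ⟨by omega, h1⟩, if_pos ⟨by omega, h1⟩]
    simp only [Option.bind_some]
    rw [if_pos (by omega)]
    refine ⟨rfl, ?_, ?_, ?_⟩
    · intro j hj
      simp only at hj ⊢
      simp only [Equiv.swap_apply_def]
      grind (splits := 40)
    · intro j hj
      simp only at hj ⊢
      simp only [Equiv.swap_apply_def]
      grind (splits := 40)
    · intro j hj l hl
      simp only at hj hl ⊢
      simp only [Equiv.swap_apply_def]
      grind (splits := 40)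

theorem far_cap_crs (i k n : ℕ) (e : Bool) (lab : ℕ → ℕ) (c : ℕ) (v : ∀ j, j < n → lab j < c)
    (hi : i + k + 4 ≤ n) :
    OSim (run [(.cap, i), (.crs e, i + 0 + k)] (n, lab, c))
      (run [(.crs e, i + 2 + k), (.cap, i)] (n, lab, c)) := by
  simp only [run, step]
  rw [if_pos (show i + 2 + k + 2 ≤ n by omega)]
  simp only [Option.bind_some]
  have e1 : Equiv.swap (i + 2 + k) (i + 2 + k + 1) i = i := by
    rw [Equiv.swap_apply_of_ne_of_ne] <;> omega
  have e2 : Equiv.swap (i + 2 + k) (i + 2 + k + 1) (i + 1) = i + 1 := by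
    rw [Equiv.swap_apply_of_ne_of_ne] <;> omega
  simp only [e1, e2]
  by_cases h1 : lab i = lab (i + 1)
  · rw [if_neg (fun h => h.2 h1), if_neg (fun h => h.2 h1)]
    exact trivial
  · rw [if_pos ⟨by omega, h1⟩, if_pos ⟨by omega, h1⟩]
    simp only [Option.bind_some]
    rw [if_pos (by omega)]
    refine ⟨rfl, ?_, ?_, ?_⟩
    · intro j hj
      simp only at hj ⊢
      simp only [Equiv.swap_apply_def]
      grind (splits := 40)
    · intro j hj
      simp only at hj ⊢
      simp only [Equiv.swap_apply_def]
      grind (splits := 40)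
    · intro j hj l hl
      simp only at hj hl ⊢
      simp only [Equiv.swap_apply_def]
      grind (splits := 40)

theorem far_cap_cap (i k n : ℕ) (lab : ℕ → ℕ) (c : ℕ) (v : ∀ j, j < n → lab j < c)
    (hi : i + k + 4 ≤ n) :
    OSim (run [(.cap, i), (.cap, i + 0 + k)] (n, lab, c))
      (run [(.cap, i + 2 + k), (.cap, i)] (n, lab, c)) := by
  simp only [run, step]
  have e1 : ¬ i + 0 + k < i := by omega
  have e2 : ¬ i + 0 + k + 1 < i := by omega
  have e3 : i + 0 + k + 2 = i + 2 + k := by omega
  have e4 : i + 0 + k + 1 + 2 = i + 2 + k + 1 := by omega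
  have e5 : i < i + 2 + k := by omega
  have e6 : i + 1 < i + 2 + k := by omega
  by_cases h1 : lab i = lab (i + 1)
  · rw [if_neg (fun h => h.2 h1)]
    by_cases h2 : lab (i + 2 + k) = lab (i + 2 + k + 1)
    · rw [if_neg (fun h => h.2 h2)]
      exact trivial
    · rw [if_pos ⟨by omega, h2⟩]
      simp only [Option.bind_some, Option.bind_none, if_pos e5, if_pos e6]
      rw [if_neg]
      · exact trivial
      · rintro ⟨_, h⟩
        apply h
        rw [h1]
  · rw [if_pos ⟨by omega, h1⟩]
    simp only [Option.bind_some, if_neg e1, if_neg e2, e3, e4]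
    by_cases h2 : lab (i + 2 + k) = lab (i + 2 + k + 1)
    · rw [if_neg (fun h => h.2 (by rw [h2]))]
      simp only [Option.bind_none]
      rw [if_neg (fun h => h.2 h2)]
      exact trivial
    · by_cases h3 : (if lab (i + 2 + k) = lab (i + 1) then lab i else lab (i + 2 + k)) =
          (if lab (i + 2 + k + 1) = lab (i + 1) then lab i else lab (i + 2 + k + 1))
      · rw [if_neg (fun h => h.2 h3)]
        simp only [Option.bind_none]
        rw [if_pos ⟨by omega, h2⟩]
        simp only [Option.bind_some, if_pos e5, if_pos e6]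
        rw [if_neg]
        · exact trivial
        · rintro ⟨_, h⟩
          apply h
          grind (splits := 40)
      · have e7 : step (.cap, i + 2 + k) (n, lab, c) = some (n - 2, fun j =>
            if lab (if j < i + 2 + k then j else j + 2) = lab (i + 2 + k + 1) then lab (i + 2 + k)
            else lab (if j < i + 2 + k then j else j + 2), c) := by
          simp only [step]
          rw [if_pos ⟨by omega, h2⟩]
        simp only [step] at e7
        rw [if_pos ⟨by omega, h3⟩, e7]
        simp only [Option.bind_some, if_pos e5, if_pos e6]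
        have h5 : i + 2 ≤ n - 2 ∧
            (if lab i = lab (i + 2 + k + 1) then lab (i + 2 + k) else lab i) ≠
            (if lab (i + 1) = lab (i + 2 + k + 1) then lab (i + 2 + k) else lab (i + 1)) := by
          refine ⟨by omega, ?_⟩
          intro h
          apply h3
          grind (splits := 40)
        rw [if_pos h5]
        refine ⟨rfl, ?_, ?_, ?_⟩
        · intro j hj
          simp only at hj ⊢
          grind (splits := 40)
        · intro j hj
          simp only at hj ⊢
          grind (splits := 40)
        · intro j hj l hl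
          simp only at hj hl ⊢
          grind (splits := 60)

theorem cnt_cons_ne {k : Kind} {i N : ℕ} {w : Diag} (h : cnt N ((k, i) :: w) ≠ none) :
    i + k.ins ≤ N ∧ cnt (N - k.ins + k.outs) w ≠ none := by
  simp only [cnt] at h
  split_ifs at h with h1
  · exact ⟨h1, h⟩
  · exact absurd rfl h

theorem cnt_cons_some {k : Kind} {i N m : ℕ} {w : Diag} (h : cnt N ((k, i) :: w) = some m) :
    i + k.ins ≤ N ∧ cnt (N - k.ins + k.outs) w = some m := by
  simp only [cnt] at h
  split_ifs at h with h1
  exact ⟨h1, h⟩

theorem move_osim {a b : Diag} (h : Move a b) {n : ℕ} {lab : ℕ → ℕ} {c : ℕ}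
    (v : ∀ j, j < n → lab j < c) (ha : cnt n a ≠ none) (hb : cnt n b ≠ none) :
    OSim (run a (n, lab, c)) (run b (n, lab, c)) := by
  cases h with
  | far p q i k =>
    obtain ⟨h1, -⟩ := cnt_cons_ne ha
    obtain ⟨h2, -⟩ := cnt_cons_ne hb
    cases p with
    | cup =>
      cases q with
      | cup => exact far_cup_cup i k n lab c v (by simpa [Kind.ins] using h2)
      | cap => exact far_cup_cap i k n lab c v (by simp only [Kind.ins] at h2; omega)
      | crs e => exact far_cup_crs i k n e lab c v (by simp only [Kind.ins] at h2; omega)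
    | cap =>
      cases q with
      | cup => exact far_cap_cup i k n lab c v (by simp only [Kind.ins] at h2; omega)
      | cap => exact far_cap_cap i k n lab c v (by simp only [Kind.ins] at h2; omega)
      | crs e => exact far_cap_crs i k n e lab c v (by simp only [Kind.ins] at h2; omega)
    | crs e =>
      cases q with
      | cup => exact far_crs_cup i k n e lab c v (by simp only [Kind.ins] at h2; omega)
      | cap => exact far_crs_cap i k n e lab c v (by simp only [Kind.ins] at h2; omega)
      | crs e' => exact far_crs_crs i k n e e' lab c v (by simp only [Kind.ins] at h2; omega)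
  | zigzag i =>
    obtain ⟨h1, h2⟩ := cnt_cons_ne ha
    obtain ⟨h3, h4⟩ := cnt_cons_ne h2
    simp only [Kind.ins, Kind.outs] at h1 h3
    exact move_zigzag i n lab c v (by omega)
  | zagzig i =>
    obtain ⟨h1, h2⟩ := cnt_cons_ne ha
    obtain ⟨h3, h4⟩ := cnt_cons_ne h2
    simp only [Kind.ins, Kind.outs] at h1 h3
    exact move_zagzig i n lab c v (by omega)
  | slideCap i e =>
    obtain ⟨h1, h2⟩ := cnt_cons_ne ha
    obtain ⟨h3, h4⟩ := cnt_cons_ne h2
    simp only [Kind.ins, Kind.outs] at h1 h3
    exact move_slideCap i n e lab c v (by omega)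
  | slideCup i e =>
    obtain ⟨h1, h2⟩ := cnt_cons_ne hb
    obtain ⟨h3, h4⟩ := cnt_cons_ne h2
    simp only [Kind.ins, Kind.outs] at h1 h3
    exact move_slideCup i n e lab c v (by omega)
  | r1Cap i e =>
    obtain ⟨h1, h2⟩ := cnt_cons_ne ha
    simp only [Kind.ins] at h1
    exact move_r1Cap i n e lab c v (by omega)
  | r1Cup i e =>
    obtain ⟨h1, h2⟩ := cnt_cons_ne ha
    simp only [Kind.ins] at h1
    exact move_r1Cup i n e lab c v (by omega)
  | r2 i e =>
    obtain ⟨h1, h2⟩ := cnt_cons_ne ha
    simp only [Kind.ins] at h1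
    exact move_r2 i n e lab c v (by omega)
  | r3 i =>
    obtain ⟨h1, h2⟩ := cnt_cons_ne ha
    obtain ⟨h3, h4⟩ := cnt_cons_ne h2
    simp only [Kind.ins, Kind.outs] at h1 h3
    exact move_r3 i n lab c v (by omega)

theorem run_osim : ∀ (w : Diag) {s t : State}, Sim s t → OSim (run w s) (run w t) := by
  intro w
  induction w with
  | nil => intro s t h; exact h
  | cons p w ih =>
    intro s t h
    have h1 := step_sim p h
    simp only [run]
    cases hs : step p s with
    | none =>
      cases ht : step p t with
      | none => exact trivial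
      | some t' => rw [hs, ht] at h1; exact h1.elim
    | some s' =>
      cases ht : step p t with
      | none => rw [hs, ht] at h1; exact h1.elim
      | some t' => rw [hs, ht] at h1; exact ih h1

theorem bind_run_osim (w : Diag) {s t : Option State} (h : OSim s t) :
    OSim (s.bind (run w)) (t.bind (run w)) := by
  cases s with
  | none =>
    cases t with
    | none => exact trivial
    | some t => exact h.elim
  | some s =>
    cases t with
    | none => exact h.elim
    | some t => exact run_osim w h

theorem start_sim : Sim start start :=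
  ⟨rfl, fun _ _ => Nat.zero_lt_one, fun _ _ => Nat.zero_lt_one, fun _ _ _ _ => Iff.rfl⟩

/-- The effect of a diagram on the number of strands. -/
theorem cnt_sum : ∀ (w : Diag) (n m : ℕ), cnt n w = some m →
    m + (w.map fun p => p.1.ins).sum = n + (w.map fun p => p.1.outs).sum := by
  intro w
  induction w with
  | nil =>
    intro n m h
    simp only [cnt, Option.some.injEq] at h
    simp [h]
  | cons p w ih =>
    obtain ⟨k, i⟩ := p
    intro n m h
    obtain ⟨h1, h2⟩ := cnt_cons_some h
    have h3 := ih _ _ h2
    simp only [List.map_cons, List.sum_cons]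
    omega

theorem cnt_move {a b : Diag} (h : Move a b) {n m m' : ℕ} (ha : cnt n a = some m)
    (hb : cnt n b = some m') : m = m' := by
  have h1 := cnt_sum _ _ _ ha
  have h2 := cnt_sum _ _ _ hb
  cases h <;>
  · simp only [List.map_cons, List.map_nil, List.sum_cons, List.sum_nil, Kind.ins,
      Kind.outs] at h1 h2
    omega

end Pool.Agent.TwoBr
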