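import Pool.Agent.TwoBr.NF

/-!
2-bridge knots: one minimum, a braid on three strands, one maximum.
-/

namespace Pool.Agent.TwoBr

open Pool.Agent.LibH11 Pool.Agent.LibH11.Sliced Pool.Agent.TB

/-- 2-bridge knots (and the unknot): the knot has a long diagram which consists of one minimum, a
braid on three strands and one maximum. -/
def IsTwoBridge (K : Sliced.Knot) : Prop :=
  ∃ (i j : ℕ) (w : List (ℕ × Bool))
    (h : IsLongKnot ((Kind.cup, i) :: (braidWord w ++ [(Kind.cap, j)]))), K = ofDiag _ h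

theorem cnt_of_long {w : Diag} (h : IsLongKnot w) : cnt 1 w ≠ none := by
  obtain ⟨lab, c, h⟩ := h
  have := run_cnt w start _ h
  intro h0
  rw [show start.1 = 1 from rfl, h0] at this
  simp at this

theorem braidWord_three : ∀ w : List (ℕ × Bool), cnt 3 (braidWord w) ≠ none →
    ∃ w' : List (Fin 2 × Bool), braidWord w = bw w' := by
  intro w
  induction w with
  | nil => intro _; exact ⟨[], rfl⟩
  | cons p w ih =>
    obtain ⟨i, e⟩ := p
    intro h
    obtain ⟨h1, h2⟩ := cnt_cons_ne (k := Kind.crs e) (i := i) (w := braidWord w) h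
    simp only [Kind.ins, Kind.outs] at h1 h2
    obtain ⟨w', hw'⟩ := ih h2
    refine ⟨(⟨i, by omega⟩, e) :: w', ?_⟩
    rw [bw_cons, ← hw']
    rfl

theorem two_bridge_KW (i j : ℕ) (w : List (ℕ × Bool))
    (h : IsLongKnot ((Kind.cup, i) :: (braidWord w ++ [(Kind.cap, j)]))) :
    ∃ w' : List (Fin 2 × Bool),
      EqD 1 ((Kind.cup, i) :: (braidWord w ++ [(Kind.cap, j)])) (KW w') := by
  have hc := cnt_of_long h
  obtain ⟨h1, h2⟩ := cnt_cons_ne hc
  simp only [Kind.ins, Kind.outs] at h1 h2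
  obtain ⟨M, h3, h4⟩ := cnt_prefix h2
  obtain ⟨v, hv⟩ := braidWord_three w (by
    intro h0
    rw [show (1 : ℕ) - 0 + 2 = 3 from rfl, h0] at h3
    simp at h3)
  have hM : M = 3 := by
    rw [hv] at h3
    rw [show (1 : ℕ) - 0 + 2 = 3 from rfl, cnt_bw v] at h3
    simpa using h3.symm
  subst hM
  obtain ⟨h5, -⟩ := cnt_cons_ne h4
  simp only [Kind.ins] at h5
  rw [hv]
  have a1 : ∃ u : List (Fin 2 × Bool),
      EqD 1 ((Kind.cup, i) :: (bw v ++ [(Kind.cap, j)])) ((Kind.cup, 1) :: (bw u ++ [(Kind.cap, j)])) := by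
    have hi : i = 0 ∨ i = 1 := by omega
    rcases hi with rfl | rfl
    · refine ⟨(0, true) :: (1, true) :: v, ?_⟩
      have := nat_cup0.symm.right (bw v ++ [(Kind.cap, j)]) (by
        rw [cnt_app (show cnt 1 [(.cup, 0)] = some 3 from rfl), cnt_app (cnt_bw v)]
        simp only [cnt]
        rw [if_pos (by simp only [Kind.ins]; omega)]
        simp)
      exact this
    · exact ⟨v, EqD.refl _⟩
  obtain ⟨u, hu⟩ := a1
  have hj : j = 0 ∨ j = 1 := by omega
  rcases hj with rfl | rfl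
  · exact ⟨u, hu⟩
  · refine ⟨u ++ [(0, true), (1, true)], hu.trans ?_⟩
    have h0 : EqD 3 [(.cap, 1)] [(.crs true, 0), (.crs true, 1), (.cap, 0)] :=
      EqD.of_chk [(0, true, .r2 0 true), (1, true, .sa 0 true)] rfl
    have c : cnt 1 ((.cup, 1) :: bw u) = some 3 := cnt_bw u
    have := h0.left _ c
    simpa [KW, bw_append] using this

/-- **Every 2-bridge knot is some `K_x`.** -/
theorem nf (K : Sliced.Knot) (hK : IsTwoBridge K) : ∃ (x : List ℤ) (h : IsLongKnot (kdiag x)),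
    Even x.length ∧ (∀ a ∈ x, a ≠ 0) ∧ K = ofDiag (kdiag x) h := by
  obtain ⟨i, j, w, h, rfl⟩ := hK
  obtain ⟨w', hw'⟩ := two_bridge_KW i j w h
  have h1 := hw'.isLongKnot h
  obtain ⟨x, h2, h3, h4⟩ := nf_KW w' h1
  have h5 := hw'.trans h4
  exact ⟨x, h5.isLongKnot h, h2, h3, h5.knot h⟩

end Pool.Agent.TwoBr
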