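import Pool.Agent.TwoBr.Rev
import Pool.Agent.TB.Klk

/-!
Normal form of long 2-bridge diagrams: even continued fractions.
-/

namespace Pool.Agent.TwoBr

open Pool.Agent.LibH11 Pool.Agent.LibH11.Sliced Pool.Agent.TB

/-! ### Words of twist regions -/

/-- the word of the twist regions `y`, starting at the position `p` -/
def wordOf : Fin 2 → List ℤ → List (Fin 2 × Bool)
  | _, [] => []
  | p, a :: l => List.replicate (2 * a.natAbs) (p, decide (0 < a)) ++ wordOf (p + 1) l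

theorem bw_replicate (m : ℕ) (p : Fin 2) (e : Bool) :
    bw (List.replicate m (p, e)) = List.replicate m (Kind.crs e, (p : ℕ)) := by
  simp [bw]

theorem bw_wordOf : ∀ (y : List ℤ) (p : Fin 2), bw (wordOf p y) = twd p y := by
  intro y
  induction y with
  | nil => intro p; rfl
  | cons a l ih =>
    intro p
    rw [wordOf, bw_append, bw_replicate, ih, twd, tw]
    congr 2
    fin_cases p <;> rfl

theorem KW_wordOf (y : List ℤ) : KW (wordOf 0 y) = kdiag y := by
  rw [KW, bw_wordOf, kdiag]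
  rfl

/-- parity -/
def pl : ℕ → Fin 2
  | 0 => 0
  | n + 1 => pl n + 1

theorem fin2_add (p q : Fin 2) : p + q + q = p := by fin_cases p <;> fin_cases q <;> rfl
theorem fin2_assoc (p q r : Fin 2) : p + q + r = p + (q + r) := by
  fin_cases p <;> fin_cases q <;> fin_cases r <;> rfl
theorem fin2_comm (p q : Fin 2) : p + q = q + p := by fin_cases p <;> fin_cases q <;> rfl
theorem fin2_zero (p : Fin 2) : 0 + p = p := by fin_cases p <;> rfl
theorem fin2_zero' (p : Fin 2) : p + 0 = p := by fin_cases p <;> rfl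

theorem fin2_two (p : Fin 2) : p + 1 + 1 = p := by fin_cases p <;> rfl

theorem pl_add (m n : ℕ) : pl (m + n) = pl m + pl n := by
  induction n with
  | zero => simp [pl]
  | succ n ih => rw [← Nat.add_assoc, pl, pl, ih, fin2_assoc]

theorem pl_even {n : ℕ} (h : Even n) : pl n = 0 := by
  obtain ⟨k, rfl⟩ := h
  rw [pl_add]
  have h := fin2_add 0 (pl k)
  rwa [fin2_zero] at h

theorem pl_odd {n : ℕ} (h : ¬ Even n) : pl n = 1 := by
  rw [Nat.not_even_iff_odd] at h
  obtain ⟨k, rfl⟩ := h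
  rw [show pl (2 * k + 1) = pl (2 * k) + 1 from rfl, pl_even ⟨k, by ring⟩]
  rfl

theorem wordOf_append (x y : List ℤ) : ∀ p : Fin 2,
    wordOf p (x ++ y) = wordOf p x ++ wordOf (p + pl x.length) y := by
  induction x with
  | nil => intro p; simp [wordOf, pl]
  | cons a l ih =>
    intro p
    rw [List.cons_append, wordOf, wordOf, ih, List.append_assoc]
    congr 3
    rw [List.length_cons, pl, fin2_assoc, fin2_comm 1]

theorem rho_wordOf : ∀ (x : List ℤ) (p : Fin 2),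
    rho (wordOf p x) = wordOf (p + pl x.length) x.reverse := by
  intro x
  induction x with
  | nil => intro p; simp [wordOf, rho]
  | cons a l ih =>
    intro p
    rw [wordOf, rho_append, ih, List.reverse_cons, wordOf_append]
    congr 1
    · congr 1
      rw [List.length_cons, pl, fin2_assoc, fin2_comm 1]
    · rw [List.length_reverse, List.length_cons, pl]
      have e : p + (pl l.length + 1) + pl l.length = p + 1 := by
        rw [fin2_comm (pl l.length), ← fin2_assoc, fin2_add]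
      rw [e, wordOf, wordOf, List.append_nil]
      simp [rho]

/-- **The diagrams of a word and of the reversed word are equivalent.** -/
theorem rev_kdiag {x : List ℤ} (hx : Even x.length) : EqD 1 (kdiag x) (kdiag x.reverse) := by
  have h := rev_KW (wordOf 0 x)
  rw [rho_wordOf, pl_even hx, fin2_zero, KW_wordOf, KW_wordOf] at h
  exact h

theorem rev {x : List ℤ} (hx : Even x.length) (h : IsLongKnot (kdiag x))
    (h' : IsLongKnot (kdiag x.reverse)) : ofDiag (kdiag x) h = ofDiag (kdiag x.reverse) h' :=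
  (rev_kdiag hx).knot h

/-! ### Changing the word at its ends -/

theorem KW_congr {w w' : List (Fin 2 × Bool)} (h : wd w = wd w') : EqD 1 (KW w) (KW w') := by
  have h1 := (bw_eqd h).ctx ([(.cup, 1)] : List (Kind × ℕ)) ([(.cap, 0)] : List (Kind × ℕ)) (show cnt 1 ([(.cup, 1)] : List (Kind × ℕ)) = some 3 from rfl) (by
    rw [List.append_assoc, cnt_app (show cnt 1 ([(.cup, 1)] : List (Kind × ℕ)) = some 3 from rfl), cnt_app (cnt_bw w)]
    decide)
  simpa [KW] using h1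

/-- The diagram of a braid. -/
noncomputable def Kn (g : Br 2) : Diag := KW (rep g)

theorem Kn_wd (w : List (Fin 2 × Bool)) : EqD 1 (KW w) (Kn (wd w)) :=
  KW_congr (by rw [wd_rep])

theorem KW_cup (u w : List (Fin 2 × Bool)) (h : EqD 1 ((.cup, 1) :: bw u) ([(.cup, 1)] : List (Kind × ℕ))) :
    EqD 1 (KW (u ++ w)) (KW w) := by
  have h1 := h.right (bw w ++ ([(.cap, 0)] : List (Kind × ℕ))) (by
    have c : cnt 1 ((.cup, 1) :: bw u) = some 3 := cnt_bw u
    rw [cnt_app c, cnt_app (cnt_bw w)]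
    decide)
  simpa [KW, bw_append] using h1

theorem Kn_cup (u : List (Fin 2 × Bool)) (g : Br 2)
    (h : EqD 1 ((.cup, 1) :: bw u) ([(.cup, 1)] : List (Kind × ℕ))) : EqD 1 (Kn (wd u * g)) (Kn g) := by
  have h1 := KW_cup u (rep g) h
  have h2 := Kn_wd (u ++ rep g)
  rw [wd_append, wd_rep] at h2
  exact h2.symm.trans h1

theorem Kn_s1 (g : Br 2) : EqD 1 (Kn (sg 1 * g)) (Kn g) := by
  have h := Kn_cup [(1, true)] g (EqD.of_chk [(0, false, .u1 1 true)] rfl)
  simpa [wd] using h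

theorem Kn_s1i (g : Br 2) : EqD 1 (Kn ((sg 1)⁻¹ * g)) (Kn g) := by
  have h := Kn_s1 ((sg 1)⁻¹ * g)
  rw [mul_inv_cancel_left] at h
  exact h.symm

/-- the full twist -/
def D2 : Br 2 := sg 0 * sg 1 * sg 0 * sg 1 * sg 0 * sg 1

theorem Kn_D2 (g : Br 2) : EqD 1 (Kn (D2 * g)) (Kn g) := by
  have h := Kn_cup [(0, true), (1, true), (0, true), (1, true), (0, true), (1, true)] g
    (EqD.of_chk [(0, true, .su 0 false), (1, false, .r2 1 false), (0, false, .u1 0 true),
      (0, false, .su 0 true), (1, false, .r2 0 false), (0, false, .u1 1 true)] rfl)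
  simpa [wd, D2, mul_assoc] using h

theorem Kn_D2i (g : Br 2) : EqD 1 (Kn (D2⁻¹ * g)) (Kn g) := by
  have h := Kn_D2 (D2⁻¹ * g)
  rw [mul_inv_cancel_left] at h
  exact h.symm

theorem Kn_D2z (c : ℤ) (g : Br 2) : EqD 1 (Kn (D2 ^ c * g)) (Kn g) := by
  induction c using Int.induction_on with
  | zero => simpa using EqD.refl (Kn g)
  | succ n ih =>
    rw [zpow_add, zpow_one, mul_assoc]
    have h1 : D2 ^ (n : ℤ) * (D2 * g) = D2 * (D2 ^ (n : ℤ) * g) := by
      rw [← mul_assoc, ← mul_assoc, ← zpow_add_one, ← zpow_one_add, add_comm]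
    rw [h1]
    exact (Kn_D2 _).trans ih
  | pred n ih =>
    rw [sub_eq_add_neg, zpow_add, zpow_neg_one, mul_assoc]
    have h1 : D2 ^ (-(n : ℤ)) * (D2⁻¹ * g) = D2⁻¹ * (D2 ^ (-(n : ℤ)) * g) := by
      rw [← mul_assoc, ← mul_assoc, ← zpow_neg_one, ← zpow_add, ← zpow_add, add_comm]
    rw [h1]
    exact (Kn_D2i _).trans ih

theorem Kn_s0 (g : Br 2) : EqD 1 (Kn (g * sg 0)) (Kn g) := by
  have h0 : EqD 3 ([(.crs true, 0), (.cap, 0)] : List (Kind × ℕ)) ([(.cap, 0)] : List (Kind × ℕ)) :=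
    EqD.of_chk [(0, false, .a1 0 true)] rfl
  have c : cnt 1 ((.cup, 1) :: bw (rep g)) = some 3 := cnt_bw (rep g)
  have h1 := h0.left _ c
  have h2 := Kn_wd (rep g ++ [(0, true)])
  have e : wd (rep g ++ [(0, true)]) = g * sg 0 := by
    rw [wd_append, wd_rep]
    simp [wd]
  rw [e] at h2
  refine h2.symm.trans ?_
  simpa [KW, Kn, bw_append] using h1

theorem Kn_s0i (g : Br 2) : EqD 1 (Kn (g * (sg 0)⁻¹)) (Kn g) := by
  have h := Kn_s0 (g * (sg 0)⁻¹)
  rw [inv_mul_cancel_right] at h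
  exact h.symm

/-! ### The group of pure braids -/

theorem bb : (sg 0 * sg 1 * sg 0 : Br 2) = sg 1 * sg 0 * sg 1 := sg_braid 0 1 rfl

theorem D2_s0 : (sg 0 : Br 2) * D2 = D2 * sg 0 := by
  have h : D2 = (sg 0 * sg 1 * sg 0) * (sg 0 * sg 1 * sg 0) := by
    have : D2 = (sg 0 * sg 1 * sg 0) * (sg 1 * sg 0 * sg 1) := by
      unfold D2; group
    rw [this, ← bb]
  have k : (sg 0 : Br 2) * (sg 0 * sg 1 * sg 0) = (sg 0 * sg 1 * sg 0) * sg 1 := by
    have e : (sg 0 * (sg 1 * sg 0 * sg 1) : Br 2) = (sg 0 * sg 1 * sg 0) * sg 1 := by group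
    rw [← bb] at e
    exact e
  have k' : (sg 1 : Br 2) * (sg 0 * sg 1 * sg 0) = (sg 0 * sg 1 * sg 0) * sg 0 := by
    have e : (sg 1 * (sg 0 * sg 1 * sg 0) : Br 2) = (sg 1 * sg 0 * sg 1) * sg 0 := by group
    rw [e, ← bb]
  rw [h, ← mul_assoc, k, mul_assoc, k', ← mul_assoc]

theorem D2_s1 : (sg 1 : Br 2) * D2 = D2 * sg 1 := by
  have h : D2 = (sg 0 * sg 1 * sg 0) * (sg 0 * sg 1 * sg 0) := by
    have : D2 = (sg 0 * sg 1 * sg 0) * (sg 1 * sg 0 * sg 1) := by
      unfold D2; group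
    rw [this, ← bb]
  have k : (sg 0 : Br 2) * (sg 0 * sg 1 * sg 0) = (sg 0 * sg 1 * sg 0) * sg 1 := by
    have e : (sg 0 * (sg 1 * sg 0 * sg 1) : Br 2) = (sg 0 * sg 1 * sg 0) * sg 1 := by group
    rw [← bb] at e
    exact e
  have k' : (sg 1 : Br 2) * (sg 0 * sg 1 * sg 0) = (sg 0 * sg 1 * sg 0) * sg 0 := by
    have e : (sg 1 * (sg 0 * sg 1 * sg 0) : Br 2) = (sg 1 * sg 0 * sg 1) * sg 0 := by group
    rw [e, ← bb]
  rw [h, ← mul_assoc, k', mul_assoc, k, ← mul_assoc]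

theorem D2_wd (w : List (Fin 2 × Bool)) : wd w * D2 = D2 * wd w := by
  have h0 := D2_s0
  have h1 := D2_s1
  have h0' : (sg 0 : Br 2)⁻¹ * D2 = D2 * (sg 0)⁻¹ := by
    rw [inv_mul_eq_iff_eq_mul, ← mul_assoc, h0, mul_inv_cancel_right]
  have h1' : (sg 1 : Br 2)⁻¹ * D2 = D2 * (sg 1)⁻¹ := by
    rw [inv_mul_eq_iff_eq_mul, ← mul_assoc, h1, mul_inv_cancel_right]
  induction w with
  | nil => simp
  | cons p w ih =>
    obtain ⟨i, e⟩ := p
    rw [wd_cons, mul_assoc, ih, ← mul_assoc, ← mul_assoc]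
    congr 1
    fin_cases i <;> cases e
    · exact h0'
    · exact h0
    · exact h1'
    · exact h1

theorem D2_comm (g : Br 2) : g * D2 = D2 * g := by
  obtain ⟨w, rfl⟩ := wd_surjective g
  exact D2_wd w

theorem D2_zcomm (g : Br 2) (c : ℤ) : g * D2 ^ c = D2 ^ c * g :=
  ((show Commute g D2 from D2_comm g).zpow_right c).eq

/-- the braid of a list of twist regions -/
def W (p : Fin 2) (y : List ℤ) : Br 2 := wd (wordOf p y)

theorem wd_replicate (m : ℕ) (p : Fin 2) (e : Bool) :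
    wd (List.replicate m (p, e)) = (if e then sg p else (sg p)⁻¹) ^ m := by
  simp [wd]

theorem W_cons (p : Fin 2) (a : ℤ) (l : List ℤ) :
    W p (a :: l) = sg p ^ (2 * a) * W (p + 1) l := by
  rw [W, wordOf, wd_append, wd_replicate]
  congr 1
  by_cases ha : 0 < a
  · rw [decide_eq_true ha, if_pos rfl, ← zpow_natCast]
    congr 1
    omega
  · rw [decide_eq_false ha]
    simp only [Bool.false_eq_true, if_false]
    rw [inv_pow, ← zpow_natCast, ← zpow_neg]
    congr 1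
    omega

theorem W_nil (p : Fin 2) : W p [] = 1 := rfl

theorem W_append (p : Fin 2) (x y : List ℤ) :
    W p (x ++ y) = W p x * W (p + pl x.length) y := by
  rw [W, wordOf_append, wd_append]
  rfl

/-- appending a twist region at the end -/
theorem W_snoc (y : List ℤ) (p : Fin 2) (a : ℤ) : ∃ y', W 0 y * sg p ^ (2 * a) = W 0 y' := by
  by_cases h : (0 : Fin 2) + pl y.length = p
  · refine ⟨y ++ [a], ?_⟩
    rw [W_append, h, W_cons, W_nil, mul_one]
  · refine ⟨y ++ [0, a], ?_⟩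
    have h' : (0 : Fin 2) + pl y.length + 1 = p := by
      revert h
      generalize (0 : Fin 2) + pl y.length = q
      fin_cases p <;> fin_cases q <;> simp
    rw [W_append, W_cons, W_cons, W_nil, h', mul_zero, zpow_zero, one_mul, mul_one]

theorem W_mul (y : List ℤ) : ∀ (z : List ℤ) (p : Fin 2), ∃ y', W 0 y * W p z = W 0 y' := by
  intro z
  induction z generalizing y with
  | nil => intro p; exact ⟨y, by rw [W_nil, mul_one]⟩
  | cons a z ih =>
    intro p
    obtain ⟨y', h⟩ := W_snoc y p a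
    obtain ⟨y'', h'⟩ := ih y' (p + 1)
    exact ⟨y'', by rw [W_cons, ← mul_assoc, h, h']⟩

theorem W_inv : ∀ (z : List ℤ) (p : Fin 2), ∃ y', (W p z)⁻¹ = W 0 y' := by
  intro z
  induction z with
  | nil => intro p; exact ⟨[], by rw [W_nil, W_nil, inv_one]⟩
  | cons a z ih =>
    intro p
    obtain ⟨y', h⟩ := ih (p + 1)
    obtain ⟨y'', h'⟩ := W_snoc y' p (-a)
    refine ⟨y'', ?_⟩
    rw [W_cons, mul_inv_rev, h, ← h', ← zpow_neg]
    congr 2
    ring

/-- the pure braid group -/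
def H : Subgroup (Br 2) := Subgroup.closure {sg 0 ^ 2, sg 1 ^ 2, D2}

theorem H_form {g : Br 2} (hg : g ∈ H) : ∃ (c : ℤ) (y : List ℤ), g = D2 ^ c * W 0 y := by
  induction hg using Subgroup.closure_induction with
  | mem g hg =>
    rcases hg with rfl | rfl | rfl
    · exact ⟨0, [1], by rw [W_cons, W_nil]; simp⟩
    · exact ⟨0, [0, 1], by rw [W_cons, W_cons, W_nil]; simp⟩
    · exact ⟨1, [], by rw [W_nil]; simp⟩
  | one => exact ⟨0, [], by rw [W_nil]; simp⟩
  | mul g g' _ _ h h' =>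
    obtain ⟨c, y, rfl⟩ := h
    obtain ⟨c', y', rfl⟩ := h'
    obtain ⟨z, hz⟩ := W_mul y y' 0
    refine ⟨c + c', z, ?_⟩
    rw [← hz, zpow_add]
    calc D2 ^ c * W 0 y * (D2 ^ c' * W 0 y') = D2 ^ c * (W 0 y * D2 ^ c') * W 0 y' := by group
      _ = _ := by rw [D2_zcomm]; group
  | inv g _ h =>
    obtain ⟨c, y, rfl⟩ := h
    obtain ⟨z, hz⟩ := W_inv y 0
    refine ⟨-c, z, ?_⟩
    rw [mul_inv_rev, ← zpow_neg, D2_zcomm, hz]

theorem s0_H : (sg 0 : Br 2) ^ 2 ∈ H := Subgroup.subset_closure (by simp)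
theorem s1_H : (sg 1 : Br 2) ^ 2 ∈ H := Subgroup.subset_closure (by simp)
theorem D2_H : D2 ∈ H := Subgroup.subset_closure (by simp)

theorem D2_eq : D2 = sg 1 * sg 0 ^ 2 * (sg 1)⁻¹ * sg 1 ^ 2 * sg 0 ^ 2 := by
  have h : sg 0 * (sg 1 * sg 0 ^ 2 * (sg 1)⁻¹ * sg 1 ^ 2 * sg 0 ^ 2 : Br 2) = D2 * sg 0 := by
    have : D2 = (sg 0 * sg 1 * sg 0) * (sg 1 * sg 0 * sg 1) := by
      unfold D2; group
    rw [this, ← bb]
    simp only [pow_two]
    group
  have h2 : sg 0 * (sg 1 * sg 0 ^ 2 * (sg 1)⁻¹ * sg 1 ^ 2 * sg 0 ^ 2 : Br 2) = sg 0 * D2 := by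
    rw [h, D2_s0]
  exact (mul_left_cancel h2).symm

theorem D2_eq' : D2 = sg 0 * sg 1 ^ 2 * (sg 0)⁻¹ * sg 0 ^ 2 * sg 1 ^ 2 := by
  have h : sg 1 * (sg 0 * sg 1 ^ 2 * (sg 0)⁻¹ * sg 0 ^ 2 * sg 1 ^ 2 : Br 2) = D2 * sg 1 := by
    have : D2 = (sg 0 * sg 1 * sg 0) * (sg 1 * sg 0 * sg 1) := by
      unfold D2; group
    rw [this, bb]
    simp only [pow_two]
    group
  have h2 : sg 1 * (sg 0 * sg 1 ^ 2 * (sg 0)⁻¹ * sg 0 ^ 2 * sg 1 ^ 2 : Br 2) = sg 1 * D2 := by
    rw [h, D2_s1]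
  exact (mul_left_cancel h2).symm

theorem H_norm_of {g : Br 2} (h0 : g * sg 0 ^ 2 * g⁻¹ ∈ H) (h1 : g * sg 1 ^ 2 * g⁻¹ ∈ H)
    (hg : g ^ 2 ∈ H) : g ∈ Subgroup.normalizer H := by
  have key : ∀ x ∈ H, g * x * g⁻¹ ∈ H := by
    intro x hx
    have : H ≤ H.comap (MulAut.conj g).toMonoidHom := by
      conv_lhs => rw [H]
      rw [Subgroup.closure_le]
      rintro x (rfl | rfl | rfl)
      · exact h0
      · exact h1
      · show g * D2 * g⁻¹ ∈ H
        rw [D2_comm, mul_inv_cancel_right]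
        exact D2_H
    exact this hx
  rw [Subgroup.mem_normalizer_iff]
  intro x
  refine ⟨key x, fun hx => ?_⟩
  have h := key _ hx
  have h2 := H.mul_mem (H.mul_mem (H.inv_mem hg) h) hg
  have e : (g ^ 2)⁻¹ * (g * (g * x * g⁻¹) * g⁻¹) * g ^ 2 = x := by group
  rwa [e] at h2

instance H_normal : H.Normal := by
  rw [← Subgroup.normalizer_eq_top_iff, eq_top_iff,
    ← PresentedGroup.closure_range_of (braidRels 2), Subgroup.closure_le]
  rintro x ⟨i, rfl⟩
  fin_cases i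
  · refine H_norm_of ?_ ?_ s0_H
    · have : (sg 0 * sg 0 ^ 2 * (sg 0)⁻¹ : Br 2) = sg 0 ^ 2 := by group
      show (sg 0 * sg 0 ^ 2 * (sg 0)⁻¹ : Br 2) ∈ H
      rw [this]
      exact s0_H
    · show (sg 0 * sg 1 ^ 2 * (sg 0)⁻¹ : Br 2) ∈ H
      have : (sg 0 * sg 1 ^ 2 * (sg 0)⁻¹ : Br 2) = D2 * (sg 1 ^ 2)⁻¹ * (sg 0 ^ 2)⁻¹ := by
        rw [D2_eq']
        group
      rw [this]
      exact H.mul_mem (H.mul_mem D2_H (H.inv_mem s1_H)) (H.inv_mem s0_H)
  · refine H_norm_of ?_ ?_ s1_H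
    · show (sg 1 * sg 0 ^ 2 * (sg 1)⁻¹ : Br 2) ∈ H
      have : (sg 1 * sg 0 ^ 2 * (sg 1)⁻¹ : Br 2) = D2 * (sg 0 ^ 2)⁻¹ * (sg 1 ^ 2)⁻¹ := by
        rw [D2_eq]
        group
      rw [this]
      exact H.mul_mem (H.mul_mem D2_H (H.inv_mem s0_H)) (H.inv_mem s1_H)
    · have : (sg 1 * sg 1 ^ 2 * (sg 1)⁻¹ : Br 2) = sg 1 ^ 2 := by group
      show (sg 1 * sg 1 ^ 2 * (sg 1)⁻¹ : Br 2) ∈ H
      rw [this]
      exact s1_H

/-! ### Cosets -/

/-- the representatives of the cosets of the pure braid group -/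
theorem coset (w : List (Fin 2 × Bool)) : ∃ t ∈ ([1, sg 0, sg 1, sg 1 * sg 0, sg 0 * sg 1,
    sg 0 * sg 1 * sg 0] : List (Br 2)), (QuotientGroup.mk' H) (wd w) = (QuotientGroup.mk' H) t := by
  set φ := QuotientGroup.mk' H with hφ
  set x : Br 2 ⧸ H := φ (sg 0) with hx
  set y : Br 2 ⧸ H := φ (sg 1) with hy
  have hxx : x * x = 1 := by
    have : φ (sg 0 ^ 2) = 1 := (QuotientGroup.eq_one_iff _).2 s0_H
    rw [pow_two, map_mul] at this
    exact this
  have hyy : y * y = 1 := by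
    have : φ (sg 1 ^ 2) = 1 := (QuotientGroup.eq_one_iff _).2 s1_H
    rw [pow_two, map_mul] at this
    exact this
  have hxi : φ (sg 0)⁻¹ = x := by
    rw [map_inv]
    exact inv_eq_of_mul_eq_one_left hxx
  have hyi : φ (sg 1)⁻¹ = y := by
    rw [map_inv]
    exact inv_eq_of_mul_eq_one_left hyy
  have hb : x * y * x = y * x * y := by
    have := congrArg φ bb
    simpa only [map_mul] using this
  have e1 : φ 1 = 1 := map_one φ
  have e2 : φ (sg 1 * sg 0) = y * x := map_mul _ _ _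
  have e3 : φ (sg 0 * sg 1) = x * y := map_mul _ _ _
  have e4 : φ (sg 0 * sg 1 * sg 0) = x * y * x := by rw [map_mul, map_mul]
  have key : ∀ t ∈ ([1, sg 0, sg 1, sg 1 * sg 0, sg 0 * sg 1, sg 0 * sg 1 * sg 0] : List (Br 2)),
      (∃ t' ∈ ([1, sg 0, sg 1, sg 1 * sg 0, sg 0 * sg 1, sg 0 * sg 1 * sg 0] : List (Br 2)),
        x * φ t = φ t') ∧
      (∃ t' ∈ ([1, sg 0, sg 1, sg 1 * sg 0, sg 0 * sg 1, sg 0 * sg 1 * sg 0] : List (Br 2)),
        y * φ t = φ t') := by
    intro t ht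
    simp only [List.mem_cons, List.not_mem_nil, or_false] at ht
    rcases ht with rfl | rfl | rfl | rfl | rfl | rfl
    · exact ⟨⟨sg 0, by simp, by rw [e1, mul_one]⟩, ⟨sg 1, by simp, by rw [e1, mul_one]⟩⟩
    · exact ⟨⟨1, by simp, by rw [e1]; exact hxx⟩, ⟨sg 1 * sg 0, by simp, by rw [e2]⟩⟩
    · exact ⟨⟨sg 0 * sg 1, by simp, by rw [e3]⟩, ⟨1, by simp, by rw [e1]; exact hyy⟩⟩
    · refine ⟨⟨sg 0 * sg 1 * sg 0, by simp, by rw [e2, e4, mul_assoc]⟩, ⟨sg 0, by simp, ?_⟩⟩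
      rw [e2, ← mul_assoc, hyy, one_mul]
    · refine ⟨⟨sg 1, by simp, ?_⟩, ⟨sg 0 * sg 1 * sg 0, by simp, ?_⟩⟩
      · rw [e3, ← mul_assoc, hxx, one_mul]
      · rw [e3, e4, hb, mul_assoc]
    · refine ⟨⟨sg 1 * sg 0, by simp, ?_⟩, ⟨sg 0 * sg 1, by simp, ?_⟩⟩
      · rw [e4, e2, mul_assoc x y x, ← mul_assoc x x, hxx, one_mul]
      · rw [e4, e3, hb, mul_assoc y x y, ← mul_assoc y y, hyy, one_mul]
  induction w with
  | nil => exact ⟨1, by simp, by rw [wd_nil]⟩
  | cons p w ih =>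
    obtain ⟨t, ht, h⟩ := ih
    obtain ⟨⟨t1, h1, h1'⟩, ⟨t2, h2, h2'⟩⟩ := key t ht
    obtain ⟨i, e⟩ := p
    rw [wd_cons, map_mul, h]
    fin_cases i
    · refine ⟨t1, h1, ?_⟩
      rw [← h1']
      congr 1
      cases e
      · exact hxi
      · rfl
    · refine ⟨t2, h2, ?_⟩
      rw [← h2']
      congr 1
      cases e
      · exact hyi
      · rfl

/-- The diagram of a pure braid. -/
theorem Kn_pure {h : Br 2} (hh : h ∈ H) (t : List (Fin 2 × Bool)) :
    ∃ y : List ℤ, EqD 1 (Kn (h * wd t)) (KW (wordOf 0 y ++ t)) := by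
  obtain ⟨c, y, rfl⟩ := H_form hh
  refine ⟨y, ?_⟩
  rw [mul_assoc]
  refine (Kn_D2z c _).trans ?_
  have h2 := Kn_wd (wordOf 0 y ++ t)
  rw [wd_append] at h2
  exact h2.symm

theorem run_pure (y : List ℤ) (lab : ℕ → ℕ) (c : ℕ) :
    run (bw (wordOf 0 y)) (3, lab, c) = some (3, lab, c) := by
  rw [bw_wordOf]
  exact KLK.run_twd lab c y 0 (by omega)

theorem not_long (y : List ℤ) : ¬ IsLongKnot (KW (wordOf 0 y ++ [(0, true), (1, true)])) := by
  rintro ⟨lab, c, h⟩
  have h1 : KW (wordOf 0 y ++ [(0, true), (1, true)]) =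
      ([(.cup, 1)] : List (Kind × ℕ)) ++ (bw (wordOf 0 y) ++ ([(.crs true, 0), (.crs true, 1), (.cap, 0)] : List (Kind × ℕ))) := by
    simp [KW, bw_append]
  rw [h1, run_append] at h
  simp only [run, step] at h
  rw [if_pos (le_refl 1)] at h
  simp only [Option.bind_some] at h
  rw [run_append, run_pure] at h
  simp only [Option.bind_some, run, step] at h
  rw [if_pos (by norm_num)] at h
  simp only [Option.bind_some] at h
  rw [if_pos (by norm_num)] at h
  simp only [Option.bind_some] at h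
  rw [if_neg] at h
  · simp at h
  · rintro ⟨-, h2⟩
    apply h2
    decide

/-- Every long knot diagram `KW w` is equivalent to some `kdiag y`. -/
theorem nf1 (w : List (Fin 2 × Bool)) (hw : IsLongKnot (KW w)) :
    ∃ y : List ℤ, EqD 1 (KW w) (kdiag y) := by
  obtain ⟨t, ht, h⟩ := coset w
  have h1 : wd w * t⁻¹ ∈ H := by
    have : (QuotientGroup.mk' H) (wd w * t⁻¹) = 1 := by
      rw [map_mul, map_inv, h, mul_inv_cancel]
    exact (QuotientGroup.eq_one_iff _).1 this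
  set k := wd w * t⁻¹ with hk
  have h2 : wd w = k * t := by rw [hk, inv_mul_cancel_right]
  have h3 : EqD 1 (KW w) (Kn (k * t)) := by
    rw [← h2]
    exact Kn_wd w
  have pure : ∀ g ∈ H, ∃ y : List ℤ, EqD 1 (Kn g) (kdiag y) := by
    intro g hg
    obtain ⟨y, hy⟩ := Kn_pure hg []
    rw [wd_nil, mul_one, List.append_nil, KW_wordOf] at hy
    exact ⟨y, hy⟩
  have bad : ∀ g ∈ H, ¬ EqD 1 (KW w) (Kn (g * (sg 0 * sg 1))) := by
    intro g hg he
    obtain ⟨y, hy⟩ := Kn_pure hg [(0, true), (1, true)]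
    have e : wd [((0 : Fin 2), true), (1, true)] = (sg 0 * sg 1 : Br 2) := by simp [wd]
    rw [e] at hy
    exact not_long y ((he.trans hy).isLongKnot hw)
  simp only [List.mem_cons, List.not_mem_nil, or_false] at ht
  have hs1 : ∀ g ∈ H, (sg 1)⁻¹ * g * sg 1 ∈ H := by
    intro g hg
    have := H_normal.conj_mem g hg (sg 1)⁻¹
    simpa using this
  have hs1' : ∀ g ∈ H, ∃ y : List ℤ, EqD 1 (Kn (g * sg 1)) (kdiag y) := by
    intro g hg
    obtain ⟨y, hy⟩ := pure _ (hs1 g hg)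
    refine ⟨y, EqD.trans ?_ hy⟩
    have h4 := Kn_s1 ((sg 1)⁻¹ * g * sg 1)
    have e : sg 1 * ((sg 1)⁻¹ * g * sg 1) = g * sg 1 := by group
    rw [e] at h4
    exact h4
  rcases ht with rfl | rfl | rfl | rfl | rfl | rfl
  · rw [mul_one] at h3
    obtain ⟨y, hy⟩ := pure k h1
    exact ⟨y, h3.trans hy⟩
  · obtain ⟨y, hy⟩ := pure k h1
    exact ⟨y, h3.trans ((Kn_s0 k).trans hy)⟩
  · obtain ⟨y, hy⟩ := hs1' k h1
    exact ⟨y, h3.trans hy⟩
  · obtain ⟨y, hy⟩ := hs1' k h1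
    rw [← mul_assoc] at h3
    exact ⟨y, h3.trans ((Kn_s0 _).trans hy)⟩
  · exact absurd h3 (bad k h1)
  · rw [← mul_assoc] at h3
    exact absurd (h3.trans (Kn_s0 _)) (bad k h1)

/-- `kdiag` depends only on the braid. -/
theorem kdiag_congr {x y : List ℤ} (h : W 0 x = W 0 y) : EqD 1 (kdiag x) (kdiag y) := by
  rw [← KW_wordOf, ← KW_wordOf]
  exact KW_congr h

theorem kdiag_W (x : List ℤ) : EqD 1 (kdiag x) (Kn (W 0 x)) := by
  rw [← KW_wordOf]
  exact Kn_wd _

theorem Kn_s1z (c : ℤ) (g : Br 2) : EqD 1 (Kn (sg 1 ^ c * g)) (Kn g) := by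
  induction c using Int.induction_on with
  | zero => simpa using EqD.refl (Kn g)
  | succ n ih =>
    have h1 : (sg 1 : Br 2) ^ ((n : ℤ) + 1) * g = sg 1 * (sg 1 ^ (n : ℤ) * g) := by
      rw [← mul_assoc, ← zpow_one_add, add_comm]
    rw [h1]
    exact (Kn_s1 _).trans ih
  | pred n ih =>
    have h1 : (sg 1 : Br 2) ^ (-(n : ℤ) - 1) * g = (sg 1)⁻¹ * (sg 1 ^ (-(n : ℤ)) * g) := by
      rw [← mul_assoc, ← zpow_neg_one, ← zpow_add]
      congr 2
      ring
    rw [h1]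
    exact (Kn_s1i _).trans ih

theorem Kn_s0z (c : ℤ) (g : Br 2) : EqD 1 (Kn (g * sg 0 ^ c)) (Kn g) := by
  induction c using Int.induction_on with
  | zero => simpa using EqD.refl (Kn g)
  | succ n ih =>
    have h1 : g * (sg 0 : Br 2) ^ ((n : ℤ) + 1) = (g * sg 0 ^ (n : ℤ)) * sg 0 := by
      rw [zpow_add_one, mul_assoc]
    rw [h1]
    exact (Kn_s0 _).trans ih
  | pred n ih =>
    have h1 : g * (sg 0 : Br 2) ^ (-(n : ℤ) - 1) = (g * sg 0 ^ (-(n : ℤ))) * (sg 0)⁻¹ := by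
      rw [zpow_sub_one, mul_assoc]
    rw [h1]
    exact (Kn_s0i _).trans ih

/-- All entries can be made nonzero, and their number even. -/
theorem nf2 : ∀ (n : ℕ) (y : List ℤ), y.length ≤ n →
    ∃ x : List ℤ, Even x.length ∧ (∀ a ∈ x, a ≠ 0) ∧ EqD 1 (kdiag y) (kdiag x) := by
  intro n
  induction n with
  | zero =>
    intro y hy
    have : y = [] := List.length_eq_zero_iff.1 (by omega)
    subst this
    exact ⟨[], by simp, by simp, EqD.refl _⟩
  | succ n ih =>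
    intro y hy
    by_cases hev : Even y.length
    · by_cases hz : ∃ a ∈ y, a = 0
      · obtain ⟨a, ha, rfl⟩ := hz
        obtain ⟨u, v, rfl⟩ := List.append_of_mem ha
        rcases v with _ | ⟨b, v⟩
        · -- the last entry is zero
          obtain ⟨x, h1, h2, h3⟩ := ih u (by simp at hy; omega)
          refine ⟨x, h1, h2, EqD.trans (kdiag_congr ?_) h3⟩
          rw [W_append, W_cons, W_nil, mul_zero, zpow_zero, mul_one, mul_one]
        · rcases List.eq_nil_or_concat u with rfl | ⟨u, a, rfl⟩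
          · -- the first entry is zero
            obtain ⟨x, h1, h2, h3⟩ := ih v (by simp at hy; omega)
            refine ⟨x, h1, h2, EqD.trans ?_ h3⟩
            refine (kdiag_W _).trans (EqD.trans ?_ (kdiag_W v).symm)
            rw [List.nil_append, W_cons, W_cons, mul_zero, zpow_zero, one_mul, fin2_two]
            exact Kn_s1z _ _
          · obtain ⟨x, h1, h2, h3⟩ := ih (u ++ (a + b) :: v) (by simp at hy ⊢; omega)
            refine ⟨x, h1, h2, EqD.trans (kdiag_congr ?_) h3⟩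
            have e : (u.concat a) ++ 0 :: b :: v = u ++ (a :: 0 :: b :: v) := by simp
            rw [e, W_append, W_append]
            congr 1
            rw [W_cons, W_cons, W_cons, W_cons, mul_zero, zpow_zero, one_mul, fin2_two,
              ← mul_assoc, ← zpow_add, mul_add]
      · exact ⟨y, hev, fun a ha h0 => hz ⟨a, ha, h0⟩, EqD.refl _⟩
    · rcases List.eq_nil_or_concat y with rfl | ⟨u, a, rfl⟩
      · exact absurd (by simp) hev
      · obtain ⟨x, h1, h2, h3⟩ := ih u (by simp at hy; omega)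
        refine ⟨x, h1, h2, EqD.trans ?_ h3⟩
        refine (kdiag_W _).trans (EqD.trans ?_ (kdiag_W u).symm)
        have hu : Even u.length := by
          by_contra hu
          apply hev
          rw [List.length_concat]
          rw [Nat.not_even_iff_odd] at hu
          exact hu.add_one
        rw [List.concat_eq_append, W_append, pl_even hu, W_cons, W_nil, mul_one]
        exact Kn_s0z _ _

/-- **Normal form of long 2-bridge diagrams.** -/
theorem nf_KW (w : List (Fin 2 × Bool)) (hw : IsLongKnot (KW w)) :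
    ∃ x : List ℤ, Even x.length ∧ (∀ a ∈ x, a ≠ 0) ∧ EqD 1 (KW w) (kdiag x) := by
  obtain ⟨y, hy⟩ := nf1 w hw
  obtain ⟨x, h1, h2, h3⟩ := nf2 y.length y le_rfl
  exact ⟨x, h1, h2, hy.trans h3⟩

end Pool.Agent.TwoBr
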