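import Pool.Agent.TwoBr.Rev

/-!
A long knot diagram with at most one minimum is equivalent to a diagram
`cup 1, (a word in the two crossings of three strands), cap 0`.
-/

namespace Pool.Agent.TwoBr

open Pool.Agent.LibH11 Pool.Agent.LibH11.Sliced

/-- The number of minima of a diagram. -/
def minima : Diag → ℕ
  | [] => 0
  | (.cup, _) :: w => minima w + 1
  | (.cap, _) :: w => minima w
  | (.crs _, _) :: w => minima w

theorem one_strand : ∀ (w : Diag), minima w = 0 → cnt 1 w = some 1 → w = [] := by
  intro w h0 hc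
  match w with
  | [] => rfl
  | (.cup, i) :: w => simp [minima] at h0
  | (.cap, i) :: w =>
    simp only [cnt, Kind.ins] at hc
    rw [if_neg (by omega)] at hc
    simp at hc
  | (.crs e, i) :: w =>
    simp only [cnt, Kind.ins] at hc
    rw [if_neg (by omega)] at hc
    simp at hc

theorem three_strands : ∀ (w : Diag), minima w = 0 → cnt 3 w = some 1 →
    ∃ (u : List (Fin 2 × Bool)) (j : ℕ), j ≤ 1 ∧ w = bw u ++ ([(.cap, j)] : List (Kind × ℕ)) := by
  intro w
  induction w with
  | nil => intro _ h; simp [cnt] at h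
  | cons p w ih =>
    intro h0 hc
    obtain ⟨k, i⟩ := p
    cases k with
    | cup => simp [minima] at h0
    | cap =>
      simp only [cnt, Kind.ins, Kind.outs] at hc
      split_ifs at hc with h1
      have := one_strand w h0 hc
      exact ⟨[], i, by omega, by rw [this]; rfl⟩
    | crs e =>
      simp only [cnt, Kind.ins, Kind.outs] at hc
      split_ifs at hc with h1
      obtain ⟨u, j, hj, hw⟩ := ih h0 hc
      exact ⟨(⟨i, by omega⟩, e) :: u, j, hj, by rw [hw]; rfl⟩

theorem cup0_eqd : EqD 1 ([(.cup, 0)] : List (Kind × ℕ)) ([(.cup, 1), (.crs true, 0), (.crs true, 1)] : List (Kind × ℕ)) := nat_cup0.symm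

theorem cap1_eqd : EqD 3 ([(.cap, 1)] : List (Kind × ℕ)) ([(.crs true, 0), (.crs true, 1), (.cap, 0)] : List (Kind × ℕ)) :=
  EqD.symm (EqD.of_chk [(1, false, .sa 0 true), (0, false, .r2 0 true)] rfl)

theorem eqd_KW (w : Diag) (hm : minima w ≤ 1) (hc : cnt 1 w = some 1) :
    ∃ u : List (Fin 2 × Bool), EqD 1 w (KW u) := by
  match w with
  | [] =>
    refine ⟨[], ?_⟩
    exact EqD.symm (EqD.move (Move.zagzig 0) (by decide) (by decide))
  | (.cap, i) :: w =>
    simp only [cnt, Kind.ins] at hc
    rw [if_neg (by omega)] at hc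
    simp at hc
  | (.crs e, i) :: w =>
    simp only [cnt, Kind.ins] at hc
    rw [if_neg (by omega)] at hc
    simp at hc
  | (.cup, i) :: w =>
    simp only [minima] at hm
    simp only [cnt, Kind.ins, Kind.outs] at hc
    split_ifs at hc with h1
    obtain ⟨u, j, hj, rfl⟩ := three_strands w (by omega) hc
    -- the maximum
    obtain ⟨u1, h2⟩ : ∃ u1 : List (Fin 2 × Bool), EqD 3 (bw u ++ ([(.cap, j)] : List (Kind × ℕ)))
        (bw u1 ++ ([(.cap, 0)] : List (Kind × ℕ))) := by
      rcases Nat.eq_zero_or_pos j with rfl | hj0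
      · exact ⟨u, EqD.refl _⟩
      · obtain rfl : j = 1 := by omega
        refine ⟨u ++ [(0, true), (1, true)], ?_⟩
        have := cap1_eqd.left (bw u) (cnt_bw u)
        rw [bw_append, List.append_assoc]
        exact this
    rcases Nat.eq_zero_or_pos i with rfl | hi0
    · refine ⟨[(0, true), (1, true)] ++ u1, ?_⟩
      have h3 : EqD 1 (([(.cup, 0)] : List (Kind × ℕ)) ++ (bw u ++ ([(.cap, j)] : List (Kind × ℕ)))) (([(.cup, 0)] : List (Kind × ℕ)) ++ (bw u1 ++ ([(.cap, 0)] : List (Kind × ℕ)))) :=
        h2.left ([(.cup, 0)] : List (Kind × ℕ)) rfl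
      have h4 := cup0_eqd.right (bw u1 ++ ([(.cap, 0)] : List (Kind × ℕ))) (by
        show cnt 3 (bw u1 ++ ([(.cap, 0)] : List (Kind × ℕ))) ≠ none
        rw [cnt_app (cnt_bw u1)]
        decide)
      refine EqD.trans h3 (EqD.trans h4 (EqD.of_eq ?_))
      rfl
    · obtain rfl : i = 1 := by omega
      refine ⟨u1, ?_⟩
      exact h2.left ([(.cup, 1)] : List (Kind × ℕ)) rfl

/-- Reduction of a long knot diagram with at most one minimum. -/
theorem one_min {w : Diag} (h : IsLongKnot w) (hm : minima w ≤ 1) :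
    ∃ u : List (Fin 2 × Bool), EqD 1 w (KW u) := by
  obtain ⟨lab, c, hr⟩ := h
  exact eqd_KW w hm (run_cnt _ _ _ hr)

theorem minima_append (u v : Diag) : minima (u ++ v) = minima u + minima v := by
  induction u with
  | nil => simp [minima]
  | cons p u ih =>
    obtain ⟨k, i⟩ := p
    cases k <;> simp [minima, ih] <;> omega

theorem minima_bw {n : ℕ} (u : List (Fin n × Bool)) : minima (bw u) = 0 := by
  induction u with
  | nil => rfl
  | cons p u ih => simpa [minima] using ih

theorem minima_KW (u : List (Fin 2 × Bool)) : minima (KW u) = 1 := by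
  show minima (bw u ++ ([(.cap, 0)] : List (Kind × ℕ))) + 1 = 1
  rw [minima_append, minima_bw]
  rfl

/-- Knots with a long diagram with at most one minimum are the knots of the diagrams `KW u`. -/
theorem knot_one_min {w : Diag} (h : IsLongKnot w) (hm : minima w ≤ 1) :
    ∃ (u : List (Fin 2 × Bool)) (h' : IsLongKnot (KW u)), ofDiag w h = ofDiag (KW u) h' := by
  obtain ⟨u, hu⟩ := one_min h hm
  exact ⟨u, hu.isLongKnot h, hu.knot h⟩

end Pool.Agent.TwoBr
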