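import Pool.Agent.TwoBr.Cert

/-!
Sliced diagrams: equal braids give equivalent diagrams.
-/

namespace Pool.Agent.TwoBr

open Pool.Agent.LibH11 Pool.Agent.LibH11.Sliced

/-- The congruence of words with equivalent diagrams. -/
def brCon (n : ℕ) : Con (FreeMonoid (Fin n × Bool)) where
  r x y := EqD (n + 1) (bw x.toList) (bw y.toList)
  iseqv := ⟨fun _ => EqD.refl _, fun h => h.symm, fun h h' => h.trans h'⟩
  mul' := by
    intro x y x' y' h1 h2
    rw [FreeMonoid.toList_mul, FreeMonoid.toList_mul, bw_append, bw_append]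
    refine (h1.right (bw x'.toList) ?_).trans (h2.left (bw y.toList) (cnt_bw _))
    rw [← bw_append, cnt_bw]
    simp

theorem brCon_iff {n : ℕ} (x y : List (Fin n × Bool)) :
    brCon n (FreeMonoid.ofList x) (FreeMonoid.ofList y) ↔ EqD (n + 1) (bw x) (bw y) := Iff.rfl

theorem brCon_r2 {n : ℕ} (i : Fin n) (e : Bool) :
    brCon n (FreeMonoid.of (i, e) * FreeMonoid.of (i, !e)) 1 := by
  have hi := i.isLt
  show EqD (n + 1) [(.crs e, (i : ℕ)), (.crs (!e), (i : ℕ))] []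
  refine EqD.move (Move.r2 i e) ?_ ?_
  · simp only [cnt]
    rw [if_pos (by simp only [Kind.ins]; omega), if_pos (by simp only [Kind.ins, Kind.outs]; omega)]
    simp
  · simp [cnt]

theorem brCon_far {n : ℕ} (i j : Fin n) (h : (i : ℕ) + 2 ≤ j) :
    brCon n (FreeMonoid.of (i, true) * FreeMonoid.of (j, true))
      (FreeMonoid.of (j, true) * FreeMonoid.of (i, true)) := by
  have hi := i.isLt
  have hj := j.isLt
  have hm := Move.far (.crs true) (.crs true) i (j - (i + 2))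
  have e : (i : ℕ) + 2 + (j - (i + 2)) = j := by omega
  simp only [Kind.outs, Kind.ins, e] at hm
  show EqD (n + 1) [(.crs true, (i : ℕ)), (.crs true, (j : ℕ))]
    [(.crs true, (j : ℕ)), (.crs true, (i : ℕ))]
  refine EqD.move hm ?_ ?_
  · simp only [cnt]
    rw [if_pos (by simp only [Kind.ins]; omega), if_pos (by simp only [Kind.ins, Kind.outs]; omega)]
    simp
  · simp only [cnt]
    rw [if_pos (by simp only [Kind.ins]; omega), if_pos (by simp only [Kind.ins, Kind.outs]; omega)]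
    simp

theorem brCon_braid {n : ℕ} (i j : Fin n) (h : (i : ℕ) + 1 = j) :
    brCon n (FreeMonoid.of (i, true) * FreeMonoid.of (j, true) * FreeMonoid.of (i, true))
      (FreeMonoid.of (j, true) * FreeMonoid.of (i, true) * FreeMonoid.of (j, true)) := by
  have hi := i.isLt
  have hj := j.isLt
  show EqD (n + 1) [(.crs true, (i : ℕ)), (.crs true, (j : ℕ)), (.crs true, (i : ℕ))]
    [(.crs true, (j : ℕ)), (.crs true, (i : ℕ)), (.crs true, (j : ℕ))]
  rw [← h]
  refine EqD.move (Move.r3 i) ?_ ?_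
  · simp only [cnt]
    rw [if_pos (by simp only [Kind.ins]; omega), if_pos (by simp only [Kind.ins, Kind.outs]; omega),
      if_pos (by simp only [Kind.ins, Kind.outs]; omega)]
    simp
  · simp only [cnt]
    rw [if_pos (by simp only [Kind.ins]; omega), if_pos (by simp only [Kind.ins, Kind.outs]; omega),
      if_pos (by simp only [Kind.ins, Kind.outs]; omega)]
    simp

/-- The generators as units of the quotient monoid. -/
def brUnit {n : ℕ} (i : Fin n) : (brCon n).Quotientˣ where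
  val := ((FreeMonoid.of (i, true) : FreeMonoid (Fin n × Bool)) : (brCon n).Quotient)
  inv := ((FreeMonoid.of (i, false) : FreeMonoid (Fin n × Bool)) : (brCon n).Quotient)
  val_inv := by
    rw [← Con.coe_mul, ← Con.coe_one]
    exact (Con.eq _).mpr (brCon_r2 i true)
  inv_val := by
    rw [← Con.coe_mul, ← Con.coe_one]
    exact (Con.eq _).mpr (brCon_r2 i false)

/-- The braid group acts through the quotient monoid. -/
def brHom (n : ℕ) : Br n →* (brCon n).Quotientˣ :=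
  liftBr brUnit
    (by
      intro i j h
      ext
      simp only [Units.val_mul, brUnit]
      rw [← Con.coe_mul, ← Con.coe_mul]
      exact (Con.eq _).mpr (brCon_far i j h))
    (by
      intro i j h
      ext
      simp only [Units.val_mul, brUnit]
      rw [← Con.coe_mul, ← Con.coe_mul, ← Con.coe_mul, ← Con.coe_mul]
      exact (Con.eq _).mpr (brCon_braid i j h))

theorem brHom_wd {n : ℕ} (x : List (Fin n × Bool)) :
    ((brHom n (wd x) : (brCon n).Quotientˣ) : (brCon n).Quotient) =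
      ((FreeMonoid.ofList x : FreeMonoid (Fin n × Bool)) : (brCon n).Quotient) := by
  induction x with
  | nil => simp
  | cons p x ih =>
    obtain ⟨i, e⟩ := p
    rw [wd_cons, map_mul, Units.val_mul, ih, FreeMonoid.ofList_cons, Con.coe_mul]
    congr 1
    cases e
    · simp [brHom, brUnit]
    · simp [brHom, brUnit]

/-- **Equal braids have equivalent diagrams.** -/
theorem bw_eqd {n : ℕ} {x y : List (Fin n × Bool)} (h : wd x = wd y) :
    EqD (n + 1) (bw x) (bw y) := by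
  have h1 : ((FreeMonoid.ofList x : FreeMonoid (Fin n × Bool)) : (brCon n).Quotient) =
      ((FreeMonoid.ofList y : FreeMonoid (Fin n × Bool)) : (brCon n).Quotient) := by
    rw [← brHom_wd, ← brHom_wd, h]
  exact (Con.eq _).mp h1

/-! ### Four strands with two parallel minima -/

/-- The relations of the normal closure of `σ_0 σ_2⁻¹`, in any group. -/
theorem conj1 {G : Type*} [Group G] {x y z : G} (h1 : x * y * x = y * x * y)
    (h2 : y * z * y = z * y * z) :
    x * (y * (x * z⁻¹) * y⁻¹) * x⁻¹ = (y * (x * z⁻¹) * y⁻¹) * (x * z⁻¹)⁻¹ := by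
  have e1 : y * z⁻¹ * y⁻¹ = z⁻¹ * y⁻¹ * z := by
    rw [mul_inv_eq_iff_eq_mul, eq_comm]
    have : z * (z⁻¹ * y⁻¹ * z * y) * z = z * (y * z⁻¹) * z := by
      have e2 : z * (z⁻¹ * y⁻¹ * z * y) * z = y⁻¹ * (z * y * z) := by group
      rw [e2, ← h2]
      group
    exact mul_left_cancel (mul_right_cancel this)
  have e3 : x * (y * (x * z⁻¹) * y⁻¹) * x⁻¹ = (x * y * x) * z⁻¹ * y⁻¹ * x⁻¹ := by group
  have e4 : (y * x * y) * z⁻¹ * y⁻¹ * x⁻¹ = y * x * (y * z⁻¹ * y⁻¹) * x⁻¹ := by group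
  rw [e3, h1, e4, e1]
  group

theorem conj2 {G : Type*} [Group G] {x y z : G} (h1 : x * y * x = y * x * y)
    (h2 : y * z * y = z * y * z) (h3 : x * z = z * x) :
    y * (y * (x * z⁻¹) * y⁻¹) * y⁻¹ =
      (y * (x * z⁻¹) * y⁻¹) * (x * z⁻¹)⁻¹ * (y * (x * z⁻¹) * y⁻¹) := by
  have e1 : z⁻¹ * y⁻¹ * z = y * z⁻¹ * y⁻¹ := by
    rw [eq_comm, mul_inv_eq_iff_eq_mul, eq_comm]
    have : z * (z⁻¹ * y⁻¹ * z * y) * z = z * (y * z⁻¹) * z := by
      have e2 : z * (z⁻¹ * y⁻¹ * z * y) * z = y⁻¹ * (z * y * z) := by group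
      rw [e2, ← h2]
      group
    exact mul_left_cancel (mul_right_cancel this)
  have e2 : x⁻¹ * y * x = y * x * y⁻¹ := by
    rw [eq_mul_inv_iff_mul_eq]
    have : x⁻¹ * y * x * y = x⁻¹ * (y * x * y) := by group
    rw [this, ← h1]
    group
  have e3 : z⁻¹ * x = x * z⁻¹ := by
    rw [inv_mul_eq_iff_eq_mul, ← mul_assoc, ← h3]
    group
  have e4 : y⁻¹ * z⁻¹ * y⁻¹ = z⁻¹ * y⁻¹ * z⁻¹ := by
    have : (y * z * y)⁻¹ = (z * y * z)⁻¹ := by rw [h2]
    simpa [mul_assoc] using this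
  calc y * (y * (x * z⁻¹) * y⁻¹) * y⁻¹ = y * (y * x * z⁻¹ * y⁻¹) * y⁻¹ := by group
    _ = y * (x * y * (z⁻¹ * x) * y⁻¹ * z⁻¹) * y⁻¹ := by
        congr 2
        rw [e3]
        have : x * y * (x * z⁻¹) * y⁻¹ * z⁻¹ = (x * y * x) * (z⁻¹ * y⁻¹ * z⁻¹) := by group
        rw [this, h1, ← e4]
        group
    _ = y * (x * (y * z⁻¹ * y⁻¹) * (y * x * y⁻¹) * z⁻¹) * y⁻¹ := by group
    _ = y * (x * (z⁻¹ * y⁻¹ * z) * (x⁻¹ * y * x) * z⁻¹) * y⁻¹ := by rw [← e1, ← e2]
    _ = _ := by group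

/-- two parallel minima -/
def C2 : Diag := [(.cup, 0), (.cup, 2)]

theorem cnt_C2 : cnt 0 C2 = some 4 := rfl

/-- The stabiliser of the two parallel minima. -/
def stab : Subgroup (Br 3) where
  carrier := {g | ∀ x : List (Fin 3 × Bool), wd x = g → EqD 0 (C2 ++ bw x) C2}
  one_mem' := by
    intro x hx
    have h := (bw_eqd (x := x) (y := []) (by rw [hx, wd_nil])).left C2 cnt_C2
    simpa using h
  mul_mem' := by
    intro g h hg hh x hx
    have h1 := (bw_eqd (x := x) (y := rep g ++ rep h)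
      (by rw [hx, wd_append, wd_rep, wd_rep])).left C2 cnt_C2
    refine h1.trans ?_
    rw [bw_append, ← List.append_assoc]
    refine ((hg (rep g) (wd_rep g)).right (bw (rep h)) ?_).trans (hh (rep h) (wd_rep h))
    rw [List.append_assoc, ← bw_append, cnt_app cnt_C2, cnt_bw]
    simp
  inv_mem' := by
    intro g hg x hx
    have h1 : EqD 0 (C2 ++ bw (rep g) ++ bw x) C2 := by
      have h2 := (bw_eqd (x := rep g ++ x) (y := [])
        (by rw [wd_append, hx, wd_rep, wd_nil, mul_inv_cancel])).left C2 cnt_C2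
      rw [bw_append, ← List.append_assoc] at h2
      simpa using h2
    refine EqD.trans ?_ h1
    refine ((hg (rep g) (wd_rep g)).symm).right (bw x) ?_
    rw [cnt_app cnt_C2, cnt_bw]
    simp

/-- `σ_0 σ_2⁻¹` -/
def ea : Br 3 := sg 0 * (sg 2)⁻¹
/-- its conjugate by `σ_1` -/
def eb : Br 3 := sg 1 * ea * (sg 1)⁻¹

theorem ea_mem : ea ∈ stab := by
  intro x hx
  have h := (bw_eqd (x := x) (y := [(0, true), (2, false)]) (by
    rw [hx]; simp [ea, wd])).left C2 cnt_C2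
  exact h.trans st_a

theorem eb_mem : eb ∈ stab := by
  intro x hx
  have h := (bw_eqd (x := x) (y := [(1, true), (0, true), (2, false), (1, false)]) (by
    rw [hx]; simp [eb, ea, wd, mul_assoc])).left C2 cnt_C2
  exact h.trans st_b

/-- The subgroup generated by `ea` and `eb`. -/
def nrm : Subgroup (Br 3) := Subgroup.closure {ea, eb}

theorem nrm_le : nrm ≤ stab := by
  rw [nrm, Subgroup.closure_le]
  rintro x (rfl | rfl)
  · exact ea_mem
  · exact eb_mem

theorem ea_nrm : ea ∈ nrm := Subgroup.subset_closure (Or.inl rfl)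
theorem eb_nrm : eb ∈ nrm := Subgroup.subset_closure (Or.inr rfl)

theorem norm_of {g : Br 3} (h1 : g * ea * g⁻¹ ∈ nrm) (h2 : g * eb * g⁻¹ ∈ nrm)
    (h3 : g⁻¹ * ea * g ∈ nrm) (h4 : g⁻¹ * eb * g ∈ nrm) : g ∈ Subgroup.normalizer nrm := by
  have key : ∀ k : Br 3, k * ea * k⁻¹ ∈ nrm → k * eb * k⁻¹ ∈ nrm → ∀ x ∈ nrm, k * x * k⁻¹ ∈ nrm := by
    intro k hk1 hk2 x hx
    have : nrm ≤ nrm.comap (MulAut.conj k).toMonoidHom := by
      conv_lhs => rw [nrm]
      rw [Subgroup.closure_le]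
      rintro x (rfl | rfl)
      · exact hk1
      · exact hk2
    exact this hx
  rw [Subgroup.mem_normalizer_iff]
  intro x
  constructor
  · exact key g h1 h2 x
  · intro hx
    have := key g⁻¹ (by simpa using h3) (by simpa using h4) _ hx
    have e : g⁻¹ * (g * x * g⁻¹) * g⁻¹⁻¹ = x := by group
    rwa [e] at this

theorem b01 : (sg 0 * sg 1 * sg 0 : Br 3) = sg 1 * sg 0 * sg 1 := sg_braid 0 1 rfl
theorem b12 : (sg 1 * sg 2 * sg 1 : Br 3) = sg 2 * sg 1 * sg 2 := sg_braid 1 2 rfl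
theorem c02 : (sg 0 * sg 2 : Br 3) = sg 2 * sg 0 := sg_comm 0 2 (by decide)

theorem sg0_norm : (sg 0 : Br 3) ∈ Subgroup.normalizer nrm := by
  have h1 : (sg 0 * ea * (sg 0)⁻¹ : Br 3) = ea := by
    unfold ea
    rw [mul_inv_eq_iff_eq_mul, mul_assoc (sg 0) (sg 2)⁻¹]
    congr 1
    rw [eq_inv_mul_iff_mul_eq, ← mul_assoc, ← c02]
    group
  have h2 : (sg 0 * eb * (sg 0)⁻¹ : Br 3) = eb * ea⁻¹ := conj1 b01 b12
  have h3 : ((sg 0)⁻¹ * ea * sg 0 : Br 3) = ea := by
    conv_lhs => rw [← h1]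
    group
  have h4 : ((sg 0)⁻¹ * eb * sg 0 : Br 3) = eb * ea := by
    have : ((sg 0)⁻¹ * (sg 0 * eb * (sg 0)⁻¹) * sg 0 : Br 3) =
      (sg 0)⁻¹ * eb * sg 0 * ((sg 0)⁻¹ * ea * sg 0)⁻¹ := by
      rw [h2]
      group
    rw [h3] at this
    rw [eq_mul_inv_iff_mul_eq] at this
    rw [← this]
    group
  refine norm_of ?_ ?_ ?_ ?_
  · rw [h1]; exact ea_nrm
  · rw [h2]; exact nrm.mul_mem eb_nrm (nrm.inv_mem ea_nrm)
  · rw [h3]; exact ea_nrm
  · rw [h4]; exact nrm.mul_mem eb_nrm ea_nrm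

theorem sg1_norm : (sg 1 : Br 3) ∈ Subgroup.normalizer nrm := by
  have h1 : (sg 1 * ea * (sg 1)⁻¹ : Br 3) = eb := rfl
  have h2 : (sg 1 * eb * (sg 1)⁻¹ : Br 3) = eb * ea⁻¹ * eb := conj2 b01 b12 c02
  have h3 : ((sg 1)⁻¹ * eb * sg 1 : Br 3) = ea := by
    rw [eb]
    group
  have h4 : ((sg 1)⁻¹ * ea * sg 1 : Br 3) = ea * eb⁻¹ * ea := by
    have h5 : eb = (sg 1)⁻¹ * (sg 1 * eb * (sg 1)⁻¹) * sg 1 := by group
    rw [h2] at h5
    have h6 : ((sg 1)⁻¹ * (eb * ea⁻¹ * eb) * sg 1 : Br 3) =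
        ((sg 1)⁻¹ * eb * sg 1) * ((sg 1)⁻¹ * ea * sg 1)⁻¹ * ((sg 1)⁻¹ * eb * sg 1) := by group
    rw [h6, h3] at h5
    have h7 : ((sg 1)⁻¹ * ea * sg 1 : Br 3) = ea * (ea * ((sg 1)⁻¹ * ea * sg 1)⁻¹ * ea)⁻¹ * ea := by
      group
    rw [h7, ← h5]
  refine norm_of ?_ ?_ ?_ ?_
  · rw [h1]; exact eb_nrm
  · rw [h2]; exact nrm.mul_mem (nrm.mul_mem eb_nrm (nrm.inv_mem ea_nrm)) eb_nrm
  · rw [h4]; exact nrm.mul_mem (nrm.mul_mem ea_nrm (nrm.inv_mem eb_nrm)) ea_nrm
  · rw [h3]; exact ea_nrm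

instance nrm_normal : nrm.Normal := by
  rw [← Subgroup.normalizer_eq_top_iff, eq_top_iff,
    ← PresentedGroup.closure_range_of (braidRels 3), Subgroup.closure_le]
  rintro x ⟨i, rfl⟩
  have h2 : (sg 2 : Br 3) = ea⁻¹ * sg 0 := by
    unfold ea
    group
  fin_cases i
  · exact sg0_norm
  · exact sg1_norm
  · show (sg 2 : Br 3) ∈ Subgroup.normalizer nrm
    rw [h2]
    exact (Subgroup.normalizer _).mul_mem
      ((Subgroup.normalizer _).inv_mem (Subgroup.le_normalizer ea_nrm)) sg0_norm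

/-- words that agree modulo `σ_0 = σ_2` are equivalent above two parallel minima -/
theorem C2_eqd {x y : List (Fin 3 × Bool)}
    (h : (QuotientGroup.mk' nrm) (wd x) = (QuotientGroup.mk' nrm) (wd y)) :
    EqD 0 (C2 ++ bw x) (C2 ++ bw y) := by
  have h1 : wd x * (wd y)⁻¹ ∈ nrm := by
    have : (QuotientGroup.mk' nrm) (wd x * (wd y)⁻¹) = 1 := by
      rw [map_mul, map_inv, h, mul_inv_cancel]
    exact (QuotientGroup.eq_one_iff _).1 this
  have h2 := nrm_le h1 (rep (wd x * (wd y)⁻¹)) (wd_rep _)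
  have h3 := (bw_eqd (x := x) (y := rep (wd x * (wd y)⁻¹) ++ y) (by
    rw [wd_append, wd_rep, inv_mul_cancel_right])).left C2 cnt_C2
  refine h3.trans ?_
  rw [bw_append, ← List.append_assoc]
  refine h2.right (bw y) ?_
  rw [List.append_assoc, ← bw_append, cnt_app cnt_C2, cnt_bw]
  simp

end Pool.Agent.TwoBr
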