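import Pool.Agent.TwoBr.Sim

/-!
Sliced diagrams: equivalence of diagrams (with any number of strands) under the moves.
-/

namespace Pool.Agent.TwoBr

open Pool.Agent.LibH11 Pool.Agent.LibH11.Sliced

/-- One move in a context, everything being defined on `N` strands. -/
def Step1 (N : ℕ) (x y : Diag) : Prop :=
  ∃ u a b v : Diag, Move a b ∧ x = u ++ a ++ v ∧ y = u ++ b ++ v ∧ cnt N x ≠ none ∧ cnt N y ≠ none

/-- Equivalence of diagrams on `N` strands. -/
def EqD (N : ℕ) : Diag → Diag → Prop := Relation.EqvGen (Step1 N)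

theorem EqD.refl {N : ℕ} (x : Diag) : EqD N x x := Relation.EqvGen.refl x

theorem EqD.symm {N : ℕ} {x y : Diag} (h : EqD N x y) : EqD N y x := Relation.EqvGen.symm _ _ h

theorem EqD.trans {N : ℕ} {x y z : Diag} (h : EqD N x y) (h' : EqD N y z) : EqD N x z :=
  Relation.EqvGen.trans _ _ _ h h'

theorem EqD.of_eq {N : ℕ} {x y : Diag} (h : x = y) : EqD N x y := h ▸ EqD.refl x

instance {N : ℕ} : Trans (EqD N) (EqD N) (EqD N) := ⟨EqD.trans⟩

theorem EqD.move {N : ℕ} {a b : Diag} (h : Move a b) (ha : cnt N a ≠ none) (hb : cnt N b ≠ none) :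
    EqD N a b :=
  Relation.EqvGen.rel _ _ ⟨[], a, b, [], h, by simp, by simp, ha, hb⟩

theorem cnt_prefix {N : ℕ} {u v : Diag} (h : cnt N (u ++ v) ≠ none) :
    ∃ M, cnt N u = some M ∧ cnt M v ≠ none := by
  rw [cnt_append] at h
  cases hu : cnt N u with
  | none => rw [hu] at h; exact absurd rfl h
  | some M => rw [hu] at h; exact ⟨M, rfl, h⟩

theorem cnt_app {N M : ℕ} {u v : Diag} (h : cnt N u = some M) : cnt N (u ++ v) = cnt M v := by
  rw [cnt_append, h]
  rfl

theorem Step1.cnt_eq {N : ℕ} {x y : Diag} (h : Step1 N x y) : cnt N x = cnt N y := by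
  obtain ⟨u, a, b, v, hm, rfl, rfl, hx, hy⟩ := h
  rw [List.append_assoc] at hx hy ⊢
  rw [List.append_assoc]
  obtain ⟨M, hu, hx'⟩ := cnt_prefix hx
  rw [cnt_app hu] at hy ⊢
  rw [cnt_app hu]
  obtain ⟨M1, ha, -⟩ := cnt_prefix hx'
  obtain ⟨M2, hb, -⟩ := cnt_prefix hy
  have := cnt_move hm ha hb
  subst this
  rw [cnt_app ha, cnt_app hb]

theorem EqD.cnt_eq {N : ℕ} {x y : Diag} (h : EqD N x y) : cnt N x = cnt N y := by
  induction h with
  | rel x y h => exact h.cnt_eq
  | refl x => rfl
  | symm x y _ ih => exact ih.symm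
  | trans x y z _ _ ih1 ih2 => exact ih1.trans ih2

theorem EqD.left {N M : ℕ} {x y : Diag} (u : Diag) (hu : cnt N u = some M) (h : EqD M x y) :
    EqD N (u ++ x) (u ++ y) := by
  induction h with
  | rel x y h =>
    obtain ⟨u', a, b, v, hm, rfl, rfl, hx, hy⟩ := h
    refine Relation.EqvGen.rel _ _ ⟨u ++ u', a, b, v, hm, by simp, by simp, ?_, ?_⟩
    · rw [cnt_app hu]; exact hx
    · rw [cnt_app hu]; exact hy
  | refl x => exact EqD.refl _
  | symm x y _ ih => exact ih.symm
  | trans x y z _ _ ih1 ih2 => exact ih1.trans ih2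

theorem EqD.right {N : ℕ} {x y : Diag} (h : EqD N x y) (v : Diag)
    (hv : cnt N (x ++ v) ≠ none) : EqD N (x ++ v) (y ++ v) := by
  induction h with
  | rel x y h =>
    have h1 := h.cnt_eq
    obtain ⟨u', a, b, v', hm, rfl, rfl, hx, hy⟩ := h
    refine Relation.EqvGen.rel _ _ ⟨u', a, b, v' ++ v, hm, by simp, by simp, hv, ?_⟩
    rw [cnt_append, ← h1, ← cnt_append]
    exact hv
  | refl x => exact EqD.refl _
  | symm x y h ih =>
    refine (ih ?_).symm
    have h1 := EqD.cnt_eq h
    rw [cnt_append, h1, ← cnt_append]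
    exact hv
  | trans x y z h _ ih1 ih2 =>
    refine (ih1 hv).trans (ih2 ?_)
    have h1 := EqD.cnt_eq h
    rw [cnt_append, ← h1, ← cnt_append]
    exact hv

theorem EqD.ctx {N M : ℕ} {x y : Diag} (u v : Diag) (hu : cnt N u = some M) (h : EqD M x y)
    (hv : cnt N (u ++ x ++ v) ≠ none) : EqD N (u ++ x ++ v) (u ++ y ++ v) :=
  (h.left u hu).right v hv

/-! ### Long knots -/

theorem Step1.osim {x y : Diag} (h : Step1 1 x y) : OSim (run x start) (run y start) := by
  obtain ⟨u, a, b, v, hm, rfl, rfl, hx, hy⟩ := h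
  rw [run_append, run_append, run_append (u ++ b), run_append u b]
  have hs := run_osim u start_sim
  cases hu : run u start with
  | none => exact trivial
  | some s =>
    rw [hu] at hs
    have hc : cnt 1 u = some s.1 := run_cnt u start s hu
    rw [List.append_assoc, cnt_app hc] at hx hy
    obtain ⟨M1, ha, -⟩ := cnt_prefix hx
    obtain ⟨M2, hb, -⟩ := cnt_prefix hy
    simp only [Option.bind_some]
    refine bind_run_osim v ?_
    have hss : Sim s s := hs
    obtain ⟨n, lab, c⟩ := s
    exact move_osim hm hss.v1 (by rw [ha]; simp) (by rw [hb]; simp)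

theorem EqD.osim {x y : Diag} (h : EqD 1 x y) : OSim (run x start) (run y start) := by
  induction h with
  | rel x y h => exact h.osim
  | refl x => exact run_osim x start_sim
  | symm x y _ ih => exact ih.symm
  | trans x y z _ _ ih1 ih2 => exact ih1.trans ih2

theorem isLongKnot_of_osim {x y : Diag} (h : OSim (run x start) (run y start))
    (hx : IsLongKnot x) : IsLongKnot y := by
  rw [isLongKnot_iff] at hx ⊢
  obtain ⟨lab, c, hx⟩ := hx
  rw [hx] at h
  cases hy : run y start with
  | none => rw [hy] at h; exact h.elim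
  | some t =>
    rw [hy] at h
    obtain ⟨n, lab', c'⟩ := t
    have := h.n
    simp only at this
    exact ⟨lab', c', by rw [this]⟩

theorem EqD.isLongKnot {x y : Diag} (h : EqD 1 x y) (hx : IsLongKnot x) : IsLongKnot y :=
  isLongKnot_of_osim h.osim hx

theorem EqD.knot {x y : Diag} (h : EqD 1 x y) (hx : IsLongKnot x) :
    ofDiag x hx = ofDiag y (h.isLongKnot hx) := by
  have key : ∀ (x y : Diag), EqD 1 x y → ∀ hx hy, ofDiag x hx = ofDiag y hy := by
    intro x y h
    induction h with
    | rel x y h =>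
      intro hx hy
      obtain ⟨u, a, b, v, hm, h1, h2, -, -⟩ := h
      exact Quot.sound ⟨u, a, b, v, hm, h1, h2⟩
    | refl x => intro hx hy; rfl
    | symm x y _ ih => intro hx hy; exact (ih hy hx).symm
    | trans x y z h _ ih1 ih2 =>
      intro hx hz
      have hy := EqD.isLongKnot h hx
      exact (ih1 hx hy).trans (ih2 hy hz)
  exact key x y h hx _

/-! ### Adding strands -/

/-- Strands added on the left. -/
def sh (k : ℕ) (w : Diag) : Diag := w.map fun p => (p.1, p.2 + k)

@[simp] theorem sh_nil (k : ℕ) : sh k [] = [] := rfl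
@[simp] theorem sh_cons (k : ℕ) (p : Kind × ℕ) (w : Diag) :
    sh k (p :: w) = (p.1, p.2 + k) :: sh k w := rfl
theorem sh_append (k : ℕ) (u v : Diag) : sh k (u ++ v) = sh k u ++ sh k v := by simp [sh]
theorem sh_zero (w : Diag) : sh 0 w = w := by
  unfold sh
  simp
theorem sh_sh (k l : ℕ) (w : Diag) : sh k (sh l w) = sh (l + k) w := by
  simp [sh, add_assoc]

theorem cnt_sh (k : ℕ) : ∀ (w : Diag) (N : ℕ), cnt (N + k) (sh k w) = (cnt N w).map (· + k) := by
  intro w
  induction w with
  | nil => intro N; rfl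
  | cons p w ih =>
    obtain ⟨κ, i⟩ := p
    intro N
    simp only [sh_cons, cnt]
    by_cases h : i + κ.ins ≤ N
    · rw [if_pos h, if_pos (by omega), ← ih]
      congr 1
      omega
    · rw [if_neg h, if_neg (by omega)]
      rfl

theorem cnt_widen (k : ℕ) : ∀ (w : Diag) (N m : ℕ), cnt N w = some m →
    cnt (N + k) w = some (m + k) := by
  intro w
  induction w with
  | nil =>
    intro N m h
    simp only [cnt, Option.some.injEq] at h ⊢
    rw [h]
  | cons p w ih =>
    obtain ⟨κ, i⟩ := p
    intro N m h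
    obtain ⟨h1, h2⟩ := cnt_cons_some h
    have h3 := ih _ _ h2
    simp only [cnt]
    rw [if_pos (by omega), ← h3]
    congr 1
    omega

theorem move_sh (k : ℕ) {a b : Diag} (h : Move a b) : Move (sh k a) (sh k b) := by
  cases h with
  | far p q i l =>
    have := Move.far p q (i + k) l
    simp only [sh_cons, sh_nil]
    rw [show i + p.outs + l + k = i + k + p.outs + l by omega,
      show i + p.ins + l + k = i + k + p.ins + l by omega]
    exact this
  | zigzag i =>
    have := Move.zigzag (i + k)
    simp only [sh_cons, sh_nil]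
    rw [show i + 1 + k = i + k + 1 by omega]
    exact this
  | zagzig i =>
    have := Move.zagzig (i + k)
    simp only [sh_cons, sh_nil]
    rw [show i + 1 + k = i + k + 1 by omega]
    exact this
  | slideCap i e =>
    have := Move.slideCap (i + k) e
    simp only [sh_cons, sh_nil]
    rw [show i + 1 + k = i + k + 1 by omega]
    exact this
  | slideCup i e =>
    have := Move.slideCup (i + k) e
    simp only [sh_cons, sh_nil]
    rw [show i + 1 + k = i + k + 1 by omega]
    exact this
  | r1Cap i e => exact Move.r1Cap (i + k) e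
  | r1Cup i e => exact Move.r1Cup (i + k) e
  | r2 i e => exact Move.r2 (i + k) e
  | r3 i =>
    have := Move.r3 (i + k)
    simp only [sh_cons, sh_nil]
    rw [show i + 1 + k = i + k + 1 by omega]
    exact this

theorem EqD.sh {N : ℕ} {x y : Diag} (h : EqD N x y) (k : ℕ) :
    EqD (N + k) (sh k x) (sh k y) := by
  induction h with
  | rel x y h =>
    obtain ⟨u, a, b, v, hm, rfl, rfl, hx, hy⟩ := h
    refine Relation.EqvGen.rel _ _ ⟨TwoBr.sh k u, TwoBr.sh k a, TwoBr.sh k b, TwoBr.sh k v,
      move_sh k hm, by simp [sh_append], by simp [sh_append], ?_, ?_⟩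
    · rw [cnt_sh]
      simpa using hx
    · rw [cnt_sh]
      simpa using hy
  | refl x => exact EqD.refl _
  | symm x y _ ih => exact ih.symm
  | trans x y z _ _ ih1 ih2 => exact ih1.trans ih2

theorem EqD.widen {N : ℕ} {x y : Diag} (h : EqD N x y) (k : ℕ) : EqD (N + k) x y := by
  induction h with
  | rel x y h =>
    obtain ⟨u, a, b, v, hm, h1, h2, hx, hy⟩ := h
    refine Relation.EqvGen.rel _ _ ⟨u, a, b, v, hm, h1, h2, ?_, ?_⟩
    · obtain ⟨m, hm⟩ := Option.ne_none_iff_exists'.1 hx
      rw [cnt_widen k _ _ _ hm]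
      simp
    · obtain ⟨m, hm⟩ := Option.ne_none_iff_exists'.1 hy
      rw [cnt_widen k _ _ _ hm]
      simp
  | refl x => exact EqD.refl _
  | symm x y _ ih => exact ih.symm
  | trans x y z _ _ ih1 ih2 => exact ih1.trans ih2

/-! ### Far commutation -/

theorem cnt_one {p : Kind} {i N : ℕ} (h : i + p.ins ≤ N) :
    cnt N [(p, i)] = some (N - p.ins + p.outs) := by
  simp only [cnt]
  rw [if_pos h]

theorem far_one (p q : Kind) {i j N N' : ℕ} (hi : i + p.ins ≤ N) (hj : j + q.ins ≤ N') :
    EqD (N + N') [(p, i), (q, j + (N - p.ins + p.outs))] [(q, j + N), (p, i)] := by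
  have hm := Move.far p q i (N - p.ins - i + j)
  have e1 : i + p.outs + (N - p.ins - i + j) = j + (N - p.ins + p.outs) := by omega
  have e2 : i + p.ins + (N - p.ins - i + j) = j + N := by omega
  rw [e1, e2] at hm
  refine EqD.move hm ?_ ?_
  · simp only [cnt]
    rw [if_pos (by omega), if_pos (by omega)]
    simp
  · simp only [cnt]
    rw [if_pos (by omega), if_pos (by omega)]
    simp

theorem far_left (p : Kind) {i N : ℕ} (hi : i + p.ins ≤ N) : ∀ (v : Diag) (N' : ℕ),
    cnt N' v ≠ none →
    EqD (N + N') ((p, i) :: sh (N - p.ins + p.outs) v) (sh N v ++ [(p, i)]) := by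
  intro v
  induction v with
  | nil => intro N' _; exact EqD.refl _
  | cons q v ih =>
    obtain ⟨q, j⟩ := q
    intro N' h
    obtain ⟨h1, h2⟩ := cnt_cons_ne h
    have h3 := far_one p q hi h1
    have h4 := ih _ h2
    have h5 : cnt (N + N') [(q, j + N)] = some (N + (N' - q.ins + q.outs)) := by
      rw [cnt_one (by omega)]
      congr 1
      omega
    have h6 := h4.left [(q, j + N)] h5
    have h7 : cnt (N + N') ([(p, i), (q, j + (N - p.ins + p.outs))] ++
        sh (N - p.ins + p.outs) v) ≠ none := by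
      rw [cnt_app (M := N - p.ins + p.outs + (N' - q.ins + q.outs))]
      · rw [add_comm, cnt_sh]
        simpa using h2
      · simp only [cnt]
        rw [if_pos (by omega), if_pos (by omega)]
        congr 1
        omega
    exact (h3.right _ h7).trans h6

/-- Far commutation: `u` on the left, `v` on the right. -/
theorem far_words : ∀ (u v : Diag) (N M N' : ℕ), cnt N u = some M → cnt N' v ≠ none →
    EqD (N + N') (u ++ sh M v) (sh N v ++ u) := by
  intro u
  induction u with
  | nil =>
    intro v N M N' h _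
    simp only [cnt, Option.some.injEq] at h
    subst h
    simp only [List.nil_append, List.append_nil]
    exact EqD.refl _
  | cons p u ih =>
    obtain ⟨p, i⟩ := p
    intro v N M N' h hv
    obtain ⟨h1, h2⟩ := cnt_cons_some h
    have h3 := ih v _ M N' h2 hv
    have h4 : cnt (N + N') [(p, i)] = some (N - p.ins + p.outs + N') := by
      rw [cnt_one (by omega)]
      congr 1
      omega
    have h5 := h3.left [(p, i)] h4
    have h6 := far_left p h1 v N' hv
    have h7 : cnt (N + N') (((p, i) :: sh (N - p.ins + p.outs) v) ++ u) ≠ none := by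
      have h8 := h5.cnt_eq
      rw [cnt_app h4] at h8
      have h9 : cnt (N - p.ins + p.outs + N') (u ++ sh M v) ≠ none := by
        rw [cnt_app (cnt_widen N' _ _ _ h2), add_comm, cnt_sh]
        simpa using hv
      rw [h8] at h9
      simpa using h9
    have h10 := h6.right u h7
    simp only [List.cons_append, List.nil_append, List.append_assoc] at h5 h10 ⊢
    exact h5.trans h10

end Pool.Agent.TwoBr
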