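import Pool.Agent.TwoBr.StateSum

/-!
# Removing the framing factor

A model in which a kink contributes a factor `θ e` is turned into a model without framing factor by
adding an orientation to the labels.
-/

namespace Pool.Agent.TwoBr

set_option linter.unusedSimpArgs false

open Pool.Agent.LibH11.Sliced

variable {R : Type*} [CommRing R] {ι : Type*} [Fintype ι]

/-- The relations of a model with framing factors `θ true`, `θ false` (inverse to each other). -/
structure Mats.OkFr [DecidableEq ι] (M : Mats R ι) (θ : Bool → R) : Prop where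
  zigzag : ∀ x a, ∑ b, M.cup a b * M.cap b x = if a = x then 1 else 0
  zagzig : ∀ x b, ∑ a, M.cup a b * M.cap x a = if b = x then 1 else 0
  slideCap : ∀ e x y z t, ∑ c, M.X e y z c t * M.cap x c = ∑ d, M.X (!e) x y t d * M.cap d z
  slideCup : ∀ e x p q r, ∑ b, M.cup p b * M.X e b x q r = ∑ a, M.cup a r * M.X (!e) x a p q
  r1Cap : ∀ e x y, ∑ c, ∑ d, M.X e x y c d * M.cap c d = θ e * M.cap x y
  r1Cup : ∀ e c d, ∑ a, ∑ b, M.cup a b * M.X e a b c d = θ e * M.cup c d
  r2 : ∀ e x y p q, ∑ c, ∑ d, M.X e x y c d * M.X (!e) c d p q =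
    if p = x ∧ q = y then 1 else 0
  r3 : ∀ x y z p q r, ∑ a, ∑ b, ∑ c, M.X true x y a b * M.X true b z c r * M.X true a c p q =
    ∑ a, ∑ b, ∑ c, M.X true y z a b * M.X true x a p c * M.X true c b q r
  inv : ∀ e, θ e * θ (!e) = 1

/-- The model with orientations; a crossing gets the factor `θ e` if the two strands are parallel
and `θ (!e)` if they are antiparallel. -/
def Mats.nrm (M : Mats R ι) (θ : Bool → R) : Mats R (Bool × ι) where
  cup u v := if u.1 = v.1 then 0 else M.cup u.2 v.2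
  cap u v := if u.1 = v.1 then 0 else M.cap u.2 v.2
  X e u v u' v' := if u'.1 = v.1 ∧ v'.1 = u.1 then
    θ (if u.1 = v.1 then e else !e) * M.X e u.2 v.2 u'.2 v'.2 else 0

variable [DecidableEq ι]

theorem Mats.OkFr.nrm {M : Mats R ι} {θ : Bool → R} (h : M.OkFr θ) : (M.nrm θ).Ok where
  zigzag := by
    rintro ⟨o, x⟩ ⟨o', a⟩
    simp only [Fintype.sum_prod_type, Fintype.sum_bool, Mats.nrm, Prod.mk.injEq]
    cases o <;> cases o' <;> simp [h.zigzag]
  zagzig := by
    rintro ⟨o, x⟩ ⟨o', a⟩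
    simp only [Fintype.sum_prod_type, Fintype.sum_bool, Mats.nrm, Prod.mk.injEq]
    cases o <;> cases o' <;> simp [h.zagzig]
  slideCap := by
    rintro e ⟨o1, x⟩ ⟨o2, y⟩ ⟨o3, z⟩ ⟨o4, t⟩
    simp only [Fintype.sum_prod_type, Fintype.sum_bool, Mats.nrm]
    have h1 := h.slideCap e x y z t
    cases o1 <;> cases o2 <;> cases o3 <;> cases o4 <;>
      simp [mul_assoc, ← Finset.mul_sum, h1]
  slideCup := by
    rintro e ⟨o1, x⟩ ⟨o2, p⟩ ⟨o3, q⟩ ⟨o4, r⟩
    simp only [Fintype.sum_prod_type, Fintype.sum_bool, Mats.nrm]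
    have h1 := h.slideCup e x p q r
    cases o1 <;> cases o2 <;> cases o3 <;> cases o4 <;>
      simp [mul_left_comm _ (θ _), ← Finset.mul_sum, h1]
  r1Cap := by
    rintro e ⟨o1, x⟩ ⟨o2, y⟩
    simp only [Fintype.sum_prod_type, Fintype.sum_bool, Mats.nrm]
    have h1 := h.r1Cap e x y
    have h3 : (θ !e) * (θ e * M.cap x y) = M.cap x y := by
      rw [← mul_assoc, mul_comm (θ (!e)), h.inv e, one_mul]
    cases o1 <;> cases o2 <;> simp [mul_assoc, ← Finset.mul_sum, h1, h3]
  r1Cup := by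
    rintro e ⟨o1, x⟩ ⟨o2, y⟩
    simp only [Fintype.sum_prod_type, Fintype.sum_bool, Mats.nrm]
    have h1 := h.r1Cup e x y
    have h3 : (θ !e) * (θ e * M.cup x y) = M.cup x y := by
      rw [← mul_assoc, mul_comm (θ (!e)), h.inv e, one_mul]
    have h4 : ∀ t : Bool, (∑ a, ∑ b, M.cup a b * (θ t * M.X e a b x y)) =
        θ t * ∑ a, ∑ b, M.cup a b * M.X e a b x y := by
      intro t
      simp only [Finset.mul_sum]
      exact Finset.sum_congr rfl fun c _ => Finset.sum_congr rfl fun d _ => by ring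
    cases o1 <;> cases o2 <;> simp [h4, h1, h3]
  r2 := by
    rintro e ⟨o1, x⟩ ⟨o2, y⟩ ⟨o3, p⟩ ⟨o4, q⟩
    simp only [Fintype.sum_prod_type, Fintype.sum_bool, Mats.nrm, Prod.mk.injEq]
    have h1 := h.r2 e x y p q
    have h2 := h.inv e
    have h3 : ∀ (s t : Bool), (∑ c, ∑ d, θ s * M.X e x y c d * (θ t * M.X (!e) c d p q)) =
        θ s * θ t * ∑ c, ∑ d, M.X e x y c d * M.X (!e) c d p q := by
      intro s t
      simp only [Finset.mul_sum]
      exact Finset.sum_congr rfl fun c _ => Finset.sum_congr rfl fun d _ => by ring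
    cases o1 <;> cases o2 <;> cases o3 <;> cases o4 <;>
      simp [h3, h1, h2, mul_comm (θ (!e)) (θ e)]
  r3 := by
    rintro ⟨o1, x⟩ ⟨o2, y⟩ ⟨o3, z⟩ ⟨o4, p⟩ ⟨o5, q⟩ ⟨o6, r⟩
    simp only [Fintype.sum_prod_type, Fintype.sum_bool, Mats.nrm]
    have h1 := h.r3 x y z p q r
    have h3 : ∀ (s t u : Bool), (∑ a, ∑ b, ∑ c, θ s * M.X true x y a b *
        (θ t * M.X true b z c r) * (θ u * M.X true a c p q)) =
        θ s * θ t * θ u * ∑ a, ∑ b, ∑ c, M.X true x y a b * M.X true b z c r * M.X true a c p q := by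
      intro s t u
      simp only [Finset.mul_sum]
      exact Finset.sum_congr rfl fun a _ => Finset.sum_congr rfl fun b _ =>
        Finset.sum_congr rfl fun c _ => by ring
    have h4 : ∀ (s t u : Bool), (∑ a, ∑ b, ∑ c, θ s * M.X true y z a b *
        (θ t * M.X true x a p c) * (θ u * M.X true c b q r)) =
        θ s * θ t * θ u * ∑ a, ∑ b, ∑ c, M.X true y z a b * M.X true x a p c * M.X true c b q r := by
      intro s t u
      simp only [Finset.mul_sum]
      exact Finset.sum_congr rfl fun a _ => Finset.sum_congr rfl fun b _ =>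
        Finset.sum_congr rfl fun c _ => by ring
    cases o1 <;> cases o2 <;> cases o3 <;> cases o4 <;> cases o5 <;> cases o6 <;>
      simp [h3, h4, h1] <;> ring

end Pool.Agent.TwoBr
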